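import Pool.Agent.Lib.MP_3240be_co.D62.Defs

/-!
# MP_3240be_co, row ALL: all connected bipartite graphs
-/

set_option autoImplicit false

namespace MP3240E

open MP3240L (fam)
open MP3240G (Mx NcdStatement)
open MP3240Q (Sub)
open Pool.Agent.Lib.MP_3240be_co.H82 (TC)

theorem all_proof (hMain : MP3240S.MainStatement) (hDa2 : Da2Statement) (hSel : SelStatement)
    (hKla : KlaStatement) (hMa2 : Ma2Statement) (hMd2 : Md2Statement) (hBrg : BrgStatement)
    (hNcd : NcdStatement) : AllStatement := by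
  intro n n' H H' κ hH hκ hcyc hH' hsub hlt
  obtain ⟨h, Tn, h1, hfin, hne, hsm, hbig, hTn, htiny, hdt, hmdl⟩ := hDa2 n H κ hH hκ hcyc
  by_cases hex : ∃ x, Mx (fam H κ h) x ∧ TC True x.2
  · obtain ⟨A, B, hA, htA, hB, htB, hcase⟩ := hSel h (fam H κ h) h1 hfin hbig hex
    rcases hcase with ⟨hAB, hmin⟩ | ⟨-, -, hdet, hmin⟩
    · subst hAB
      refine hMd2 h n n' H H' κ Tn A h1 hfin hbig hTn htiny hA htA ?_ (hdt A hA)
        (fun T hT => hmdl A T hA.1 hT) hH' hsub hlt
      intro U V hU hV hUV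
      exact hKla h (fam H κ h) A A h1 hfin hbig hA hA htA htA
        (fun U V hU htU hV htV hle => Or.inl (hmin U V hU htU hV htV hle)) U V hU hV
        (by
          rintro (h2 | h2)
          · exact hUV h2
          · exact hUV h2)
    · exact hMa2 h n n' H H' κ Tn A B h1 hfin hbig hTn htiny hA hB htA htB hdet hmin (hdt A hA)
        (hdt B hB) hmdl hH' hsub hlt
  · refine hBrg hMain h n n' H H' κ hH hκ hcyc hne hsm ?_ hH' hsub hlt
    intro x hx hc
    exact hex ⟨x, hx, (hNcd h x (hbig x hx.1)).2 hc⟩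

end MP3240E
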