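import Pool.Agent.Lib.MP_3240be_co.D62.Defs

/-!
# MP_3240be_co: row ATD of the board t3d_modules

Attaching determiners to edges of a base graph.
-/

set_option autoImplicit false

namespace MP3240E

open MP3240Q (Mono Bip SG Sub)
open Pool.Agent.Lib.MP_3240be_co.H82 (TC)

theorem atd_proof (h : GleStatement) : AtdStatement := by
  classical
  intro a b A B hA hB det W J _ _ G Z p₁ p₂ τ hp hZ
  choose U' hU' S' e₁' e₂' he hbip hgood hforce using det
  have : ∀ j, Finite (U' (τ j)) := fun j => hU' (τ j)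
  obtain ⟨V, hV, F, ι, ι', hι, hι', hend, hadj, hadj', -, hnb, hmeet, hcol, hcross⟩ :=
    h W J G (fun j => U' (τ j)) (fun j => S' (τ j)) (fun j => e₁' (τ j)) (fun j => e₂' (τ j))
      p₁ p₂ (fun j => he (τ j)) (fun j => hbip (τ j)) hp
  refine ⟨V, hV, F, ι, hι, hadj, ?_, ?_, hnb⟩
  · intro C hC hr hbl j
    have key : G2 A B (S' (τ j)) (fun x y => C (ι' j x) (ι' j y)) := by
      refine ⟨fun x y => hC _ _, fun f hf => ?_, fun f hf => ?_⟩
      · obtain ⟨i, z, hz, hfz⟩ := hr (fun i => ι' j (f i)) ⟨(hι' j).comp hf.1, fun x y hxy =>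
          ⟨(hadj' j _ _).2 (hf.2 x y hxy).1, (hf.2 x y hxy).2⟩⟩
        rcases hmeet j _ _ hfz with h1 | h1
        · exact (hZ j).1 (h1 ▸ hz)
        · exact (hZ j).2 (h1 ▸ hz)
      · obtain ⟨i, z, hz, hfz⟩ := hbl (fun i => ι' j (f i)) ⟨(hι' j).comp hf.1, fun x y hxy =>
          ⟨(hadj' j _ _).2 (hf.2 x y hxy).1, (hf.2 x y hxy).2⟩⟩
        rcases hmeet j _ _ hfz with h1 | h1
        · exact (hZ j).1 (h1 ▸ hz)
        · exact (hZ j).2 (h1 ▸ hz)
    have h2 : C (ι' j (e₁' (τ j))) (ι' j (e₂' (τ j))) = τ j := hforce (τ j) _ key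
    rw [(hend j).1, (hend j).2] at h2
    exact h2
  · intro c hc hcτ
    choose d hd using hgood
    obtain ⟨C, hC, hC1, hC2⟩ := hcol c (fun j => d (τ j)) hc (fun j => (hd (τ j)).symm)
      (fun j => by rw [hforce (τ j) _ (hd (τ j)), hcτ j])
    refine ⟨C, hC, hC1, fun f hf => ?_, fun f hf => ?_⟩
    · rcases hcross a A hA f hf.1 (fun i j hij => (hf.2 i j hij).1) with h1 | ⟨j, h1⟩
      · exact h1
      · exfalso
        choose g hg using h1
        refine (hd (τ j)).red g ⟨fun x y hxy => hf.1 (by rw [hg, hg, hxy]), fun x y hxy => ?_⟩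
        obtain ⟨h3, h4⟩ := hf.2 x y hxy
        rw [hg, hg] at h3 h4
        have h5 := (hadj' j _ _).1 h3
        exact ⟨h5, (hC2 j _ _ h5).symm.trans h4⟩
    · rcases hcross b B hB f hf.1 (fun i j hij => (hf.2 i j hij).1) with h1 | ⟨j, h1⟩
      · exact h1
      · exfalso
        choose g hg using h1
        refine (hd (τ j)).blue g ⟨fun x y hxy => hf.1 (by rw [hg, hg, hxy]), fun x y hxy => ?_⟩
        obtain ⟨h3, h4⟩ := hf.2 x y hxy
        rw [hg, hg] at h3 h4
        have h5 := (hadj' j _ _).1 h3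
        exact ⟨h5, (hC2 j _ _ h5).symm.trans h4⟩

end MP3240E
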