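import Pool.Agent.Lib.MP_3240be_co.D62.Defs
import Pool.Agent.Lib.MP_3240be_co.H34.Crisp

/-!
# MP_3240be_co, D62: row BRG (helper53)
-/

set_option autoImplicit false

namespace MP3240E

open Finset
open MP3240L (gr fam emb Bg Blk IsBlock Large Top CrossS small)
open MP3240G (Mx Cross)
open MP3240Q (Sub SG)

/-- Two proper 2-colourings of a connected graph agree or are complementary. -/
theorem brg_two {V : Type} {G : SimpleGraph V} (hG : G.Connected) {κ κ' : V → Bool}
    (hκ : ∀ i j, G.Adj i j → κ i ≠ κ j) (hκ' : ∀ i j, G.Adj i j → κ' i ≠ κ' j)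
    (a b : V) (hab : κ' a ≠ κ' b) : κ a ≠ κ b := by
  have key : ∀ x y : V, G.Walk x y → (κ x = κ y ↔ κ' x = κ' y) := by
    intro x y p
    induction p with
    | nil => exact ⟨fun _ => rfl, fun _ => rfl⟩
    | @cons u v w h p ih =>
      have h1 := hκ _ _ h
      have h2 := hκ' _ _ h
      revert ih h1 h2
      cases κ u <;> cases κ v <;> cases κ w <;> cases κ' u <;> cases κ' v <;> cases κ' w <;>
        decide
  obtain ⟨p⟩ := hG.preconnected a b
  exact fun h => hab ((key a b p).1 h)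

/-- A set that is cross-connected for `κ` gives a cross-connected graph. -/
theorem brg_cross {n : ℕ} {H : SimpleGraph (Fin n)} {κ : Fin n → Bool}
    (hκ : ∀ i j, H.Adj i j → κ i ≠ κ j) {S : Finset (Fin n)} (hS : Blk H S)
    (h : CrossS H κ S) : Cross (gr H S).2 := by
  intro κ' hκ' a b hab
  have hconn : (gr H S).2.Connected := (MP3240L.twoCn_gr hS).conn
  have h1 : κ (emb S a) ≠ κ (emb S b) :=
    brg_two hconn (κ := fun i => κ (emb S i)) (κ' := κ') (fun i j hij => hκ _ _ hij) hκ' a b hab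
  refine MP3240L.conn_comap H (emb S) _ (fun q hq => MP3240L.emb_surj hq.1) {x | x ≠ a ∧ x ≠ b}
    ?_ (h _ (MP3240L.emb_mem S a) _ (MP3240L.emb_mem S b) h1)
  intro k
  exact ⟨fun h => ⟨MP3240L.emb_mem S k, fun h' => h.1 ((emb S).injective h'),
    fun h' => h.2 ((emb S).injective h')⟩,
    fun h => ⟨fun h' => h.2.1 (congrArg _ h'), fun h' => h.2.2 (congrArg _ h')⟩⟩

theorem brg_proof : BrgStatement := by
  intro hM h n n' H H' κ hH hκ hcyc hne hsm hno hc' hs hn
  refine hM n n' H H' κ hH hκ hcyc ?_ hc' hs hn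
  intro S S' hS _ hcS _
  exfalso
  obtain ⟨x, S1, hS1, -⟩ := hne
  have hL : Large H κ S1 := ⟨hS1.1, fun S2 h2 => by
    have h3 := hsm S2 h2
    rw [hS1.2]
    exact h3⟩
  have hiff := MP3240L.large_iff hL hS1.2
  refine hno (gr H S) ⟨⟨S, (hiff S).1 hS.1, rfl⟩, ?_⟩ (brg_cross hκ hS.1.1.1 hcS)
  rintro y ⟨S2, hS2, rfl⟩ hsub
  rw [MP3240L.sub_gr] at hsub ⊢
  exact hS.2 S2 ((hiff S2).2 hS2) hsub

end MP3240E
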