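import Pool.Agent.Lib.MP_3240be_co.D62.Defs
import Pool.Agent.Lib.MP_3240be_co.H62.Cho

/-!
# MP_3240be_co, board t3d_modules, row CAA: the case distinction (helper88)
-/

set_option autoImplicit false

namespace MP3240E

open MP3240G (Mx exists_mx)
open MP3240Q (SG Sub)

theorem caa_proof : CaaStatement := by
  classical
  intro fm Tn A B P hfin _ _ hmono hkill hgam
  by_cases hall : ∃ c, ∀ x ∈ Tn ∪ fm, P c x
  · exact Or.inl hall
  right
  have hTn : ∀ c, ∀ x ∈ Tn, P c x := fun c => (hgam c).resolve_right fun h => hall ⟨_, h⟩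
  have key : ∀ c, ∃ x, Mx fm x ∧ ¬ P c x := by
    intro c
    by_contra hcon
    push Not at hcon
    refine hall ⟨c, ?_⟩
    rintro x (hx | hx)
    · exact hTn c x hx
    · obtain ⟨x', hx', hxx⟩ := exists_mx hfin hx
      exact hmono c _ _ hxx (hcon x' hx')
  refine ⟨hTn, ?_⟩
  obtain ⟨x, hx, hxP⟩ := key true
  obtain ⟨y, hy, hyP⟩ := key false
  by_cases h : (Sub x.2 A.2 ∧ Sub y.2 B.2) ∨ (Sub x.2 B.2 ∧ Sub y.2 A.2)
  · rcases h with ⟨h1, h2⟩ | ⟨h1, h2⟩
    · exact ⟨true, fun h => hxP (hmono _ _ _ h1 h), fun h => hyP (hmono _ _ _ h2 h)⟩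
    · exact ⟨false, fun h => hyP (hmono _ _ _ h2 h), fun h => hxP (hmono _ _ _ h1 h)⟩
  · rcases hkill x y hx hy h with h1 | h1
    · exact absurd h1 hxP
    · exact absurd h1 hyP

end MP3240E
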