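import Pool.Agent.Lib.MP_3240be_co.D62.Defs

/-!
# MP_3240be_co: chains of adjacent senders for a pair (row CH2)
-/

set_option autoImplicit false

namespace MP3240E

open MP3240Q (Mono Bip)
open Pool.Agent.Lib.MP_3240be_co.H82 (TC Att Att_base Att_piece Att_base_ind Att_piece_ind
  Att_private Att_private_not Att_bip Att_colour ia ia_pos ia_neg ia_inj)

/-- Senders with a level function: the relation `P` holds in all good colourings, the patterns
in `Rz` are realized. -/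
def LS2 {a b : ℕ} (A : SimpleGraph (Fin a)) (B : SimpleGraph (Fin b))
    (P Rz : Bool → Bool → Prop) (γ : Bool) (α β : ℕ) : Prop :=
  ∃ (W : Type) (_ : Finite W) (G : SimpleGraph W) (e₁ e₂ f₁ f₂ : W) (ℓ : W → ℕ),
    (∀ u v, G.Adj u v → ℓ v ≤ ℓ u + 1) ∧ G.Adj e₁ e₂ ∧ G.Adj f₁ f₂ ∧ ℓ e₁ = 0 ∧ ℓ e₂ = 0 ∧
    α ≤ ℓ f₁ ∧ β ≤ ℓ f₂ ∧
    (∃ cl : W → Bool, (∀ x y, G.Adj x y → cl x ≠ cl y) ∧ (cl e₁ == cl f₁) = γ) ∧
    (∀ x y, Rz x y → ∃ c, G2 A B G c ∧ c e₁ e₂ = x ∧ c f₁ f₂ = y) ∧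
    ∀ c, G2 A B G c → P (c e₁ e₂) (c f₁ f₂)

theorem no_copy_bool {n : ℕ} {H : SimpleGraph (Fin n)} (hH : TC True H) (f : Fin n → Bool)
    (hf : Function.Injective f) : False := by
  obtain ⟨x⟩ := hH.ne
  obtain ⟨y, hyx, _⟩ := hH.third x x
  obtain ⟨z, hzx, hzy⟩ := hH.third x y
  have h1 : f y ≠ f x := fun h => hyx (hf h)
  have h2 : f z ≠ f x := fun h => hzx (hf h)
  have h3 : f z ≠ f y := fun h => hzy (hf h)
  revert h1 h2 h3
  cases f x <;> cases f y <;> cases f z <;> simp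

theorem LS2_zero {a b : ℕ} (A : SimpleGraph (Fin a)) (B : SimpleGraph (Fin b))
    (hA : TC True A) (hB : TC True B) :
    LS2 A B (fun x y => x = y) (fun x y => x = y) true 0 0 := by
  refine ⟨Bool, inferInstance, ⊤, false, true, false, true, fun _ => 0,
    fun _ _ _ => Nat.zero_le _,
    by simp, by simp, rfl, rfl, le_rfl, le_rfl,
    ⟨id, fun x y h => h, rfl⟩, ?_, fun c _ => rfl⟩
  intro x y hxy
  exact ⟨fun _ _ => x, ⟨fun _ _ => rfl, fun f hf => no_copy_bool hA f hf.1,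
    fun f hf => no_copy_bool hB f hf.1⟩, rfl, hxy⟩

/-- Restriction of a good colouring along an embedding. -/
theorem G2.comap {a b : ℕ} {A : SimpleGraph (Fin a)} {B : SimpleGraph (Fin b)} {W U : Type}
    {G : SimpleGraph W} {S : SimpleGraph U} {c : W → W → Bool} (h : G2 A B G c) (ι : U → W)
    (hι : Function.Injective ι) (hadj : ∀ u v, S.Adj u v → G.Adj (ι u) (ι v)) :
    G2 A B S (fun u v => c (ι u) (ι v)) :=
  ⟨fun _ _ => h.symm _ _,
    fun f hf => h.red (fun i => ι (f i)) ⟨hι.comp hf.1, fun i j hij =>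
      ⟨hadj _ _ (hf.2 i j hij).1, (hf.2 i j hij).2⟩⟩,
    fun f hf => h.blue (fun i => ι (f i)) ⟨hι.comp hf.1, fun i j hij =>
      ⟨hadj _ _ (hf.2 i j hij).1, (hf.2 i j hij).2⟩⟩⟩

theorem LS2_succ {a b : ℕ} (A : SimpleGraph (Fin a)) (B : SimpleGraph (Fin b))
    (hA : TC True A) (hB : TC True B) {P Rz P' Rz' : Bool → Bool → Prop} {γ : Bool}
    {α β : ℕ} (h1 : LS2 A B P Rz γ α β) (h2 : AdjS A B P' Rz') :
    LS2 A B (fun x z => ∃ y, P x y ∧ P' y z) (fun x z => ∃ y, Rz x y ∧ Rz' y z) (!γ) β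
      (min α β + 1) := by
  classical
  obtain ⟨W, hW, G, e₁, e₂, f₁, f₂, ℓ, hℓ, he, hf, hℓ1, hℓ2, hℓ3, hℓ4, ⟨cl₀, hc1, hc2⟩, hreal,
    hforce⟩ := h1
  obtain ⟨U, hU, S, x, a', b', hab, hxa, hxb, ⟨cl₁, hc3⟩, hforce2, hreal2⟩ := h2
  let T : U → Prop := fun u => u = x ∨ u = a'
  obtain ⟨t, htx, hta⟩ : ∃ t : Unit → U → W, (∀ j, t j x = f₂) ∧ ∀ j, t j a' = f₁ :=
    ⟨fun _ u => if u = x then f₂ else f₁, fun j => if_pos rfl, fun j => if_neg hxa.ne.symm⟩
  have ht : ∀ j u v, T u → T v → t j u = t j v → u = v := by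
    rintro j u v (rfl | rfl) (rfl | rfl) h
    · rfl
    · rw [htx, hta] at h
      exact absurd h.symm hf.ne
    · rw [htx, hta] at h
      exact absurd h hf.ne
    · rfl
  have hG : ∀ j u v, T u → T v → (S.Adj u v ↔ G.Adj (t j u) (t j v)) := by
    rintro j u v (rfl | rfl) (rfl | rfl)
    · exact ⟨fun h => absurd rfl h.ne, fun h => absurd rfl h.ne⟩
    · rw [htx, hta]
      exact ⟨fun _ => hf.symm, fun _ => hxa⟩
    · rw [htx, hta]
      exact ⟨fun _ => hf, fun _ => hxa.symm⟩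
    · exact ⟨fun h => absurd rfl h.ne, fun h => absurd rfl h.ne⟩
  have hTx : T x := Or.inl rfl
  have hTa : T a' := Or.inr rfl
  have hTb : ¬ T b' := by
    rintro (h | h)
    · exact hxb.ne h.symm
    · exact hab h.symm
  obtain ⟨cl, hcl1, hcl2⟩ : ∃ cl : W ⊕ (Unit × U) → Bool,
      (∀ x y, (Att G S T t ht).Adj x y → cl x ≠ cl y) ∧
      (cl (Sum.inl e₁) == cl (Sum.inl f₁)) = γ := by
    obtain ⟨cl, h4, h5⟩ := Att_bip (G := G) (S := S) (T := T) (t := t) ht cl₀ hc1 cl₁ hc3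
      (fun _ => xor (cl₁ x) (cl₀ f₂)) (by
        have h6 := hc1 _ _ hf
        have h7 := hc3 _ _ hxa
        rintro j u (rfl | rfl)
        · rw [htx]
          cases cl₁ u <;> cases cl₀ f₂ <;> rfl
        · rw [hta]
          revert h6 h7
          cases cl₁ x <;> cases cl₁ u <;> cases cl₀ f₁ <;> cases cl₀ f₂ <;> decide)
    exact ⟨cl, h4, by rw [h5, h5, hc2]⟩
  let m := min (ℓ f₁) (ℓ f₂)
  let L : W ⊕ (Unit × U) → ℕ := Sum.elim ℓ (fun _ => m + 1)
  have hL1 : ∀ u, L (Sum.inl u) = ℓ u := fun u => rfl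
  have hL2 : ∀ p, L (Sum.inr p) = m + 1 := fun p => rfl
  have hf12 := hℓ _ _ hf
  have hf21 := hℓ _ _ hf.symm
  have hm1 : m ≤ ℓ f₁ := min_le_left _ _
  have hm2 : m ≤ ℓ f₂ := min_le_right _ _
  have hm3 : ℓ f₁ ≤ m + 1 := by
    show ℓ f₁ ≤ min (ℓ f₁) (ℓ f₂) + 1
    omega
  have hm4 : ℓ f₂ ≤ m + 1 := by
    show ℓ f₂ ≤ min (ℓ f₁) (ℓ f₂) + 1
    omega
  have hLia : ∀ j u, m ≤ L (ia T t j u) ∧ L (ia T t j u) ≤ m + 1 := by
    intro j u
    by_cases hu : T u
    · rw [ia_pos hu, hL1]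
      rcases hu with rfl | rfl
      · rw [htx]
        exact ⟨hm2, hm4⟩
      · rw [hta]
        exact ⟨hm1, hm3⟩
    · rw [ia_neg hu, hL2]
      omega
  -- copies of a cross-connected graph lie in the base
  have hbase : ∀ (n : ℕ) (E : SimpleGraph (Fin n)) (hE : TC True E) (σ : Bool)
      (c : W → W → Bool) (d : U → U → Bool) (C : W ⊕ (Unit × U) → W ⊕ (Unit × U) → Bool),
      (∀ g, ¬ Mono G c E σ g) → (∀ g, ¬ Mono S d E σ g) →
      (∀ u v, C (Sum.inl u) (Sum.inl v) = c u v) →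
      (∀ u v, S.Adj u v → C (ia T t () u) (ia T t () v) = d u v) →
      ∀ f, ¬ Mono (Att G S T t ht) C E σ f := by
    rintro n E hE σ c d C hGc hSd hC2 hC3 f ⟨hfi, hmono⟩
    have hb : ∀ i, ∃ w, f i = Sum.inl w := by
      intro i0
      rcases hi0 : f i0 with w | ⟨j, u⟩
      · exact ⟨w, rfl⟩
      · exfalso
        obtain ⟨k, hik⟩ := hE.nbr i0
        have h3 := (hmono i0 k hik).1
        rw [hi0] at h3
        have hTu := Att_private_not ht h3
        have hall := hE.sepf f hfi (Sum.inl f₂) (Sum.inl f₁) (fun _ =>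
            ⟨cl, fun x y hxy => hcl1 _ _ (hmono x y hxy).1,
              hcl1 _ _ (Att_base (S := S) ht hf.symm)⟩)
          (fun i => ∃ v, ¬ T v ∧ f i = Sum.inr (j, v))
          ⟨i0, by rw [hi0]; simp, by rw [hi0]; simp, u, hTu, hi0⟩ (by
            rintro p q hq1 hq2 hpq ⟨v, hv, hp⟩
            have h3 := (hmono p q hpq).1
            rw [hp] at h3
            obtain ⟨v', _, hv'⟩ := Att_private ht h3
            by_cases hT : T v'
            · exfalso
              rw [ia_pos hT] at hv'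
              rcases hT with rfl | rfl
              · rw [htx] at hv'
                exact hq1 hv'
              · rw [hta] at hv'
                exact hq2 hv'
            · exact ⟨v', hT, by rw [hv', ia_neg hT]⟩)
        have hin : ∀ i, ∃ v, ia T t () v = f i := by
          intro i
          by_cases c1 : f i = Sum.inl f₂
          · exact ⟨x, by rw [ia_pos hTx, htx, c1]⟩
          · by_cases c2 : f i = Sum.inl f₁
            · exact ⟨a', by rw [ia_pos hTa, hta, c2]⟩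
            · obtain ⟨v, hv, hi⟩ := hall i c1 c2
              exact ⟨v, by rw [ia_neg hv, hi]⟩
        choose g hg using hin
        refine hSd g ⟨fun p q h => hfi (by rw [← hg, ← hg, h]), fun p q hpq => ?_⟩
        obtain ⟨k1, k2⟩ := hmono p q hpq
        rw [← hg, ← hg] at k1 k2
        have k3 := Att_piece_ind ht hG k1
        exact ⟨k3, by rw [← hC3 _ _ k3, k2]⟩
    choose g hg using hb
    refine hGc g ⟨fun p q h => hfi (by rw [hg, hg, h]), fun p q hpq => ?_⟩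
    obtain ⟨k1, k2⟩ := hmono p q hpq
    rw [hg, hg] at k1 k2
    exact ⟨Att_base_ind ht hG k1, by rw [← hC2, k2]⟩
  refine ⟨W ⊕ (Unit × U), inferInstance, Att G S T t ht, Sum.inl e₁, Sum.inl e₂, Sum.inl f₂,
    Sum.inr ((), b'), L, ?_, ?_, ?_, ?_, ?_, ?_, ?_, ?_, ?_, ?_⟩
  · rintro _ _ (⟨u, v, h, rfl, rfl⟩ | ⟨j, u, v, h, rfl, rfl⟩)
    · exact hℓ u v h
    · have h1 := (hLia j u).1
      have h2 := (hLia j v).2
      omega
  · exact Att_base ht he
  · have := Att_piece (G := G) (T := T) (t := t) ht (j := ()) hxb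
    rw [ia_pos hTx, ia_neg hTb, htx] at this
    exact this
  · exact hℓ1
  · exact hℓ2
  · exact hℓ4
  · rw [hL2]
    have : min α β ≤ min (ℓ f₁) (ℓ f₂) := min_le_min hℓ3 hℓ4
    show min α β + 1 ≤ min (ℓ f₁) (ℓ f₂) + 1
    omega
  · refine ⟨cl, hcl1, ?_⟩
    have h3 := hcl1 _ _ (Att_base (S := S) ht hf)
    rw [← hcl2]
    revert h3
    cases cl (Sum.inl e₁) <;> cases cl (Sum.inl f₁) <;> cases cl (Sum.inl f₂) <;> decide
  · -- good colourings
    rintro p q ⟨y, hpy, hyq⟩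
    obtain ⟨c, hcg, hce, hcf⟩ := hreal p y hpy
    obtain ⟨d, hdg, hda, hdb⟩ := hreal2 y q hyq
    obtain ⟨C, hC1, hC2, hC3⟩ := Att_colour (S := S) (T := T) (t := t) ht c hcg.symm
      (fun _ => d) (fun _ => hdg.symm) (by
        rintro j u v (rfl | rfl) (rfl | rfl) h
        · exact absurd rfl h.ne
        · show d u v = _
          rw [htx, hta, hda, hcg.symm, hcf]
        · show d u v = _
          rw [htx, hta, hdg.symm, hda, hcf]
        · exact absurd rfl h.ne)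
    refine ⟨C, ⟨hC1, hbase a A hA true c d C hcg.red hdg.red hC2 (fun u v h => hC3 () u v h),
      hbase b B hB false c d C hcg.blue hdg.blue hC2 (fun u v h => hC3 () u v h)⟩, ?_, ?_⟩
    · rw [hC2, hce]
    · have k := hC3 () x b' hxb
      rw [ia_pos hTx, ia_neg hTb, htx] at k
      rw [k, hdb]
  · intro C hCg
    have k1 := hforce (fun u v => C (Sum.inl u) (Sum.inl v))
      (hCg.comap Sum.inl Sum.inl_injective (fun u v h => Att_base ht h))
    have k2 := hforce2 (fun u v => C (ia T t () u) (ia T t () v))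
      (hCg.comap (ia T t ()) (ia_inj ht ()) (fun u v h => Att_piece ht h))
    simp only [ia_pos hTx, ia_pos hTa, ia_neg hTb, htx, hta] at k2
    rw [hCg.symm (Sum.inl f₂) (Sum.inl f₁)] at k2
    exact ⟨_, k1, k2⟩

theorem LS2.mono {a b : ℕ} {A : SimpleGraph (Fin a)} {B : SimpleGraph (Fin b)}
    {P Rz P' Rz' : Bool → Bool → Prop} {γ : Bool} {α β : ℕ} (h : LS2 A B P Rz γ α β)
    (hP : ∀ x y, P x y → P' x y) (hR : ∀ x y, Rz' x y → Rz x y) : LS2 A B P' Rz' γ α β := by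
  obtain ⟨W, hW, G, e₁, e₂, f₁, f₂, ℓ, hℓ, he, hf, hℓ1, hℓ2, hℓ3, hℓ4, hcl, hreal,
    hforce⟩ := h
  exact ⟨W, hW, G, e₁, e₂, f₁, f₂, ℓ, hℓ, he, hf, hℓ1, hℓ2, hℓ3, hℓ4, hcl,
    fun x y h => hreal x y (hR x y h), fun c hc => hP _ _ (hforce c hc)⟩

/-- Two steps with a relation that composes to a smaller relation. -/
theorem LS2_long {a b : ℕ} (A : SimpleGraph (Fin a)) (B : SimpleGraph (Fin b))
    (hA : TC True A) (hB : TC True B) {P Rz Q : Bool → Bool → Prop} (h2 : AdjS A B P Rz)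
    (hQ0 : ∀ x, Q x x) (hQ : ∀ w x y z, Q w x → P x y → P y z → Q w z)
    (hR : ∀ x, ∃ y, Rz x y ∧ Rz y x) (k : ℕ) : LS2 A B Q (fun x y => x = y) true k k := by
  induction k with
  | zero =>
    refine (LS2_zero A B hA hB).mono (fun x y h => ?_) (fun x y h => h)
    subst h
    exact hQ0 x
  | succ k ih =>
    have h1 := LS2_succ A B hA hB (LS2_succ A B hA hB ih h2) h2
    rw [min_self, min_eq_left (Nat.le_succ k), Bool.not_not] at h1
    refine h1.mono ?_ ?_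
    · rintro x z ⟨y, ⟨w, h3, h4⟩, h5⟩
      exact hQ x w y z h3 h4 h5
    · rintro x z rfl
      obtain ⟨y, h3, h4⟩ := hR x
      exact ⟨y, ⟨x, rfl, h3⟩, h4⟩

theorem ch2_proof : Ch2Statement := by
  intro a b A B hA hB h k
  have h1 : LS2 A B (fun x y => x = true → y = true) (fun x y => x = y) true k k := by
    rcases h with h | h
    · exact LS2_long A B hA hB (Q := fun x y => x = true → y = true) h (fun x h => h)
        (fun w x y z h1 h2 h3 h4 => h3 (h2 (h1 h4))) (fun x => ⟨x, rfl, rfl⟩) k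
    · refine LS2_long A B hA hB (Q := fun x y => x = true → y = true) h (fun x h => h)
        (fun w x y z h1 h2 h3 h4 => ?_) (fun x => ⟨!x, ?_, ?_⟩) k
      · have h5 := h1 h4
        subst h5
        revert h2 h3
        cases y <;> cases z <;> decide
      · cases x <;> decide
      · cases x <;> decide
  obtain ⟨W, hW, G, e₁, e₂, f₁, f₂, ℓ, hℓ, he, hf, hℓ1, hℓ2, hℓ3, hℓ4, ⟨cl, hcl1, hcl2⟩,
    hreal, hforce⟩ := h1
  obtain ⟨c, hc, hce, hcf⟩ := hreal false false rfl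
  exact ⟨W, hW, G, e₁, e₂, f₁, f₂, ℓ, hℓ, he, hf, hℓ1, hℓ2, hℓ3, hℓ4,
    ⟨cl, hcl1, by simpa using hcl2⟩, ⟨c, hc, hce, hcf⟩, hforce⟩

end MP3240E
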