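import Pool.Agent.Lib.MP_3240be_co.D62.Defs
import Pool.Agent.Lib.MP_3240be_co.S62.Dat

/-!
# MP_3240be_co, row DA2: the data for all maximal large block types (compare S62/Dat.lean)
-/

set_option autoImplicit false

namespace MP3240E

open Finset
open MP3240L
open MP3240G
open MP3240Q (Sub SG)
open MP3240S (DB SB Dt Mdl dat_sub dat_big dat_ncard dat_iso dat_mdl)

theorem da2_proof : Da2Statement := by
  classical
  intro n H κ hH hκ hcyc
  obtain ⟨S1, h1⟩ := exists_large κ hcyc
  have h2 : 2 ≤ small κ S1 := by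
    unfold small
    exact le_min (small_two hκ h1.1.1 true) (small_two hκ h1.1.1 false)
  obtain ⟨h, hh, hh1⟩ : ∃ h, small κ S1 = h + 1 ∧ 1 ≤ h :=
    ⟨small κ S1 - 1, by omega, by omega⟩
  have hiff := large_iff h1 hh
  have hmax : ∀ S, IsBlock H S → small κ S ≤ h + 1 := fun S hS => hh ▸ h1.2 S hS
  have hfin : (fam H κ h).Finite := by
    refine (Set.finite_range (fun S : Finset (Fin n) => gr H S)).subset ?_
    rintro x ⟨S, _, rfl⟩
    exact ⟨S, rfl⟩
  have hto : ∀ T : Set (Fin n), (T.toFinset : Set (Fin n)) = T := fun T => Set.coe_toFinset T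
  refine ⟨h, {x | ∃ S, small κ S ≤ h ∧ x = gr H S}, hh1, hfin,
    ⟨gr H S1, S1, (hiff S1).1 h1, rfl⟩, hmax, ?_, ?_, ?_, ?_, ?_⟩
  · rintro x ⟨S, hS, rfl⟩
    exact big_gr hκ hS
  · refine (Set.finite_range (fun S : Finset (Fin n) => gr H S)).subset ?_
    rintro x ⟨S, _, rfl⟩
    exact ⟨S, rfl⟩
  · rintro x ⟨S, hs, rfl⟩
    exact tiny_gr hκ hs
  · rintro x hx
    obtain ⟨S, hS, rfl⟩ := hx.1
    -- blocks that contain `D`
    have hDB : ∀ T, DB H (gr H S).2 T → Bg H κ h T.toFinset ∧
        Sub (gr H S).2 (gr H T.toFinset).2 := by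
      rintro T ⟨hT, hsub⟩
      have h3 := (dat_sub (hto T)).1 hsub
      obtain ⟨f, hf, _⟩ := h3
      have h4 : S.card ≤ T.toFinset.card := by
        have := Fintype.card_le_of_injective f hf
        rwa [Fintype.card_fin, Fintype.card_fin] at this
      have h5 : IsBlock H T.toFinset := mx_isBlock (by rw [hto]; exact hT) (hS.1.1.three.trans h4)
      refine ⟨⟨h5, le_antisymm (hmax _ h5) ?_⟩, (dat_sub (hto T)).1 hsub⟩
      unfold small
      refine le_min ?_ ?_
      · rw [← dat_ncard κ T _ (hto T)]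
        exact dat_big hκ hS hsub _
      · rw [← dat_ncard κ T _ (hto T)]
        exact dat_big hκ hS hsub _
    refine ⟨hH, hκ, hh1, twoCn_gr hS.1.1, ⟨(S : Set (Fin n)), isBlock_mx hS.1, ?_⟩, ?_, ?_, ?_⟩
    · exact (dat_sub rfl).2 ⟨id, Function.injective_id, fun _ _ h => h⟩
    · intro T hT
      obtain ⟨h3, h4⟩ := hDB T hT
      have h5 : Sub (gr H T.toFinset).2 (gr H S).2 := hx.2 _ ⟨_, h3, rfl⟩ h4
      obtain ⟨f, hf, hfa⟩ := dat_iso h4 h5
      refine ⟨fun i => emb T.toFinset (f i), (emb _).injective.comp hf.1, ?_, ?_⟩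
      · refine Set.Subset.antisymm ?_ ?_
        · rintro _ ⟨i, rfl⟩
          exact Set.mem_toFinset.1 (emb_mem T.toFinset (f i))
        · intro x hx
          obtain ⟨i, hi⟩ := emb_surj (Set.mem_toFinset.2 hx)
          obtain ⟨j, hj⟩ := hf.2 i
          exact ⟨j, (congrArg (emb T.toFinset) hj).trans hi⟩
      · intro i j
        exact hfa i j
    · intro T hT s
      exact dat_big hκ hS hT.2 s
    · intro T hT
      by_cases h3 : 3 ≤ T.toFinset.card
      · have h4 := hmax _ (mx_isBlock (by rw [hto]; exact hT) h3)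
        unfold small at h4
        rcases min_le_iff.1 h4 with h5 | h5
        · exact ⟨true, by rw [dat_ncard κ T _ (hto T)]; exact h5⟩
        · exact ⟨false, by rw [dat_ncard κ T _ (hto T)]; exact h5⟩
      · refine ⟨true, ?_⟩
        rw [dat_ncard κ T _ (hto T)]
        have h4 := Finset.card_filter_le T.toFinset (fun v => κ v = true)
        omega
  · rintro D T hD ⟨hT, hsub⟩
    refine ⟨gr H T.toFinset, ?_, dat_mdl H (hto T)⟩
    by_cases h3 : Bg H κ h T.toFinset
    · right
      exact ⟨⟨_, h3, rfl⟩, fun h4 => hsub ((dat_sub (hto T)).2 h4)⟩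
    · left
      refine ⟨_, ?_, rfl⟩
      by_cases h4 : 3 ≤ T.toFinset.card
      · have h5 := mx_isBlock (by rw [hto]; exact hT) h4
        have h6 := hmax _ h5
        have h7 : small κ T.toFinset ≠ h + 1 := fun h8 => h3 ⟨h5, h8⟩
        omega
      · have h5 : (T.toFinset.filter (fun v => κ v = true)).card +
            (T.toFinset.filter (fun v => κ v = false)).card = T.toFinset.card := by
          rw [← Finset.card_filter_add_card_filter_not (s := T.toFinset) (fun v => κ v = true)]
          congr 2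
          ext v
          simp
        unfold small
        omega

end MP3240E
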