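import Pool.Agent.Lib.MP_3240be_co.S62.Defs
import Pool.Agent.Lib.MP_3240be_co.H82.Attach

/-!
# MP_3240be_co: determiners for two cross-connected bipartite graphs, several types

Interface (board t3d_modules, helper62).
-/

set_option autoImplicit false

namespace MP3240E

open Finset
open MP3240L (Two MxTwo Cl Branch gr fam)
open MP3240G (TwoCn Bi Big Tiny Nc IsNc Mx Fam Blobbed Prs)
open MP3240Q (Mono Bip SG Sub em Gl Lin Hang)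
open MP3240S (DB SB Gr GSt Mdl Dt RR Num Star Full RBase BBase)
open Pool.Agent.Lib.MP_3240be_co.H82 (TC Sparse1 Linear)
open Pool.Agent.Lib.MP_3240be_co.H36.Chrom (Sparse ArrowsT)

/-! ## Good colourings and determiners -/

/-- No red (`true`) copy of `A` and no blue copy of `B`. -/
structure G2 {a b : ℕ} (A : SimpleGraph (Fin a)) (B : SimpleGraph (Fin b)) {W : Type}
    (G : SimpleGraph W) (c : W → W → Bool) : Prop where
  symm : ∀ x y, c x y = c y x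
  red : ∀ f : Fin a → W, ¬ Mono G c A true f
  blue : ∀ f : Fin b → W, ¬ Mono G c B false f

/-- Determiner: a bipartite graph with an edge that has colour `σ` in all good colourings. -/
def Det {a b : ℕ} (A : SimpleGraph (Fin a)) (B : SimpleGraph (Fin b)) (σ : Bool) : Prop :=
  ∃ (W : Type) (_ : Finite W) (G : SimpleGraph W) (e₁ e₂ : W), G.Adj e₁ e₂ ∧ Bip G ∧
    (∃ c, G2 A B G c) ∧ ∀ c, G2 A B G c → c e₁ e₂ = σ

/-- Two edges `x a'`, `x b'` with the relation `P` in all good colourings; the patterns in `Rz`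
are realized. -/
def AdjS {a b : ℕ} (A : SimpleGraph (Fin a)) (B : SimpleGraph (Fin b))
    (P Rz : Bool → Bool → Prop) : Prop :=
  ∃ (W : Type) (_ : Finite W) (G : SimpleGraph W) (x a' b' : W), a' ≠ b' ∧ G.Adj x a' ∧
    G.Adj x b' ∧ Bip G ∧ (∀ c, G2 A B G c → P (c x a') (c x b')) ∧
    ∀ α β, Rz α β → ∃ c, G2 A B G c ∧ c x a' = α ∧ c x b' = β

/-- Long implication senders: `e₁ e₂` red implies `f₁ f₂` red; both can be blue. -/
def LSI {a b : ℕ} (A : SimpleGraph (Fin a)) (B : SimpleGraph (Fin b)) (k : ℕ) : Prop :=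
  ∃ (W : Type) (_ : Finite W) (G : SimpleGraph W) (e₁ e₂ f₁ f₂ : W) (ℓ : W → ℕ),
    (∀ u v, G.Adj u v → ℓ v ≤ ℓ u + 1) ∧ G.Adj e₁ e₂ ∧ G.Adj f₁ f₂ ∧ ℓ e₁ = 0 ∧ ℓ e₂ = 0 ∧
    k ≤ ℓ f₁ ∧ k ≤ ℓ f₂ ∧
    (∃ cl : W → Bool, (∀ x y, G.Adj x y → cl x ≠ cl y) ∧ cl e₁ = cl f₁) ∧
    (∃ c, G2 A B G c ∧ c e₁ e₂ = false ∧ c f₁ f₂ = false) ∧
    ∀ c, G2 A B G c → c e₁ e₂ = true → c f₁ f₂ = true

/-- Row RE2: the relation lemma without complements.  Take a flip (`H82.exists_flip`): `c` in `R`,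
`c` with the value at `i` changed not in `R`; identify the other coordinates with value 1 with
each other, those with value 0 with each other; then identify `i` with the class of the other
value, or use that this has no solution. -/
def Re2Statement : Prop :=
  ∀ (T : Type) [Finite T] (R : (T → Bool) → Prop), (∃ p, R p) → (∃ p, ¬ R p) →
    ∃ r : T → T, (∀ t, r (r t) = r t) ∧ (∃ p : T → Bool, R (fun t => p (r t))) ∧
      ((∃ (u : T) (b : Bool), ∀ p : T → Bool, R (fun t => p (r t)) → p (r u) = b) ∨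
       (∃ u v : T, r u ≠ r v ∧
        (∀ p : T → Bool, R (fun t => p (r t)) → p (r u) = true → p (r v) = true) ∧
        (∃ p : T → Bool, R (fun t => p (r t)) ∧ p (r u) = true ∧ p (r v) = true) ∧
        ∃ p : T → Bool, R (fun t => p (r t)) ∧ p (r u) = false ∧ p (r v) = false) ∨
       (∃ u v : T, r u ≠ r v ∧ (∀ p : T → Bool, R (fun t => p (r t)) → p (r u) ≠ p (r v)) ∧
        (∃ p : T → Bool, R (fun t => p (r t)) ∧ p (r u) = true) ∧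
        ∃ p : T → Bool, R (fun t => p (r t)) ∧ p (r u) = false))

/-- Row FR2 (from RE2; compare `H82.forced`). -/
def Fr2Statement : Prop :=
  ∀ (T : Type) [Finite T] (ρ : (T → Bool) → Prop), (∃ p, ρ p) → (∀ b, ¬ ρ (fun _ => b)) →
    ∀ g : ℕ, ∃ (V M : Type) (_ : Finite V) (_ : Finite M) (δ : M → T → V),
      (∀ m, Function.Injective (δ m)) ∧ Sparse1 g δ ∧ Linear δ ∧
      (∃ s : V → Bool, ∀ m, ρ (fun t => s (δ m t))) ∧
      ((∃ (a : V) (b : Bool), ∀ s : V → Bool, (∀ m, ρ (fun t => s (δ m t))) → s a = b) ∨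
       (∃ a b : V, a ≠ b ∧
        (∀ s : V → Bool, (∀ m, ρ (fun t => s (δ m t))) → s a = true → s b = true) ∧
        (∃ s : V → Bool, (∀ m, ρ (fun t => s (δ m t))) ∧ s a = true ∧ s b = true) ∧
        ∃ s : V → Bool, (∀ m, ρ (fun t => s (δ m t))) ∧ s a = false ∧ s b = false) ∨
       (∃ a b : V, a ≠ b ∧ (∀ s : V → Bool, (∀ m, ρ (fun t => s (δ m t))) → s a ≠ s b) ∧
        (∃ s : V → Bool, (∀ m, ρ (fun t => s (δ m t))) ∧ s a = true) ∧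
        ∃ s : V → Bool, (∀ m, ρ (fun t => s (δ m t))) ∧ s a = false))

/-- The star relation of the pair `A`, `B` (compare `H82.srho`). -/
def srho2 {a b : ℕ} (A : SimpleGraph (Fin a)) (B : SimpleGraph (Fin b)) {N : ℕ}
    (Bs : SimpleGraph (Fin N)) (Tp : Fin N → Prop) (q : {i : Fin N // Tp i} → Bool) : Prop :=
  ∃ c, G2 A B (Pool.Agent.Lib.MP_3240be_co.H82.SG Bs Tp) c ∧ ∀ t, c none (some t.1) = q t

/-- Row SR2 (compare `H82.exists_srho`): `k_r`, `k_b` = the largest constant red and blue star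
that extends; `K` = the maximum plus one. -/
def Sr2Statement : Prop :=
  ∀ (a b : ℕ) (A : SimpleGraph (Fin a)) (B : SimpleGraph (Fin b)), TC True A → TC True B →
    ∃ (N : ℕ) (Bs : SimpleGraph (Fin N)) (Tp : Fin N → Prop),
      (∃ cl : Fin N → Bool, (∀ i j, Bs.Adj i j → cl i ≠ cl j) ∧ ∀ i, Tp i → cl i = true) ∧
      (∃ q, srho2 A B Bs Tp q) ∧ ∀ σ, ¬ srho2 A B Bs Tp (fun _ => σ)

/-- Row ST2 (from FR2, SR2; compare `H82.exists_adj`, uses `H82.one_piece`). -/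
def St2Statement : Prop :=
  ∀ (a b : ℕ) (A : SimpleGraph (Fin a)) (B : SimpleGraph (Fin b)), TC True A → TC True B →
    (∃ σ, Det A B σ) ∨ AdjS A B (fun α β => α = true → β = true) (fun α β => α = β) ∨
      AdjS A B (fun α β => α ≠ β) (fun α β => α ≠ β)

/-- Row CH2 (compare `H82.LS_succ`, `H82.exists_long`): chains of adjacent senders. -/
def Ch2Statement : Prop :=
  ∀ (a b : ℕ) (A : SimpleGraph (Fin a)) (B : SimpleGraph (Fin b)), TC True A → TC True B →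
    (AdjS A B (fun α β => α = true → β = true) (fun α β => α = β) ∨
      AdjS A B (fun α β => α ≠ β) (fun α β => α ≠ β)) → ∀ k, LSI A B k

/-- Row GLE: gluing bipartite pieces along edges.  Crossing: a cross-connected graph lies in the
base or in one piece (classes of the two glued vertices differ because the piece is bipartite,
see S62/At2.lean). -/
def GleStatement : Prop :=
  ∀ (W J : Type) [Finite W] [Finite J] (G : SimpleGraph W) (U : J → Type) [∀ j, Finite (U j)]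
    (S : ∀ j, SimpleGraph (U j)) (e₁ e₂ : ∀ j, U j) (p₁ p₂ : J → W),
    (∀ j, (S j).Adj (e₁ j) (e₂ j)) → (∀ j, Bip (S j)) → (∀ j, G.Adj (p₁ j) (p₂ j)) →
    ∃ (V : Type) (_ : Finite V) (F : SimpleGraph V) (ι : W → V) (ι' : ∀ j, U j → V),
      Function.Injective ι ∧ (∀ j, Function.Injective (ι' j)) ∧
      (∀ j, ι' j (e₁ j) = ι (p₁ j) ∧ ι' j (e₂ j) = ι (p₂ j)) ∧
      (∀ u v, F.Adj (ι u) (ι v) ↔ G.Adj u v) ∧
      (∀ j u v, F.Adj (ι' j u) (ι' j v) ↔ (S j).Adj u v) ∧ (Bip G → Bip F) ∧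
      (∀ u w, F.Adj (ι u) w → (∃ v, w = ι v) ∨ ∃ j, u = p₁ j ∨ u = p₂ j) ∧
      (∀ j u w, ι' j u = ι w → w = p₁ j ∨ w = p₂ j) ∧
      (∀ (c : W → W → Bool) (d : ∀ j, U j → U j → Bool), (∀ x y, c x y = c y x) →
        (∀ j x y, d j x y = d j y x) → (∀ j, d j (e₁ j) (e₂ j) = c (p₁ j) (p₂ j)) →
        ∃ C : V → V → Bool, (∀ x y, C x y = C y x) ∧ (∀ u v, C (ι u) (ι v) = c u v) ∧
          ∀ j u v, (S j).Adj u v → C (ι' j u) (ι' j v) = d j u v) ∧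
      ∀ (n : ℕ) (E : SimpleGraph (Fin n)), TC True E → ∀ f : Fin n → V, Function.Injective f →
        (∀ i j, E.Adj i j → F.Adj (f i) (f j)) →
        (∀ i, ∃ w, f i = ι w) ∨ ∃ j, ∀ i, ∃ u, f i = ι' j u

/-- Row GLS: gluing long bipartite pieces between two edges (compare S62/At2.lean). -/
def GlsStatement : Prop :=
  ∀ (K : ℕ) (W J U : Type) [Finite W] [Finite J] [Finite U] (G : SimpleGraph W)
    (S : SimpleGraph U) (e₁ e₂ f₁ f₂ : U) (ℓ : U → ℕ), (∀ u v, S.Adj u v → ℓ v ≤ ℓ u + 1) →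
    S.Adj e₁ e₂ → S.Adj f₁ f₂ → ℓ e₁ = 0 → ℓ e₂ = 0 → K + 2 ≤ ℓ f₁ → K + 2 ≤ ℓ f₂ →
    (∃ cl : U → Bool, (∀ u v, S.Adj u v → cl u ≠ cl v) ∧ cl e₁ = cl f₁) →
    ∀ (p₁ p₂ q₁ q₂ : J → W), (∀ j, G.Adj (p₁ j) (p₂ j)) → (∀ j, G.Adj (q₁ j) (q₂ j)) →
    (∀ j, p₁ j ≠ q₁ j ∧ p₁ j ≠ q₂ j ∧ p₂ j ≠ q₁ j ∧ p₂ j ≠ q₂ j) →
    (∀ j, ¬ G.Adj (p₁ j) (q₁ j) ∧ ¬ G.Adj (p₁ j) (q₂ j) ∧ ¬ G.Adj (p₂ j) (q₁ j) ∧
      ¬ G.Adj (p₂ j) (q₂ j)) →
    ∃ (V : Type) (_ : Finite V) (F : SimpleGraph V) (ι : W → V) (ι' : J → U → V),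
      Function.Injective ι ∧ (∀ j, Function.Injective (ι' j)) ∧
      (∀ j, ι' j e₁ = ι (p₁ j) ∧ ι' j e₂ = ι (p₂ j) ∧ ι' j f₁ = ι (q₁ j) ∧
        ι' j f₂ = ι (q₂ j)) ∧
      (∀ u v, F.Adj (ι u) (ι v) ↔ G.Adj u v) ∧
      (∀ j u v, F.Adj (ι' j u) (ι' j v) ↔ S.Adj u v) ∧
      ((∃ cl : W → Bool, (∀ x y, G.Adj x y → cl x ≠ cl y) ∧ ∀ j, cl (p₁ j) = cl (q₁ j)) →
        Bip F) ∧
      (∀ (c : W → W → Bool) (d : J → U → U → Bool), (∀ x y, c x y = c y x) →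
        (∀ j x y, d j x y = d j y x) → (∀ j, d j e₁ e₂ = c (p₁ j) (p₂ j)) →
        (∀ j, d j f₁ f₂ = c (q₁ j) (q₂ j)) →
        ∃ C : V → V → Bool, (∀ x y, C x y = C y x) ∧ (∀ u v, C (ι u) (ι v) = c u v) ∧
          ∀ j u v, S.Adj u v → C (ι' j u) (ι' j v) = d j u v) ∧
      ∀ (n : ℕ) (E : SimpleGraph (Fin n)), TC True E → n ≤ K → ∀ f : Fin n → V,
        Function.Injective f → (∀ i j, E.Adj i j → F.Adj (f i) (f j)) →
        (∀ i, ∃ w, f i = ι w) ∨ ∃ j, ∀ i, ∃ u, f i = ι' j u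

/-- Row DT1 (from GLS): a copy of `A` whose edges are red if `e` is red forces `e` to be
blue. -/
def Dt1Statement : Prop :=
  ∀ (a b : ℕ) (A : SimpleGraph (Fin a)) (B : SimpleGraph (Fin b)), TC True A → TC True B →
    ¬ Sub B A → (∀ k, LSI A B k) → Det A B false

/-- Row DT2 (from GLE): all edges but one of `B` forced to be blue (of `A`: red) force the last
edge to be red (blue). -/
def Dt2Statement : Prop :=
  ∀ (a b : ℕ) (A : SimpleGraph (Fin a)) (B : SimpleGraph (Fin b)), TC True A → TC True B →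
    ∀ σ, Det A B σ → Det A B (!σ)

/-- Row DET (from ST2, CH2, DT1, DT2). -/
def DetStatement : Prop :=
  ∀ (a b : ℕ) (A : SimpleGraph (Fin a)) (B : SimpleGraph (Fin b)), TC True A → TC True B →
    ¬ Sub B A → ∀ σ, Det A B σ

/-- Row ATD (from GLE): attaching determiners. -/
def AtdStatement : Prop :=
  ∀ (a b : ℕ) (A : SimpleGraph (Fin a)) (B : SimpleGraph (Fin b)), TC True A → TC True B →
    (∀ σ, Det A B σ) → ∀ (W J : Type) [Finite W] [Finite J] (G : SimpleGraph W)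
      (Z : W → Prop) (p₁ p₂ : J → W) (τ : J → Bool), (∀ j, G.Adj (p₁ j) (p₂ j)) →
    (∀ j, ¬ Z (p₁ j) ∧ ¬ Z (p₂ j)) →
    ∃ (V : Type) (_ : Finite V) (F : SimpleGraph V) (ι : W → V), Function.Injective ι ∧
      (∀ u v, F.Adj (ι u) (ι v) ↔ G.Adj u v) ∧
      (∀ C : V → V → Bool, (∀ x y, C x y = C y x) →
        (∀ f : Fin a → V, Mono F C A true f → ∃ i z, Z z ∧ f i = ι z) →
        (∀ f : Fin b → V, Mono F C B false f → ∃ i z, Z z ∧ f i = ι z) →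
        ∀ j, C (ι (p₁ j)) (ι (p₂ j)) = τ j) ∧
      (∀ c : W → W → Bool, (∀ x y, c x y = c y x) → (∀ j, c (p₁ j) (p₂ j) = τ j) →
        ∃ C : V → V → Bool, (∀ x y, C x y = C y x) ∧ (∀ u v, C (ι u) (ι v) = c u v) ∧
          (∀ f : Fin a → V, Mono F C A true f → ∀ i, ∃ w, f i = ι w) ∧
          ∀ f : Fin b → V, Mono F C B false f → ∀ i, ∃ w, f i = ι w) ∧
      (∀ u w, F.Adj (ι u) w → (∃ v, w = ι v) ∨ ∃ j, u = p₁ j ∨ u = p₂ j)

/-! ## Ramsey graphs of pairs -/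

/-- `Γ` arrows the pair `U` (red), `V` (blue). -/
def Arr2 (U V : SG) {X : Type} (Γ : SimpleGraph X) : Prop :=
  ∀ C : X → X → Bool, (∀ x y, C x y = C y x) →
    (∃ f, Mono Γ C U.2 true f) ∨ ∃ f, Mono Γ C V.2 false f

/-- Every Ramsey graph of the first pair is a Ramsey graph of the second pair. -/
def Le2 (U V U' V' : SG) : Prop :=
  ∀ (X : Type) (_ : Finite X) (Γ : SimpleGraph X), Arr2 U V Γ → Arr2 U' V' Γ

/-- Row EQ1 (from GLE): pairs with the same Ramsey graphs, different types. -/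
def Eq1Statement : Prop :=
  ∀ (A B U V : SG), TC True A.2 → TC True B.2 → TC True U.2 → TC True V.2 →
    (∀ σ, Det A.2 B.2 σ) → Le2 U V A B → Le2 A B U V →
    (Sub U.2 A.2 ∧ Sub V.2 B.2) ∨ (Sub U.2 B.2 ∧ Sub V.2 A.2)

/-- Row EQ2 (from GLS and `H82.exists_long`): the diagonal pairs. -/
def Eq2Statement : Prop :=
  ∀ (D E : SG), TC True D.2 → TC True E.2 → Le2 E E D D → Le2 D D E E → Sub E.2 D.2

/-- Row SEL (from DET, EQ1, EQ2): `A`, `B` = a pair of maximal cross-connected members whose set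
of Ramsey graphs is minimal. -/
def SelStatement : Prop :=
  ∀ (h : ℕ) (fm : Set SG), 1 ≤ h → fm.Finite → (∀ x ∈ fm, Big h x) →
    (∃ x, Mx fm x ∧ TC True x.2) →
    ∃ A B : SG, Mx fm A ∧ TC True A.2 ∧ Mx fm B ∧ TC True B.2 ∧
      ((A = B ∧ ∀ U V, Mx fm U → TC True U.2 → Mx fm V → TC True V.2 → Le2 U V A A →
          Sub U.2 A.2 ∧ Sub V.2 A.2) ∨
       (¬ Sub A.2 B.2 ∧ ¬ Sub B.2 A.2 ∧ (∀ σ, Det A.2 B.2 σ) ∧
        ∀ U V, Mx fm U → TC True U.2 → Mx fm V → TC True V.2 → Le2 U V A B →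
          (Sub U.2 A.2 ∧ Sub V.2 B.2) ∨ (Sub U.2 B.2 ∧ Sub V.2 A.2)))

/-! ## Killers and gadgets -/

/-- Row KG2 (compare H62/Kgd.lean; the same colouring works for both graphs). -/
def Kg2Statement : Prop :=
  ∀ (h k k' : ℕ) (fm : Set SG) (A : SimpleGraph (Fin k)) (B : SimpleGraph (Fin k'))
    (U : Bool → SG) (E : SG), 1 ≤ h → (∀ x ∈ fm, Big h x) → (⟨k, A⟩ : SG) ∈ fm →
    (⟨k', B⟩ : SG) ∈ fm → ¬ Blobbed fm A → ¬ Blobbed fm B → (∀ c, U c ∈ fm) →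
    (∃ c, IsNc h (U c)) → Bip E.2 → ¬ Sub A E.2 → ¬ Sub B E.2 →
    ∃ (X : Type) (_ : Finite X) (Γ : SimpleGraph X),
      (∃ C : X → X → Bool, (∀ x y, C x y = C y x) ∧ (∀ c f, ¬ Mono Γ C A c f) ∧
        ∀ c f, ¬ Mono Γ C B c f) ∧
      ∀ C : X → X → Bool, (∀ x y, C x y = C y x) →
        (∃ c f, Mono Γ C (U c).2 c f) ∨ ∀ c, ∃ f, Mono Γ C E.2 c f

/-- Row KLA (from KG2, NCD; the choice of the pair): killers for all pairs of maximal members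
except `A`, `B` and `B`, `A`. -/
def KlaStatement : Prop :=
  ∀ (h : ℕ) (fm : Set SG) (A B : SG), 1 ≤ h → fm.Finite → (∀ x ∈ fm, Big h x) →
    Mx fm A → Mx fm B → TC True A.2 → TC True B.2 →
    (∀ U V, Mx fm U → TC True U.2 → Mx fm V → TC True V.2 → Le2 U V A B →
      (Sub U.2 A.2 ∧ Sub V.2 B.2) ∨ (Sub U.2 B.2 ∧ Sub V.2 A.2)) →
    ∀ U V, Mx fm U → Mx fm V →
      ¬ ((Sub U.2 A.2 ∧ Sub V.2 B.2) ∨ (Sub U.2 B.2 ∧ Sub V.2 A.2)) →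
      ∃ (X : Type) (_ : Finite X) (Γ : SimpleGraph X), (∃ C, G2 A.2 B.2 Γ C) ∧ Arr2 U V Γ

/-- Row PTA (compare S62/Ptx.lean; red pieces for `A`, labels for `B`): the pattern without the
controlled graph. -/
def PtaStatement : Prop :=
  ∀ (k k' n m N : ℕ) (fm : Set SG) (A : SimpleGraph (Fin k)) (B : SimpleGraph (Fin k'))
    (𝓡 𝓛 : Set SG), TC True A → TC True B → TwoCn B → (∀ x ∈ fm, Bip x.2) →
    Mx fm ⟨k', B⟩ → ¬ Blobbed fm B → 𝓡.Finite → (∀ x ∈ 𝓡, ¬ Sub A x.2) → 𝓛.Finite →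
    (∀ x ∈ 𝓛, ¬ Sub B x.2) → 1 ≤ n → 1 ≤ N →
    ∃ (Y : Type) (_ : Finite Y) (P : SimpleGraph (Y ⊕ (Fin n × Fin (m + 1))))
      (c₁ : Y ⊕ (Fin n × Fin (m + 1)) → Y ⊕ (Fin n × Fin (m + 1)) → Bool),
      (∀ x y, c₁ x y = c₁ y x) ∧
      (∀ q y, P.Adj (Sum.inr q) y → c₁ (Sum.inr q) y = true →
        q.2 = 0 ∧ ∃ z : Fin n, y = Sum.inr (z, 0)) ∧
      (∀ f : Fin k → Y ⊕ (Fin n × Fin (m + 1)), Mono P c₁ A true f →
        ∃ i q, f i = Sum.inr q) ∧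
      (∀ f : Fin k' → Y ⊕ (Fin n × Fin (m + 1)), Mono P c₁ B false f →
        (∃ z : Fin n, ∀ i q, f i = Sum.inr q → q.1 = z) ∧
          ∀ i j, B.Adj i j → ((∃ q, f i = Sum.inr q) ↔ ¬ ∃ q, f j = Sum.inr q)) ∧
      ∀ (C : Y ⊕ (Fin n × Fin (m + 1)) → Y ⊕ (Fin n × Fin (m + 1)) → Bool)
        (β : Bool → Bool), (∀ x y, C x y = C y x) → β false ≠ β true →
        (∀ d d', P.Adj (Sum.inl d) (Sum.inl d') →
          C (Sum.inl d) (Sum.inl d') = β (c₁ (Sum.inl d) (Sum.inl d'))) →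
        (∃ q, Star A 𝓡 N P C (β true) q) ∨
          ∃ zf : Fin n × Fin (m + 1) → Fin n × Fin (m + 1), Full B 𝓛 N P C (β false) zf

/-- What the gadget of the pair provides (`cr` = the colour that plays red). -/
structure Gda {k k' : ℕ} {L Q : Type} (n m h N : ℕ) (A : SimpleGraph (Fin k))
    (B : SimpleGraph (Fin k')) (𝓡 𝓛 : Set SG) (S : SimpleGraph (L ⊕ Q)) : Prop where
  base : ∃ (C₀ : L ⊕ Q → L ⊕ Q → Bool) (Wt : Type) (wd : Q → Wt),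
    RBase n h h A S C₀ ∅ ∅ ∧ BBase (m + 1) B S C₀ wd
  arr : ∀ C : L ⊕ Q → L ⊕ Q → Bool, (∀ x y, C x y = C y x) → ∀ cr : Bool,
    ¬ Prs S C cr ⟨k, A⟩ → ¬ Prs S C (!cr) ⟨k', B⟩ →
    (∀ x ∈ 𝓡, Prs S C cr x) ∧ (∀ x ∈ 𝓛, Prs S C (!cr) x) ∧
      ((∃ q, Star A 𝓡 N S C cr q) ∨
        ∃ zf : Fin n × Fin (m + 1) → Q, Full B 𝓛 N S C (!cr) zf)

/-- Row PGA (from PTA, ATD; compare S62/Ctx.lean, S62/Pgc.lean): disjoint copies of the members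
of `𝓡` completely red and of the members of `𝓛` completely blue are added; determiners on all
edges between points. -/
def PgaStatement : Prop :=
  ∀ (k k' n m h N : ℕ) (fm : Set SG) (A : SimpleGraph (Fin k)) (B : SimpleGraph (Fin k'))
    (𝓡 𝓛 : Set SG), TC True A → TC True B → TwoCn A → TwoCn B → (∀ x ∈ fm, Bip x.2) →
    Mx fm ⟨k', B⟩ → ¬ Blobbed fm B → 𝓡.Finite → (∀ x ∈ 𝓡, ¬ Sub A x.2) → 𝓛.Finite →
    (∀ x ∈ 𝓛, ¬ Sub B x.2) → 1 ≤ n → 1 ≤ N → 1 ≤ h → (∀ σ, Det A B σ) →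
    ∃ (L Q : Type) (_ : Finite L) (_ : Finite Q) (S : SimpleGraph (L ⊕ Q)),
      Gda n m h N A B 𝓡 𝓛 S

/-- Row UNA (compare S62/Unx.lean): disjoint union. -/
def UnaStatement : Prop :=
  ∀ (k k' n m h : ℕ) (A : SimpleGraph (Fin k)) (B : SimpleGraph (Fin k')), TwoCn A →
    TwoCn B → ∀ (L Q : Type) [Finite L] (S : SimpleGraph (L ⊕ Q)),
    (∃ (C₀ : L ⊕ Q → L ⊕ Q → Bool) (Wt : Type) (wd : Q → Wt),
      RBase n h h A S C₀ ∅ ∅ ∧ BBase (m + 1) B S C₀ wd) →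
    ∀ (J : Type) [Finite J] (X : J → Type) [∀ j, Finite (X j)] (Γ : ∀ j, SimpleGraph (X j)),
    (∀ j, ∃ C, G2 A B (Γ j) C) →
    ∃ (L' : Type) (_ : Finite L') (S' : SimpleGraph (L' ⊕ Q)) (i : L → L')
      (i' : ∀ j, X j → L'),
      (∃ (C₀ : L' ⊕ Q → L' ⊕ Q → Bool) (Wt : Type) (wd : Q → Wt),
        RBase n h h A S' C₀ ∅ ∅ ∧ BBase (m + 1) B S' C₀ wd) ∧
      (∃ l l' : L', l ≠ l') ∧ Function.Injective i ∧
      (∀ j, Function.Injective (i' j)) ∧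
      (∀ u v, S.Adj u v → S'.Adj (Sum.map i id u) (Sum.map i id v)) ∧
      ∀ j u v, (Γ j).Adj u v → S'.Adj (Sum.inl (i' j u)) (Sum.inl (i' j v))

/-- Row CAA: the case distinction, pure logic. -/
def CaaStatement : Prop :=
  ∀ (fm Tn : Set SG) (A B : SG) (P : Bool → SG → Prop), fm.Finite → Mx fm A → Mx fm B →
    (∀ c x y, Sub x.2 y.2 → P c y → P c x) →
    (∀ x y, Mx fm x → Mx fm y →
      ¬ ((Sub x.2 A.2 ∧ Sub y.2 B.2) ∨ (Sub x.2 B.2 ∧ Sub y.2 A.2)) →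
      P true x ∨ P false y) →
    (∀ c, (∀ x ∈ Tn, P c x) ∨ ∀ x ∈ Tn ∪ fm, P (!c) x) →
    (∃ c, ∀ x ∈ Tn ∪ fm, P c x) ∨
      ((∀ c, ∀ x ∈ Tn, P c x) ∧ ∃ cr, ¬ P cr A ∧ ¬ P (!cr) B)

/-- Row GA2 (from PGA, KLA, UNA, CAA, MOX and `MP3240G.GmcStatement`, `LrgStatement`; compare
S62/Gdx.lean): the whole gadget of the pair. -/
def Ga2Statement : Prop :=
  ∀ (h n m N : ℕ) (fm Tn : Set SG) (A B : SG), 1 ≤ h → fm.Finite → (∀ x ∈ fm, Big h x) →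
    Mx fm A → Mx fm B → TC True A.2 → TC True B.2 → (∀ σ, Det A.2 B.2 σ) →
    (∀ U V, Mx fm U → TC True U.2 → Mx fm V → TC True V.2 → Le2 U V A B →
      (Sub U.2 A.2 ∧ Sub V.2 B.2) ∨ (Sub U.2 B.2 ∧ Sub V.2 A.2)) →
    Tn.Finite → (∀ x ∈ Tn, Tiny h x) → 1 ≤ n → 1 ≤ N →
    ∃ (L Q : Type) (_ : Finite L) (_ : Finite Q) (S : SimpleGraph (L ⊕ Q)),
      (∃ (C₀ : L ⊕ Q → L ⊕ Q → Bool) (Wt : Type) (wd : Q → Wt),
        RBase n h h A.2 S C₀ ∅ ∅ ∧ BBase (m + 1) B.2 S C₀ wd) ∧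
      (∃ l l' : L, l ≠ l') ∧
      ∀ C : L ⊕ Q → L ⊕ Q → Bool, (∀ x y, C x y = C y x) →
        (∃ c, ∀ x ∈ Tn ∪ fm, Prs S C c x) ∨
        ∃ cr, (∀ x, (x ∈ Tn ∨ (x ∈ fm ∧ ¬ Sub A.2 x.2)) → Prs S C cr x) ∧
          (∀ x, (x ∈ Tn ∨ (x ∈ fm ∧ ¬ Sub B.2 x.2)) → Prs S C (!cr) x) ∧
          ((∃ q, Star A.2 {x | x ∈ Tn ∨ (x ∈ fm ∧ ¬ Sub A.2 x.2)} N S C cr q) ∨
            ∃ zf : Fin n × Fin (m + 1) → Q,
              Full B.2 {x | x ∈ Tn ∨ (x ∈ fm ∧ ¬ Sub B.2 x.2)} N S C (!cr) zf)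

/-- Row GD2 (from PGC, MOX, UNX, CAX and GMC, LRG; compare S62/Gdx.lean): the whole gadget for
one graph `D` with given killers. -/
def Gd2Statement : Prop :=
  ∀ (h k n m m₁ N : ℕ) (fm Tn : Set SG) (D : SimpleGraph (Fin k)), 1 ≤ h → fm.Finite →
    (∀ x ∈ fm, Big h x) → Mx fm ⟨k, D⟩ → TC True D →
    (∀ U V, Mx fm U → Mx fm V → ¬ (Sub U.2 D ∧ Sub V.2 D) →
      ∃ (X : Type) (_ : Finite X) (Γ : SimpleGraph X), (∃ C, G2 D D Γ C) ∧ Arr2 U V Γ) →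
    Tn.Finite → (∀ x ∈ Tn, Tiny h x) → 1 ≤ n → 1 ≤ N → h ≤ m₁ →
    ∃ (L Q : Type) (_ : Finite L) (_ : Finite Q) (S : SimpleGraph (L ⊕ Q)),
      (∃ (C₀ : L ⊕ Q → L ⊕ Q → Bool) (Hb Lw : Set (L ⊕ Q)) (Wt : Type) (wd : Q → Wt),
        RBase n h m₁ D S C₀ Hb Lw ∧ BBase (m + 1) D S C₀ wd) ∧
      (∃ l l' : L, l ≠ l') ∧
      ∀ C : L ⊕ Q → L ⊕ Q → Bool, (∀ x y, C x y = C y x) →
        (∃ c, ∀ x ∈ Tn ∪ fm, Prs S C c x) ∨
        ((∀ c, ∀ x, (x ∈ Tn ∨ (x ∈ fm ∧ ¬ Sub D x.2)) → Prs S C c x) ∧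
          MP3240S.Out n m h (m₁ + 1) D {x | x ∈ Tn ∨ (x ∈ fm ∧ ¬ Sub D x.2)} N S C)

/-- Row DA2 (compare S62/Dat.lean): the data for a given maximal large block type `D`. -/
def Da2Statement : Prop :=
  ∀ (n : ℕ) (H : SimpleGraph (Fin n)) (κ : Fin n → Bool), H.Connected →
    (∀ i j, H.Adj i j → κ i ≠ κ j) → ¬ H.IsAcyclic →
    ∃ (h : ℕ) (Tn : Set SG), 1 ≤ h ∧ (fam H κ h).Finite ∧ (fam H κ h).Nonempty ∧
      (∀ S, MP3240L.IsBlock H S → MP3240L.small κ S ≤ h + 1) ∧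
      (∀ x ∈ fam H κ h, Big h x) ∧ Tn.Finite ∧ (∀ x ∈ Tn, Tiny h x) ∧
      (∀ x, Mx (fam H κ h) x → Dt h H κ x.2) ∧
      ∀ (D : SG) (T : Set (Fin n)), D ∈ fam H κ h → SB H D.2 T →
        ∃ x : SG, (x ∈ Tn ∨ (x ∈ fam H κ h ∧ ¬ Sub D.2 x.2)) ∧ Mdl H T x

/-- Row MA2 (from DA2, GA2, NUM, GRA, GRS, GRF, EMB, GLC, LOC, RDN, BDN of t3s_modules, TYP,
LIN; compare S62/Asm.lean, S62/Noh.lean): the theorem for a pair. -/
def Ma2Statement : Prop :=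
  ∀ (h n n' : ℕ) (H : SimpleGraph (Fin n)) (H' : SimpleGraph (Fin n')) (κ : Fin n → Bool)
    (Tn : Set SG) (A B : SG), 1 ≤ h → (fam H κ h).Finite → (∀ x ∈ fam H κ h, Big h x) →
    Tn.Finite → (∀ x ∈ Tn, Tiny h x) → Mx (fam H κ h) A → Mx (fam H κ h) B →
    TC True A.2 → TC True B.2 → (∀ σ, Det A.2 B.2 σ) →
    (∀ U V, Mx (fam H κ h) U → TC True U.2 → Mx (fam H κ h) V → TC True V.2 → Le2 U V A B →
      (Sub U.2 A.2 ∧ Sub V.2 B.2) ∨ (Sub U.2 B.2 ∧ Sub V.2 A.2)) →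
    Dt h H κ A.2 → Dt h H κ B.2 →
    (∀ (D : SG) (T : Set (Fin n)), D ∈ fam H κ h → SB H D.2 T →
      ∃ x : SG, (x ∈ Tn ∨ (x ∈ fam H κ h ∧ ¬ Sub D.2 x.2)) ∧ Mdl H T x) →
    H'.Connected → Sub H H' → n < n' →
    ∃ (V : Type) (_ : Finite V) (F : SimpleGraph V), ArrowsT F H ∧ ¬ ArrowsT F H'

/-- Row MD2 (compare S62/Asm.lean): the theorem for one graph `D` with given killers. -/
def Md2Statement : Prop :=
  ∀ (h n n' : ℕ) (H : SimpleGraph (Fin n)) (H' : SimpleGraph (Fin n')) (κ : Fin n → Bool)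
    (Tn : Set SG) (D : SG), 1 ≤ h → (fam H κ h).Finite → (∀ x ∈ fam H κ h, Big h x) →
    Tn.Finite → (∀ x ∈ Tn, Tiny h x) → Mx (fam H κ h) D → TC True D.2 →
    (∀ U V, Mx (fam H κ h) U → Mx (fam H κ h) V → ¬ (Sub U.2 D.2 ∧ Sub V.2 D.2) →
      ∃ (X : Type) (_ : Finite X) (Γ : SimpleGraph X), (∃ C, G2 D.2 D.2 Γ C) ∧
        Arr2 U V Γ) →
    Dt h H κ D.2 →
    (∀ (T : Set (Fin n)), SB H D.2 T →
      ∃ x : SG, (x ∈ Tn ∨ (x ∈ fam H κ h ∧ ¬ Sub D.2 x.2)) ∧ Mdl H T x) →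
    H'.Connected → Sub H H' → n < n' →
    ∃ (V : Type) (_ : Finite V) (F : SimpleGraph V), ArrowsT F H ∧ ¬ ArrowsT F H'

/-- Row BRG (compare H34/Crisp.lean): if no maximal large block type is cross-connected then
Theorem T2* applies. -/
def BrgStatement : Prop :=
  MP3240S.MainStatement → ∀ (h n n' : ℕ) (H : SimpleGraph (Fin n)) (H' : SimpleGraph (Fin n'))
    (κ : Fin n → Bool), H.Connected → (∀ i j, H.Adj i j → κ i ≠ κ j) → ¬ H.IsAcyclic →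
    (fam H κ h).Nonempty → (∀ S, MP3240L.IsBlock H S → MP3240L.small κ S ≤ h + 1) →
    (∀ x, Mx (fam H κ h) x → ¬ MP3240G.Cross x.2) → H'.Connected → Sub H H' → n < n' →
    ∃ (V : Type) (_ : Finite V) (F : SimpleGraph V), ArrowsT F H ∧ ¬ ArrowsT F H'

/-- Row ALL (from MAIN of t3s_modules, DA2, SEL, KLA, MA2, MD2, BRG, NCD): all connected
bipartite graphs. -/
def AllStatement : Prop :=
  ∀ (n n' : ℕ) (H : SimpleGraph (Fin n)) (H' : SimpleGraph (Fin n')) (κ : Fin n → Bool),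
    H.Connected → (∀ i j, H.Adj i j → κ i ≠ κ j) → ¬ H.IsAcyclic → H'.Connected → Sub H H' →
    n < n' → ∃ (V : Type) (_ : Finite V) (F : SimpleGraph V), ArrowsT F H ∧ ¬ ArrowsT F H'

end MP3240E
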