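import Pool.Agent.Lib.MP_3240be_co.D62.Defs

set_option autoImplicit false

/-!
# MP_3240be_co, board t3d, row DET: determiners exist
-/

namespace MP3240E

open Pool.Agent.Lib.MP_3240be_co.H82 (TC)

theorem det_proof (hS : St2Statement) (hC : Ch2Statement) (h1 : Dt1Statement)
    (h2 : Dt2Statement) : DetStatement := by
  intro a b A B hA hB hsub
  have key : (∃ σ, Det A B σ) → ∀ σ, Det A B σ := by
    rintro ⟨σ, hσ⟩ σ'
    have h3 := h2 a b A B hA hB σ hσ
    cases σ <;> cases σ'
    · exact hσ
    · exact h3
    · exact h3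
    · exact hσ
  apply key
  rcases hS a b A B hA hB with h | h
  · exact h
  · exact ⟨false, h1 a b A B hA hB hsub (hC a b A B hA hB h)⟩

end MP3240E
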