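import Pool.Agent.Lib.MP_3240be_co.D62.Defs

/-!
# MP_3240be_co, board t3d_modules, row DT1 (helper94)

A copy of `A` whose edges are red if `e` is red forces `e` to be blue.
-/

set_option autoImplicit false

namespace MP3240E

open MP3240Q (Mono Bip SG Sub)
open Pool.Agent.Lib.MP_3240be_co.H82 (TC)

/-- The base: one edge and a disjoint copy of `A`. -/
def Dt1.base {a : ℕ} (A : SimpleGraph (Fin a)) : SimpleGraph (Bool ⊕ Fin a) where
  Adj x y := (∃ b, x = Sum.inl b ∧ y = Sum.inl (!b)) ∨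
    ∃ i j, x = Sum.inr i ∧ y = Sum.inr j ∧ A.Adj i j
  symm := ⟨by
    rintro x y (⟨b, rfl, rfl⟩ | ⟨i, j, rfl, rfl, h⟩)
    · exact Or.inl ⟨!b, rfl, by rw [Bool.not_not]⟩
    · exact Or.inr ⟨j, i, rfl, rfl, h.symm⟩⟩
  loopless := ⟨by
    rintro x (⟨b, h1, h2⟩ | ⟨i, j, h1, h2, h⟩)
    · rw [h1] at h2
      have := Sum.inl_injective h2
      cases b <;> simp at this
    · rw [h1] at h2
      have := Sum.inr_injective h2
      exact h.ne this⟩

/-- Pulling back a good colouring. -/
theorem Dt1.pull {a b : ℕ} {A : SimpleGraph (Fin a)} {B : SimpleGraph (Fin b)} {V U : Type}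
    {F : SimpleGraph V} {S : SimpleGraph U} {c : V → V → Bool} (hc : G2 A B F c) (ι : U → V)
    (hι : Function.Injective ι) (hadj : ∀ u v, S.Adj u v → F.Adj (ι u) (ι v)) :
    G2 A B S (fun u v => c (ι u) (ι v)) where
  symm := fun x y => hc.symm _ _
  red := fun f hf => hc.red (fun i => ι (f i))
    ⟨fun i j h => hf.1 (hι h), fun i j h => ⟨hadj _ _ (hf.2 i j h).1, (hf.2 i j h).2⟩⟩
  blue := fun f hf => hc.blue (fun i => ι (f i))
    ⟨fun i j h => hf.1 (hι h), fun i j h => ⟨hadj _ _ (hf.2 i j h).1, (hf.2 i j h).2⟩⟩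

/-- Pushing a copy into a piece. -/
theorem Dt1.piece {n : ℕ} {E : SimpleGraph (Fin n)} {V U : Type} {F : SimpleGraph V}
    {S : SimpleGraph U} {C : V → V → Bool} {d : U → U → Bool} {ι : U → V} {σ : Bool}
    (hadj : ∀ u v, F.Adj (ι u) (ι v) ↔ S.Adj u v)
    (hC : ∀ u v, S.Adj u v → C (ι u) (ι v) = d u v) {f : Fin n → V} (hf : Mono F C E σ f)
    (h : ∀ i, ∃ u, f i = ι u) : ∃ g, Mono S d E σ g := by
  choose g hg using h
  refine ⟨g, fun i j hij => hf.1 (by rw [hg i, hg j, hij]), fun i j hij => ?_⟩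
  have h1 := hf.2 i j hij
  rw [hg i, hg j] at h1
  have h2 := (hadj _ _).1 h1.1
  exact ⟨h2, by rw [← hC _ _ h2]; exact h1.2⟩

/-- Row DT1. -/
theorem dt1_proof (hG : GlsStatement) : Dt1Statement := by
  classical
  intro a b A B hA hB hBA hL
  obtain ⟨κ, hκ⟩ := hA.bip trivial
  obtain ⟨U, hU, S, e₁, e₂, f₁, f₂, ℓ, hℓ, he, hf, h1, h2, h3, h4, hcl, ⟨c₀, hc₀, hc1, hc2⟩,
    himp⟩ := hL (max a b + 2)
  let J : Type := {p : Fin a × Fin a // A.Adj p.1 p.2 ∧ κ p.1 = false}
  have hJ : Finite J := inferInstance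
  obtain ⟨V, hV, F, ι, ι', hι, hι', hend, hF, hF', hbip, hcol, hone⟩ :=
    hG (max a b) (Bool ⊕ Fin a) J U (Dt1.base A) S e₁ e₂ f₁ f₂ ℓ hℓ he hf h1 h2 h3 h4 hcl
      (fun _ => Sum.inl false) (fun _ => Sum.inl true) (fun j => Sum.inr j.1.1)
      (fun j => Sum.inr j.1.2) (fun _ => Or.inl ⟨false, rfl, rfl⟩)
      (fun j => Or.inr ⟨_, _, rfl, rfl, j.2.1⟩)
      (fun j => ⟨Sum.inl_ne_inr, Sum.inl_ne_inr, Sum.inl_ne_inr, Sum.inl_ne_inr⟩)
      (fun j => by
        have key : ∀ (β : Bool) (i : Fin a), ¬ (Dt1.base A).Adj (Sum.inl β) (Sum.inr i) := by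
          rintro β i (⟨b, _, h⟩ | ⟨i', j', h, _⟩)
          · exact Sum.inr_ne_inl h
          · exact Sum.inl_ne_inr h
        exact ⟨key _ _, key _ _, key _ _, key _ _⟩)
  refine ⟨V, hV, F, ι (Sum.inl false), ι (Sum.inl true), ?_, ?_, ?_, ?_⟩
  · exact (hF _ _).2 (Or.inl ⟨false, rfl, rfl⟩)
  · refine hbip ⟨Sum.elim id κ, ?_, fun j => ?_⟩
    · rintro x y (⟨β, rfl, rfl⟩ | ⟨i, j, rfl, rfl, h⟩)
      · show β ≠ !β
        cases β <;> simp
      · exact hκ i j h
    · show false = κ j.1.1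
      exact j.2.2.symm
  · -- a good colouring
    obtain ⟨C, hCs, hCb, hCp⟩ := hcol (fun _ _ => false) (fun _ => c₀) (fun _ _ => rfl)
      (fun _ => hc₀.symm) (fun _ => hc1) (fun _ => hc2)
    refine ⟨C, hCs, ?_, ?_⟩
    · intro f hf
      rcases hone a A hA (le_max_left _ _) f hf.1 (fun i j h => (hf.2 i j h).1) with h | ⟨j, h⟩
      · obtain ⟨i⟩ := hA.ne
        obtain ⟨i', hi⟩ := hA.nbr i
        have h5 := (hf.2 i i' hi).2
        obtain ⟨w, hw⟩ := h i
        obtain ⟨w', hw'⟩ := h i'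
        rw [hw, hw', hCb] at h5
        exact absurd h5 (by simp)
      · obtain ⟨g, hg⟩ := Dt1.piece (hF' j) (hCp j) hf h
        exact hc₀.red g hg
    · intro f hf
      rcases hone b B hB (le_max_right _ _) f hf.1 (fun i j h => (hf.2 i j h).1) with h | ⟨j, h⟩
      · choose w hw using h
        have hwi : Function.Injective w := fun i j hij => hf.1 (by rw [hw i, hw j, hij])
        have hwa : ∀ i j, B.Adj i j → (Dt1.base A).Adj (w i) (w j) := fun i j hij => by
          have h5 := (hf.2 i j hij).1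
          rw [hw i, hw j] at h5
          exact (hF _ _).1 h5
        by_cases hin : ∃ i β, w i = Sum.inl β
        · -- all vertices on the edge: too many vertices
          have h6 := hB.conn (fun i => ∃ β, w i = Sum.inl β) hin (fun x y hxy hx => by
            obtain ⟨β, hβ⟩ := hx
            rcases hwa x y hxy with ⟨β', _, h⟩ | ⟨i', j', h, _⟩
            · exact ⟨_, h⟩
            · rw [hβ] at h
              exact absurd h Sum.inl_ne_inr)
          obtain ⟨x⟩ := hB.ne
          obtain ⟨y, hy, _⟩ := hB.third x x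
          obtain ⟨z, hzx, hzy⟩ := hB.third x y
          obtain ⟨β₁, hβ₁⟩ := h6 x
          obtain ⟨β₂, hβ₂⟩ := h6 y
          obtain ⟨β₃, hβ₃⟩ := h6 z
          have n1 : β₁ ≠ β₂ := fun h => hy (hwi (by rw [hβ₁, hβ₂, h]))
          have n2 : β₁ ≠ β₃ := fun h => hzx (hwi (by rw [hβ₁, hβ₃, h]))
          have n3 : β₂ ≠ β₃ := fun h => hzy (hwi (by rw [hβ₂, hβ₃, h]))
          revert n1 n2 n3
          cases β₁ <;> cases β₂ <;> cases β₃ <;> simp
        · have hall : ∀ i, ∃ v, w i = Sum.inr v := by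
            intro i
            rcases hwi' : w i with β | v
            · exact absurd ⟨i, β, hwi'⟩ hin
            · exact ⟨v, rfl⟩
          choose v hv using hall
          refine hBA ⟨v, fun i j hij => hwi (by rw [hv i, hv j, hij]), fun i j hij => ?_⟩
          rcases hwa i j hij with ⟨β, h, _⟩ | ⟨i', j', h, h', h''⟩
          · rw [hv i] at h
            exact absurd h Sum.inr_ne_inl
          · rw [hv i] at h
            rw [hv j] at h'
            rw [Sum.inr_injective h, Sum.inr_injective h']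
            exact h''
      · obtain ⟨g, hg⟩ := Dt1.piece (hF' j) (hCp j) hf h
        exact hc₀.blue g hg
  · -- the edge is blue in every good colouring
    intro c hc
    by_contra hne
    have hred : c (ι (Sum.inl false)) (ι (Sum.inl true)) = true := by
      revert hne
      cases c (ι (Sum.inl false)) (ι (Sum.inl true)) <;> simp
    have key : ∀ j : J, c (ι (Sum.inr j.1.1)) (ι (Sum.inr j.1.2)) = true := by
      intro j
      obtain ⟨g1, g2, g3, g4⟩ := hend j
      have h5 := himp _ (Dt1.pull hc (ι' j) (hι' j) (fun u v h => (hF' j u v).2 h)) (by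
        show c (ι' j e₁) (ι' j e₂) = true
        rw [g1, g2]
        exact hred)
      have h6 : c (ι' j f₁) (ι' j f₂) = true := h5
      rw [g3, g4] at h6
      exact h6
    refine hc.red (fun i => ι (Sum.inr i)) ⟨fun i j h => Sum.inr_injective (hι h),
      fun i j hij => ⟨(hF _ _).2 (Or.inr ⟨i, j, rfl, rfl, hij⟩), ?_⟩⟩
    rcases hi : κ i with _ | _
    · exact key ⟨(i, j), hij, hi⟩
    · have hj : κ j = false := by
        have := hκ i j hij
        rw [hi] at this
        revert this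
        cases κ j <;> simp
      rw [hc.symm]
      exact key ⟨(j, i), hij.symm, hj⟩

end MP3240E
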