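import Pool.Agent.Lib.MP_3240be_co.D62.Defs

/-!
# Row DT2: determiners of one colour give determiners of the other colour
-/

set_option autoImplicit false

namespace MP3240E

open MP3240Q (Mono Bip SG Sub)
open Pool.Agent.Lib.MP_3240be_co.H82 (TC)

namespace Dt2

/-- No `σ`-copy of `D` and no `!σ`-copy of `E`. -/
structure Gd {k l : ℕ} (D : SimpleGraph (Fin k)) (E : SimpleGraph (Fin l)) (σ : Bool)
    {W : Type} (G : SimpleGraph W) (c : W → W → Bool) : Prop where
  symm : ∀ x y, c x y = c y x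
  one : ∀ f : Fin k → W, ¬ Mono G c D σ f
  two : ∀ f : Fin l → W, ¬ Mono G c E (!σ) f

theorem gd_true {a b : ℕ} (A : SimpleGraph (Fin a)) (B : SimpleGraph (Fin b)) {W : Type}
    (G : SimpleGraph W) (c : W → W → Bool) : G2 A B G c ↔ Gd A B true G c :=
  ⟨fun h => ⟨h.symm, h.red, h.blue⟩, fun h => ⟨h.symm, h.one, h.two⟩⟩

theorem gd_false {a b : ℕ} (A : SimpleGraph (Fin a)) (B : SimpleGraph (Fin b)) {W : Type}
    (G : SimpleGraph W) (c : W → W → Bool) : G2 A B G c ↔ Gd B A false G c :=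
  ⟨fun h => ⟨h.symm, h.blue, h.red⟩, fun h => ⟨h.symm, h.two, h.one⟩⟩

/-- Restriction to a piece. -/
theorem Gd.comap {k l : ℕ} {D : SimpleGraph (Fin k)} {E : SimpleGraph (Fin l)} {σ : Bool}
    {W U : Type} {G : SimpleGraph W} {S : SimpleGraph U} {c : W → W → Bool}
    (h : Gd D E σ G c) (ι : U → W) (hι : Function.Injective ι)
    (hadj : ∀ u v, S.Adj u v → G.Adj (ι u) (ι v)) :
    Gd D E σ S (fun u v => c (ι u) (ι v)) :=
  ⟨fun _ _ => h.symm _ _,
    fun f hf => h.one (fun i => ι (f i)) ⟨hι.comp hf.1, fun i j hij =>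
      ⟨hadj _ _ (hf.2 i j hij).1, (hf.2 i j hij).2⟩⟩,
    fun f hf => h.two (fun i => ι (f i)) ⟨hι.comp hf.1, fun i j hij =>
      ⟨hadj _ _ (hf.2 i j hij).1, (hf.2 i j hij).2⟩⟩⟩

/-- An injective endomorphism of a finite graph reaches every edge. -/
theorem edge_onto {k : ℕ} (D : SimpleGraph (Fin k)) (g : Fin k → Fin k)
    (hg : Function.Injective g) (hadj : ∀ i j, D.Adj i j → D.Adj (g i) (g j)) {x y : Fin k}
    (hxy : D.Adj x y) : ∃ i j, D.Adj i j ∧ g i = x ∧ g j = y := by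
  classical
  let φ : {p : Fin k × Fin k // D.Adj p.1 p.2} → {p : Fin k × Fin k // D.Adj p.1 p.2} :=
    fun p => ⟨(g p.1.1, g p.1.2), hadj _ _ p.2⟩
  have hφ : Function.Injective φ := by
    intro p q hpq
    have h1 : (g p.1.1, g p.1.2) = (g q.1.1, g q.1.2) := congrArg Subtype.val hpq
    have h2 := congrArg Prod.fst h1
    have h3 := congrArg Prod.snd h1
    exact Subtype.ext (Prod.ext (hg h2) (hg h3))
  obtain ⟨p, hp⟩ := (Finite.injective_iff_surjective.1 hφ) ⟨(x, y), hxy⟩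
  have h1 : (g p.1.1, g p.1.2) = (x, y) := congrArg Subtype.val hp
  exact ⟨p.1.1, p.1.2, p.2, congrArg Prod.fst h1, congrArg Prod.snd h1⟩

theorem step (hGle : GleStatement) {k l : ℕ} (D : SimpleGraph (Fin k))
    (E : SimpleGraph (Fin l)) (hD : TC True D) (hE : TC True E) (σ : Bool)
    (h : ∃ (W : Type) (_ : Finite W) (G : SimpleGraph W) (e₁ e₂ : W), G.Adj e₁ e₂ ∧ Bip G ∧
      (∃ c, Gd D E σ G c) ∧ ∀ c, Gd D E σ G c → c e₁ e₂ = σ) :
    ∃ (W : Type) (_ : Finite W) (G : SimpleGraph W) (e₁ e₂ : W), G.Adj e₁ e₂ ∧ Bip G ∧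
      (∃ c, Gd D E σ G c) ∧ ∀ c, Gd D E σ G c → c e₁ e₂ = !σ := by
  classical
  obtain ⟨U, hU, S, e₁, e₂, he, hbip, ⟨d, hd⟩, hforce⟩ := h
  obtain ⟨x0⟩ := hD.ne
  obtain ⟨y0, hxy⟩ := hD.nbr x0
  let Sp : Fin k → Fin k → Prop := fun x y => (x = x0 ∧ y = y0) ∨ (x = y0 ∧ y = x0)
  have Sps : ∀ x y, Sp x y ↔ Sp y x := fun x y =>
    ⟨fun h => h.elim (fun h => Or.inr ⟨h.2, h.1⟩) (fun h => Or.inl ⟨h.2, h.1⟩),
      fun h => h.elim (fun h => Or.inr ⟨h.2, h.1⟩) (fun h => Or.inl ⟨h.2, h.1⟩)⟩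
  let J : Type := {p : Fin k × Fin k // D.Adj p.1 p.2 ∧ ¬ Sp p.1 p.2}
  obtain ⟨V, hV, F, ι, ι', hι, hι', hgl, hind, hind', hFb, _, _, hcol, hcross⟩ :=
    hGle (Fin k) J D (fun _ => U) (fun _ => S) (fun _ => e₁) (fun _ => e₂)
      (fun p : J => p.1.1) (fun p : J => p.1.2) (fun _ => he) (fun _ => hbip)
      (fun p => p.2.1)
  refine ⟨V, hV, F, ι x0, ι y0, (hind _ _).2 hxy, hFb (hD.bip trivial), ?_, ?_⟩
  · -- the good colouring
    let c : Fin k → Fin k → Bool := fun u v => if Sp u v then !σ else σ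
    have hc : ∀ x y, c x y = c y x := by
      intro x y
      by_cases h : Sp x y
      · simp only [c, if_pos h, if_pos ((Sps x y).1 h)]
      · simp only [c, if_neg h, if_neg (fun h' => h ((Sps x y).2 h'))]
    obtain ⟨C, hCs, hCb, hCp⟩ := hcol c (fun _ => d) hc (fun _ => hd.symm) (by
      intro j
      show d e₁ e₂ = c j.1.1 j.1.2
      rw [hforce d hd]
      simp only [c, if_neg j.2.2])
    refine ⟨C, hCs, ?_, ?_⟩
    · intro f hf
      rcases hcross k D hD f hf.1 (fun i j hij => (hf.2 i j hij).1) with h | ⟨j, h⟩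
      · choose g hg using h
        have hgi : Function.Injective g := fun i j hij => hf.1 (by rw [hg, hg, hij])
        have hga : ∀ i j, D.Adj i j → D.Adj (g i) (g j) ∧ c (g i) (g j) = σ := by
          intro i j hij
          obtain ⟨h1, h2⟩ := hf.2 i j hij
          rw [hg i, hg j] at h1 h2
          exact ⟨(hind _ _).1 h1, by rw [← hCb]; exact h2⟩
        obtain ⟨i, j, hij, hi, hj⟩ := edge_onto D g hgi (fun i j hij => (hga i j hij).1) hxy
        have h2 := (hga i j hij).2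
        rw [hi, hj] at h2
        have : c x0 y0 = !σ := by
          simp only [c]
          rw [if_pos (Or.inl ⟨rfl, rfl⟩)]
        rw [this] at h2
        cases σ <;> simp at h2
      · choose g hg using h
        refine hd.one g ⟨fun i j hij => hf.1 (by rw [hg, hg, hij]), fun i i' hii => ?_⟩
        obtain ⟨h1, h2⟩ := hf.2 i i' hii
        rw [hg i, hg i'] at h1 h2
        have h3 := (hind' j _ _).1 h1
        exact ⟨h3, by rw [← hCp j _ _ h3]; exact h2⟩
    · intro f hf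
      rcases hcross l E hE f hf.1 (fun i j hij => (hf.2 i j hij).1) with h | ⟨j, h⟩
      · choose g hg using h
        have hgi : Function.Injective g := fun i j hij => hf.1 (by rw [hg, hg, hij])
        have hga : ∀ i j, E.Adj i j → Sp (g i) (g j) := by
          intro i j hij
          obtain ⟨h1, h2⟩ := hf.2 i j hij
          rw [hg i, hg j] at h2
          rw [hCb] at h2
          by_contra hs
          have : c (g i) (g j) = σ := by simp only [c, if_neg hs]
          rw [this] at h2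
          cases σ <;> simp at h2
        obtain ⟨x⟩ := hE.ne
        obtain ⟨y, hy⟩ := hE.nbr x
        obtain ⟨z, hz, hzy⟩ := hE.nbr2 x y
        have h1 := hga x y hy
        have h2 := hga x z hz
        apply hzy
        apply hgi
        rcases h1 with ⟨a1, a2⟩ | ⟨a1, a2⟩ <;> rcases h2 with ⟨b1, b2⟩ | ⟨b1, b2⟩
        · rw [a2, b2]
        · exact absurd (a1.symm.trans b1) hxy.ne
        · exact absurd (b1.symm.trans a1) hxy.ne
        · rw [a2, b2]
      · choose g hg using h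
        refine hd.two g ⟨fun i j hij => hf.1 (by rw [hg, hg, hij]), fun i i' hii => ?_⟩
        obtain ⟨h1, h2⟩ := hf.2 i i' hii
        rw [hg i, hg i'] at h1 h2
        have h3 := (hind' j _ _).1 h1
        exact ⟨h3, by rw [← hCp j _ _ h3]; exact h2⟩
  · -- the forced colour
    intro C hC
    by_contra hne
    have h0 : C (ι x0) (ι y0) = σ := by
      revert hne
      cases C (ι x0) (ι y0) <;> cases σ <;> simp
    refine hC.one ι ⟨hι, fun i j hij => ⟨(hind _ _).2 hij, ?_⟩⟩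
    by_cases hs : Sp i j
    · rcases hs with ⟨rfl, rfl⟩ | ⟨rfl, rfl⟩
      · exact h0
      · rw [hC.symm]
        exact h0
    · have h1 := hforce _ (hC.comap (ι' ⟨(i, j), hij, hs⟩) (hι' _)
        (fun u v huv => (hind' _ _ _).2 huv))
      rw [(hgl ⟨(i, j), hij, hs⟩).1, (hgl ⟨(i, j), hij, hs⟩).2] at h1
      exact h1

end Dt2

theorem dt2_proof (hGle : GleStatement) : Dt2Statement := by
  intro a b A B hA hB σ hσ
  rcases σ with _ | _
  · obtain ⟨W, hW, G, e₁, e₂, h1, h2, ⟨c, h3⟩, h4⟩ := hσ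
    obtain ⟨W', hW', G', e₁', e₂', g1, g2, ⟨c', g3⟩, g4⟩ := Dt2.step hGle B A hB hA false
      ⟨W, hW, G, e₁, e₂, h1, h2, ⟨c, (Dt2.gd_false A B G c).1 h3⟩,
        fun c hc => h4 c ((Dt2.gd_false A B G c).2 hc)⟩
    exact ⟨W', hW', G', e₁', e₂', g1, g2, ⟨c', (Dt2.gd_false A B G' c').2 g3⟩,
      fun c hc => g4 c ((Dt2.gd_false A B G' c).1 hc)⟩
  · obtain ⟨W, hW, G, e₁, e₂, h1, h2, ⟨c, h3⟩, h4⟩ := hσ
    obtain ⟨W', hW', G', e₁', e₂', g1, g2, ⟨c', g3⟩, g4⟩ := Dt2.step hGle A B hA hB true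
      ⟨W, hW, G, e₁, e₂, h1, h2, ⟨c, (Dt2.gd_true A B G c).1 h3⟩,
        fun c hc => h4 c ((Dt2.gd_true A B G c).2 hc)⟩
    exact ⟨W', hW', G', e₁', e₂', g1, g2, ⟨c', (Dt2.gd_true A B G' c').2 g3⟩,
      fun c hc => g4 c ((Dt2.gd_true A B G' c).1 hc)⟩

end MP3240E
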