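import Pool.Agent.Lib.MP_3240be_co.D62.Defs

/-!
# MP_3240be_co: row EQ1 of the board t3d_modules
-/

set_option autoImplicit false

namespace MP3240E

open MP3240Q (Mono Bip SG Sub)
open Pool.Agent.Lib.MP_3240be_co.H82 (TC)

/-- Restriction of a monochromatic copy in a piece. -/
theorem eqr_mono_pull {n : ℕ} {E : SimpleGraph (Fin n)} {V U : Type} {F : SimpleGraph V}
    {S : SimpleGraph U} {C : V → V → Bool} {d : U → U → Bool} {i : U → V}
    (hadj : ∀ u v, F.Adj (i u) (i v) → S.Adj u v)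
    (hC : ∀ u v, S.Adj u v → C (i u) (i v) = d u v) {b : Bool} {f : Fin n → V}
    (hf : Mono F C E b f) (hin : ∀ x, ∃ u, f x = i u) : ∃ g, Mono S d E b g ∧ ∀ x, f x = i (g x) := by
  choose g hg using hin
  refine ⟨g, ⟨fun x y h => hf.1 (by rw [hg, hg, h]), fun x y hxy => ?_⟩, hg⟩
  obtain ⟨h1, h2⟩ := hf.2 x y hxy
  rw [hg, hg] at h1 h2
  have h3 := hadj _ _ h1
  exact ⟨h3, by rw [← hC _ _ h3, h2]⟩

/-- A monochromatic copy in a piece gives a copy in the whole graph. -/
theorem eqr_mono_push {n : ℕ} {E : SimpleGraph (Fin n)} {V U : Type} {F : SimpleGraph V}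
    {S : SimpleGraph U} {C : V → V → Bool} {i : U → V} (hi : Function.Injective i)
    (hadj : ∀ u v, S.Adj u v → F.Adj (i u) (i v)) {b : Bool} {f : Fin n → U}
    (hf : Mono S (fun u v => C (i u) (i v)) E b f) : Mono F C E b (fun x => i (f x)) :=
  ⟨hi.comp hf.1, fun x y hxy => ⟨hadj _ _ (hf.2 x y hxy).1, (hf.2 x y hxy).2⟩⟩

/-- Restriction of good colourings. -/
theorem eqr_comap {a b : ℕ} {A : SimpleGraph (Fin a)} {B : SimpleGraph (Fin b)} {V U : Type}
    {F : SimpleGraph V} {S : SimpleGraph U} {C : V → V → Bool} (h : G2 A B F C) {i : U → V}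
    (hi : Function.Injective i) (hadj : ∀ u v, S.Adj u v → F.Adj (i u) (i v)) :
    G2 A B S (fun u v => C (i u) (i v)) :=
  ⟨fun _ _ => h.symm _ _, fun f hf => h.red _ (eqr_mono_push hi hadj hf),
    fun f hf => h.blue _ (eqr_mono_push hi hadj hf)⟩

/-- A cross-connected graph has an edge. -/
theorem eqr_edge {p : Prop} {W : Type} {H : SimpleGraph W} (hH : TC p H) : ∃ x y, H.Adj x y := by
  obtain ⟨x⟩ := hH.ne
  obtain ⟨y, hy⟩ := hH.nbr x
  exact ⟨x, y, hy⟩

/-- No cross-connected graph in `K_2`. -/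
theorem eqr_no_bool {n : ℕ} {H : SimpleGraph (Fin n)} (hH : TC True H) (f : Fin n → Bool)
    (hf : Function.Injective f) : False := by
  obtain ⟨x⟩ := hH.ne
  obtain ⟨y, hyx, _⟩ := hH.third x x
  obtain ⟨z, hzx, hzy⟩ := hH.third x y
  have h1 : f y ≠ f x := fun h => hyx (hf h)
  have h2 : f z ≠ f x := fun h => hzx (hf h)
  have h3 : f z ≠ f y := fun h => hzy (hf h)
  revert h1 h2 h3
  cases f x <;> cases f y <;> cases f z <;> simp

/-- Determiners on all edges of a graph `K`. -/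
theorem eqr_glue_all (hG : GleStatement) {A B U V : SG} (hU : TC True U.2) (hV : TC True V.2)
    (hle : Le2 A B U V) (K : SG) (σ t : Bool) {W : Type} [Finite W] (G : SimpleGraph W)
    (e₁ e₂ : W) (he : G.Adj e₁ e₂) (hb : Bip G)
    (hforce : ∀ c, G2 A.2 B.2 G c → c e₁ e₂ = σ) (c : W → W → Bool) (hc : G2 U.2 V.2 G c)
    (hct : c e₁ e₂ = t)
    (hK : (σ = true ∧ Sub A.2 K.2) ∨ (σ = false ∧ Sub B.2 K.2)) :
    (t = true ∧ Sub U.2 K.2) ∨ (t = false ∧ Sub V.2 K.2) := by
  classical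
  obtain ⟨k, K⟩ := K
  obtain ⟨X, hX, F, ι, ι', hι, hι', he', hF, hF', _, _, _, hcol, hcr⟩ :=
    hG (Fin k) {p : Fin k × Fin k // K.Adj p.1 p.2} K (fun _ => W) (fun _ => G)
      (fun _ => e₁) (fun _ => e₂) (fun p => p.1.1) (fun p => p.1.2) (fun _ => he) (fun _ => hb)
      (fun p => p.2)
  -- the glued graph arrows the first pair
  have harr : Arr2 A B F := by
    intro C hC
    by_contra hcon
    push Not at hcon
    have hg : G2 A.2 B.2 F C := ⟨hC, hcon.1, hcon.2⟩
    have hall : ∀ x y, K.Adj x y → C (ι x) (ι y) = σ := by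
      intro x y hxy
      have h1 := hforce _ (eqr_comap hg (hι' ⟨(x, y), hxy⟩) (fun u v h => (hF' _ u v).2 h))
      rw [(he' ⟨(x, y), hxy⟩).1, (he' ⟨(x, y), hxy⟩).2] at h1
      exact h1
    rcases hK with ⟨hσ, g, hg1, hg2⟩ | ⟨hσ, g, hg1, hg2⟩
    · exact hcon.1 (fun x => ι (g x)) ⟨hι.comp hg1, fun x y hxy =>
        ⟨(hF _ _).2 (hg2 x y hxy), by rw [hall _ _ (hg2 x y hxy), hσ]⟩⟩
    · exact hcon.2 (fun x => ι (g x)) ⟨hι.comp hg1, fun x y hxy =>
        ⟨(hF _ _).2 (hg2 x y hxy), by rw [hall _ _ (hg2 x y hxy), hσ]⟩⟩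
  have harr2 := hle X hX F harr
  obtain ⟨C, hC1, hC2, hC3⟩ := hcol (fun _ _ => t) (fun _ => c) (fun _ _ => rfl)
    (fun _ => hc.symm) (fun _ => hct)
  have key : ∀ (n : ℕ) (E : SimpleGraph (Fin n)), TC True E → ∀ (b : Bool) (f : Fin n → X),
      Mono F C E b f → (∀ g, ¬ Mono G c E b g) → b = t ∧ Sub E K := by
    intro n E hE b f hf hno
    rcases hcr n E hE f hf.1 (fun i j h => (hf.2 i j h).1) with hbase | ⟨j, hj⟩
    · obtain ⟨g, hg, _⟩ := eqr_mono_pull (S := K) (d := fun _ _ => t) (fun u v h => (hF u v).1 h)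
        (fun u v _ => hC2 u v) hf hbase
      obtain ⟨x, y, hxy⟩ := eqr_edge hE
      exact ⟨(hg.2 x y hxy).2.symm, g, hg.1, fun x y h => (hg.2 x y h).1⟩
    · obtain ⟨g, hg, _⟩ := eqr_mono_pull (S := G) (d := c) (fun u v h => (hF' j u v).1 h)
        (fun u v h => hC3 j u v h) hf hj
      exact absurd hg (hno g)
  rcases harr2 C hC1 with ⟨f, hf⟩ | ⟨f, hf⟩
  · obtain ⟨h1, h2⟩ := key _ _ hU true f hf hc.red
    exact Or.inl ⟨h1.symm, h2⟩
  · obtain ⟨h1, h2⟩ := key _ _ hV false f hf hc.blue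
    exact Or.inr ⟨h1.symm, h2⟩

theorem eq1_proof (hG : GleStatement) : Eq1Statement := by
  classical
  intro A B U V hA hB hU hV hdet hle hle'
  choose W hW G e₁ e₂ he hb hgood hforce using hdet
  -- good colourings for the second pair
  have hex : ∀ σ, ∃ c, G2 U.2 V.2 (G σ) c := by
    intro σ
    by_contra hcon
    have h1 : Arr2 U V (G σ) := by
      intro C hC
      by_contra h2
      push Not at h2
      exact hcon ⟨C, hC, h2.1, h2.2⟩
    obtain ⟨c, hc⟩ := hgood σ
    rcases hle (W σ) (hW σ) (G σ) h1 c hc.symm with ⟨f, hf⟩ | ⟨f, hf⟩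
    · exact hc.red f hf
    · exact hc.blue f hf
  choose c hc using hex
  -- the colours differ
  have hne : c true (e₁ true) (e₂ true) ≠ c false (e₁ false) (e₂ false) := by
    intro heq
    obtain ⟨X, hX, F, ι, ι', hι, hι', he', hF, hF', _, _, _, hcol, hcr⟩ :=
      hG Bool Bool ⊤ W G e₁ e₂ (fun _ => false) (fun _ => true) he hb (fun _ => by simp)
    have harr : Arr2 A B F := by
      intro C hC
      by_contra hcon
      push Not at hcon
      have hg : G2 A.2 B.2 F C := ⟨hC, hcon.1, hcon.2⟩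
      have h1 : ∀ σ, C (ι false) (ι true) = σ := by
        intro σ
        have h1 := hforce σ _ (eqr_comap hg (hι' σ) (fun u v h => (hF' σ u v).2 h))
        rw [(he' σ).1, (he' σ).2] at h1
        exact h1
      have h2 := (h1 true).symm.trans (h1 false)
      exact absurd h2 (by decide)
    have harr2 := hle' X hX F harr
    obtain ⟨C, hC1, hC2, hC3⟩ := hcol (fun _ _ => c true (e₁ true) (e₂ true)) c
      (fun _ _ => rfl) (fun σ => (hc σ).symm) (fun σ => by
        cases σ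
        · exact heq.symm
        · rfl)
    have key : ∀ (n : ℕ) (E : SimpleGraph (Fin n)), TC True E → ∀ (b : Bool) (f : Fin n → X),
        Mono F C E b f → (∀ σ g, ¬ Mono (G σ) (c σ) E b g) → False := by
      intro n E hE b f hf hno
      rcases hcr n E hE f hf.1 (fun i j h => (hf.2 i j h).1) with hbase | ⟨j, hj⟩
      · obtain ⟨g, hg, _⟩ := eqr_mono_pull (S := (⊤ : SimpleGraph Bool))
          (d := fun _ _ => c true (e₁ true) (e₂ true)) (fun u v h => (hF u v).1 h)
          (fun u v _ => hC2 u v) hf hbase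
        exact eqr_no_bool hE g hg.1
      · obtain ⟨g, hg, _⟩ := eqr_mono_pull (S := G j) (d := c j) (fun u v h => (hF' j u v).1 h)
          (fun u v h => hC3 j u v h) hf hj
        exact hno j g hg
    rcases harr2 C hC1 with ⟨f, hf⟩ | ⟨f, hf⟩
    · exact key _ _ hU true f hf (fun σ => (hc σ).red)
    · exact key _ _ hV false f hf (fun σ => (hc σ).blue)
  have hself : ∀ E : SG, Sub E.2 E.2 := fun E => ⟨id, fun _ _ h => h, fun _ _ h => h⟩
  have k1 := eqr_glue_all hG hU hV hle' A true _ (G true) (e₁ true) (e₂ true) (he true) (hb true)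
    (hforce true) (c true) (hc true) rfl (Or.inl ⟨rfl, hself A⟩)
  have k2 := eqr_glue_all hG hU hV hle' B false _ (G false) (e₁ false) (e₂ false) (he false)
    (hb false) (hforce false) (c false) (hc false) rfl (Or.inr ⟨rfl, hself B⟩)
  rcases k1 with ⟨h1, h2⟩ | ⟨h1, h2⟩
  · rcases k2 with ⟨h3, h4⟩ | ⟨h3, h4⟩
    · exact absurd (h1.trans h3.symm) hne
    · exact Or.inl ⟨h2, h4⟩
  · rcases k2 with ⟨h3, h4⟩ | ⟨h3, h4⟩
    · exact Or.inr ⟨h4, h2⟩
    · exact absurd (h1.trans h3.symm) hne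

end MP3240E
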