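import Pool.Agent.Lib.MP_3240be_co.D62.Eq1

/-!
# MP_3240be_co: row EQ2 of the board t3d_modules
-/

set_option autoImplicit false

namespace MP3240E

open MP3240Q (Mono Bip SG Sub)
open Pool.Agent.Lib.MP_3240be_co.H82 (TC Good LS exists_long)

/-- `D` and a matching, disjoint. -/
def EqDm {k : ℕ} (D : SimpleGraph (Fin k)) (O : Type) : SimpleGraph (Fin k ⊕ (O × Bool)) where
  Adj x y := (∃ a b, x = Sum.inl a ∧ y = Sum.inl b ∧ D.Adj a b) ∨
    ∃ o b, x = Sum.inr (o, b) ∧ y = Sum.inr (o, !b)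
  symm := ⟨by
    rintro x y (⟨a, b, rfl, rfl, h⟩ | ⟨o, b, rfl, rfl⟩)
    · exact Or.inl ⟨b, a, rfl, rfl, h.symm⟩
    · exact Or.inr ⟨o, !b, rfl, by rw [Bool.not_not]⟩⟩
  loopless := ⟨by
    rintro x (⟨a, b, h1, h2, h⟩ | ⟨o, b, h1, h2⟩)
    · rw [h1] at h2
      exact h.ne (Sum.inl_injective h2)
    · rw [h1] at h2
      have h3 := (Prod.ext_iff.1 (Sum.inr_injective h2)).2
      revert h3
      cases b <;> simp⟩

theorem eqDm_inl {k : ℕ} {D : SimpleGraph (Fin k)} {O : Type} {a b : Fin k} :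
    (EqDm D O).Adj (Sum.inl a) (Sum.inl b) ↔ D.Adj a b := by
  constructor
  · rintro (⟨a', b', h1, h2, h⟩ | ⟨o, b', h1, _⟩)
    · rw [Sum.inl_injective h1, Sum.inl_injective h2]
      exact h
    · simp at h1
  · exact fun h => Or.inl ⟨a, b, rfl, rfl, h⟩

theorem eqDm_inr {k : ℕ} {D : SimpleGraph (Fin k)} {O : Type} {o o' : O} {b b' : Bool} :
    (EqDm D O).Adj (Sum.inr (o, b)) (Sum.inr (o', b')) ↔ o = o' ∧ b' = !b := by
  constructor
  · rintro (⟨a, b', h1, h2, h⟩ | ⟨o'', b'', h1, h2⟩)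
    · simp at h1
    · simp only [Sum.inr.injEq, Prod.mk.injEq] at h1 h2
      exact ⟨h1.1.trans h2.1.symm, by rw [h2.2, h1.2]⟩
  · rintro ⟨rfl, rfl⟩
    exact Or.inr ⟨o, b, rfl, rfl⟩

theorem eqDm_inl_inr {k : ℕ} {D : SimpleGraph (Fin k)} {O : Type} {a : Fin k} {q : O × Bool} :
    ¬ (EqDm D O).Adj (Sum.inl a) (Sum.inr q) := by
  rintro (⟨a', b', h1, h2, h⟩ | ⟨o, b', h1, _⟩)
  · simp at h2
  · simp at h1

/-- A cross-connected subgraph lies in `D`. -/
theorem sub_eqDm {n k : ℕ} {D : SimpleGraph (Fin k)} {O : Type} {E : SimpleGraph (Fin n)}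
    (hE : TC True E) (f : Fin n → Fin k ⊕ (O × Bool)) (hf : Function.Injective f)
    (hadj : ∀ x y, E.Adj x y → (EqDm D O).Adj (f x) (f y)) : Sub E D := by
  classical
  by_cases h : ∃ x a, f x = Sum.inl a
  · have hall := hE.conn (fun x => ∃ a, f x = Sum.inl a) h (by
      rintro x y hxy ⟨a, ha⟩
      have h1 := hadj x y hxy
      rw [ha] at h1
      rcases hy : f y with b | q
      · exact ⟨b, rfl⟩
      · rw [hy] at h1
        exact absurd h1 eqDm_inl_inr)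
    choose g hg using hall
    refine ⟨g, fun x y hxy => hf (by rw [hg, hg, hxy]), fun x y hxy => ?_⟩
    have h1 := hadj x y hxy
    rw [hg, hg] at h1
    exact eqDm_inl.1 h1
  · exfalso
    have hall : ∀ x, ∃ q, f x = Sum.inr q := by
      intro x
      rcases hx : f x with a | q
      · exact absurd ⟨x, a, hx⟩ h
      · exact ⟨q, rfl⟩
    choose g hg using hall
    obtain ⟨x0⟩ := hE.ne
    have hc := hE.conn (fun x => (g x).1 = (g x0).1) ⟨x0, rfl⟩ (by
      intro x y hxy hx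
      have h1 := hadj x y hxy
      rw [hg, hg] at h1
      have h2 := (eqDm_inr (o := (g x).1) (b := (g x).2) (o' := (g y).1) (b' := (g y).2)).1 h1
      exact h2.1.symm.trans hx)
    refine eqr_no_bool hE (fun x => (g x).2) (fun x y hxy => hf ?_)
    rw [hg, hg]
    exact congrArg Sum.inr (Prod.ext ((hc x).trans (hc y).symm) hxy)

theorem eq2_proof (hG : GlsStatement) : Eq2Statement := by
  classical
  intro D E hD hE hle hle'
  obtain ⟨d, D⟩ := D
  obtain ⟨n, E⟩ := E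
  obtain ⟨W, hW, G, e₁, e₂, f₁, f₂, ℓ, hℓ, he, hf, hℓ1, hℓ2, hℓ3, hℓ4, hb, ⟨c₀, hc₀, hg₀⟩,
    hforce⟩ := exists_long D hD (n + 2)
  -- good colourings of the sender
  obtain ⟨c₁, hc₁⟩ : ∃ c, G2 E E G c := by
    by_contra hcon
    have h1 : Arr2 ⟨n, E⟩ ⟨n, E⟩ G := by
      intro C hC
      by_contra h2
      push Not at h2
      exact hcon ⟨C, hC, h2.1, h2.2⟩
    rcases hle W hW G h1 c₀ hc₀ with ⟨f, hf⟩ | ⟨f, hf⟩
    · exact hg₀ true f hf.1 hf.2
    · exact hg₀ false f hf.1 hf.2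
  have hnot : ∀ c, G2 E E G c → G2 E E G (fun x y => !c x y) := by
    intro c hc
    refine ⟨fun x y => congrArg _ (hc.symm x y), fun f hf => hc.blue f ⟨hf.1, fun i j h => ?_⟩,
      fun f hf => hc.red f ⟨hf.1, fun i j h => ?_⟩⟩
    · obtain ⟨h1, h2⟩ := hf.2 i j h
      have h3 : (!c (f i) (f j)) = true := h2
      exact ⟨h1, by rw [← Bool.not_not (c (f i) (f j)), h3]; rfl⟩
    · obtain ⟨h1, h2⟩ := hf.2 i j h
      have h3 : (!c (f i) (f j)) = false := h2
      exact ⟨h1, by rw [← Bool.not_not (c (f i) (f j)), h3]; rfl⟩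
  obtain ⟨c, hc, hce⟩ : ∃ c, G2 E E G c ∧ c e₁ e₂ = true := by
    by_cases h : c₁ e₁ e₂ = true
    · exact ⟨c₁, hc₁, h⟩
    · refine ⟨_, hnot c₁ hc₁, ?_⟩
      show (!c₁ e₁ e₂) = true
      revert h
      cases c₁ e₁ e₂ <;> simp
  obtain ⟨c', hc', hce', hcf'⟩ : ∃ c', G2 E E G c' ∧ c' e₁ e₂ = c f₁ f₂ ∧ c' f₁ f₂ = true := by
    by_cases h : c f₁ f₂ = true
    · exact ⟨c, hc, by rw [hce, h], h⟩
    · refine ⟨_, hnot c hc, ?_, ?_⟩
      · show (!c e₁ e₂) = _
        rw [hce]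
        revert h
        cases c f₁ f₂ <;> simp
      · show (!c f₁ f₂) = _
        revert h
        cases c f₁ f₂ <;> simp
  -- the base
  let J : Type := {p : Fin d × Fin d // D.Adj p.1 p.2}
  let Bs : Type := Fin d ⊕ (Option J × Bool)
  let G₀ : SimpleGraph Bs := EqDm D (Option J)
  let p₁ : J × Bool → Bs := fun j => match j with
    | (_, false) => Sum.inr (none, false)
    | (j, true) => Sum.inr (some j, false)
  let p₂ : J × Bool → Bs := fun j => match j with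
    | (_, false) => Sum.inr (none, true)
    | (j, true) => Sum.inr (some j, true)
  let q₁ : J × Bool → Bs := fun j => match j with
    | (j, false) => Sum.inr (some j, false)
    | (j, true) => Sum.inl j.1.1
  let q₂ : J × Bool → Bs := fun j => match j with
    | (j, false) => Sum.inr (some j, true)
    | (j, true) => Sum.inl j.1.2
  have hpa : ∀ j, G₀.Adj (p₁ j) (p₂ j) := by
    rintro ⟨j, _ | _⟩
    · exact eqDm_inr.2 ⟨rfl, rfl⟩
    · exact eqDm_inr.2 ⟨rfl, rfl⟩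
  have hqa : ∀ j, G₀.Adj (q₁ j) (q₂ j) := by
    rintro ⟨j, _ | _⟩
    · exact eqDm_inr.2 ⟨rfl, rfl⟩
    · exact eqDm_inl.2 j.2
  have hpq : ∀ j, p₁ j ≠ q₁ j ∧ p₁ j ≠ q₂ j ∧ p₂ j ≠ q₁ j ∧ p₂ j ≠ q₂ j := by
    have h1 : ∀ (j : J) (b b' : Bool), (Sum.inr (none, b) : Bs) ≠ Sum.inr (some j, b') := by
      intro j b b' h
      exact absurd (Prod.ext_iff.1 (Sum.inr_injective h)).1 (Option.some_ne_none j).symm
    have h2 : ∀ (j : J) (b : Bool) (x : Fin d), (Sum.inr (some j, b) : Bs) ≠ Sum.inl x :=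
      fun j b x h => Sum.inr_ne_inl h
    rintro ⟨j, _ | _⟩
    · exact ⟨h1 _ _ _, h1 _ _ _, h1 _ _ _, h1 _ _ _⟩
    · exact ⟨h2 _ _ _, h2 _ _ _, h2 _ _ _, h2 _ _ _⟩
  have hnon : ∀ j, ¬ G₀.Adj (p₁ j) (q₁ j) ∧ ¬ G₀.Adj (p₁ j) (q₂ j) ∧ ¬ G₀.Adj (p₂ j) (q₁ j) ∧
      ¬ G₀.Adj (p₂ j) (q₂ j) := by
    have hne : ∀ (j : J) (b b' : Bool),
        ¬ G₀.Adj (Sum.inr (none, b)) (Sum.inr (some j, b')) := by
      intro j b b' h
      have := (eqDm_inr.1 h).1
      exact absurd this (by simp)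
    rintro ⟨j, _ | _⟩
    · exact ⟨hne j _ _, hne j _ _, hne j _ _, hne j _ _⟩
    · exact ⟨fun h => eqDm_inl_inr h.symm, fun h => eqDm_inl_inr h.symm,
        fun h => eqDm_inl_inr h.symm, fun h => eqDm_inl_inr h.symm⟩
  obtain ⟨X, hX, F, ι, ι', hι, hι', he', hF, hF', _, hcol, hcr⟩ :=
    hG n Bs (J × Bool) W G₀ G e₁ e₂ f₁ f₂ ℓ hℓ he hf hℓ1 hℓ2 hℓ3 hℓ4 (by
      obtain ⟨cl, h1, h2⟩ := hb trivial
      exact ⟨cl, h1, beq_iff_eq.1 h2⟩) p₁ p₂ q₁ q₂ hpa hqa hpq hnon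
  -- it arrows the first pair
  have harr : Arr2 ⟨d, D⟩ ⟨d, D⟩ F := by
    intro C hC
    by_contra hcon
    push Not at hcon
    have hgood : Good D F C := by
      intro b f hf hm
      cases b
      · exact hcon.2 f ⟨hf, hm⟩
      · exact hcon.1 f ⟨hf, hm⟩
    have heq : ∀ j, C (ι (p₁ j)) (ι (p₂ j)) = C (ι (q₁ j)) (ι (q₂ j)) := by
      intro j
      have h1 := (hforce (fun u v => C (ι' j u) (ι' j v)) (fun _ _ => hC _ _)
        (hgood.comap (ι' j) (hι' j) (fun u v h => (hF' j u v).2 h))).2 rfl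
      obtain ⟨a1, a2, a3, a4⟩ := he' j
      rw [a1, a2, a3, a4] at h1
      exact h1
    have hall : ∀ j : J, C (ι (Sum.inl j.1.1)) (ι (Sum.inl j.1.2)) =
        C (ι (Sum.inr (none, false))) (ι (Sum.inr (none, true))) := by
      intro j
      have h1 := heq (j, true)
      have h2 := heq (j, false)
      exact h1.symm.trans h2.symm
    refine hgood (C (ι (Sum.inr (none, false))) (ι (Sum.inr (none, true))))
      (fun x => ι (Sum.inl x)) (hι.comp Sum.inl_injective) (fun x y hxy =>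
        ⟨(hF _ _).2 (eqDm_inl.2 hxy), hall ⟨(x, y), hxy⟩⟩)
  have harr2 := hle' X hX F harr
  -- a colouring
  let β : Bool := c f₁ f₂
  let cb : Bs → Bs → Bool := fun x y => match x, y with
    | Sum.inr (some _, _), Sum.inr (some _, _) => β
    | _, _ => true
  have hcb : ∀ x y, cb x y = cb y x := by
    rintro (a | ⟨_ | o, b⟩) (a' | ⟨_ | o', b'⟩) <;> rfl
  let dd : J × Bool → W → W → Bool := fun j => match j with
    | (_, false) => c
    | (_, true) => c'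
  have hdd : ∀ j, G2 E E G (dd j) := by
    rintro ⟨j, _ | _⟩
    · exact hc
    · exact hc'
  obtain ⟨C, hC1, hC2, hC3⟩ := hcol cb dd hcb (fun j => (hdd j).symm) (by
    rintro ⟨j, _ | _⟩
    · exact hce
    · exact hce') (by
    rintro ⟨j, _ | _⟩
    · exact rfl
    · exact hcf')
  have key : ∀ (b : Bool) (f : Fin n → X), Mono F C E b f → Sub E D := by
    intro b f hf
    rcases hcr n E hE le_rfl f hf.1 (fun i j h => (hf.2 i j h).1) with hbase | ⟨j, hj⟩
    · obtain ⟨g, hg, _⟩ := eqr_mono_pull (S := G₀) (d := cb) (fun u v h => (hF u v).1 h)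
        (fun u v _ => hC2 u v) hf hbase
      exact sub_eqDm hE g hg.1 (fun x y h => (hg.2 x y h).1)
    · exfalso
      obtain ⟨g, hg, _⟩ := eqr_mono_pull (S := G) (d := dd j) (fun u v h => (hF' j u v).1 h)
        (fun u v h => hC3 j u v h) hf hj
      cases b
      · exact (hdd j).blue g hg
      · exact (hdd j).red g hg
  rcases harr2 C hC1 with ⟨f, hf⟩ | ⟨f, hf⟩
  · exact key true f hf
  · exact key false f hf

end MP3240E
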