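import Pool.Agent.Lib.MP_3240be_co.D62.Defs
import Pool.Agent.Lib.MP_3240be_co.H51.TreesAll

/-!
# MP_3240be_co: all connected bipartite graphs, with the trees, finite hosts on `Fin m`
-/

set_option autoImplicit false

namespace MP3240E

open MP3240Q (Sub)
open Pool.Agent.Lib.MP_3240be_co.H36.Chrom (ArrowsT arrowsT_equiv)

theorem arr_T {m n : ℕ} (F : SimpleGraph (Fin m)) (H : SimpleGraph (Fin n)) :
    MP3240T.Arr F H ↔ ArrowsT F H := by
  constructor
  · intro h c hc
    obtain ⟨b, f, hf, ha⟩ := h c hc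
    exact ⟨b, f, hf, fun i j hij => ⟨(ha i j hij).1, (ha i j hij).2.1⟩⟩
  · intro h c hc
    obtain ⟨b, f, hf, ha⟩ := h c hc
    exact ⟨b, f, hf, fun i j hij => ⟨(ha i j hij).1, (ha i j hij).2,
      (hc _ _).trans (ha i j hij).2⟩⟩

/-- A connected graph with more vertices than `H` that contains `H` contains a pendant extension
of `H`. -/
theorem exists_pendant {n n' : ℕ} (H : SimpleGraph (Fin n)) (H' : SimpleGraph (Fin n'))
    (hH : H.Connected) (hH' : H'.Connected) (hsub : Sub H H') (hlt : n < n') :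
    ∃ (v : Fin n) (P : SimpleGraph (Fin (n + 1))),
      (∀ i j : Fin n, P.Adj i.castSucc j.castSucc ↔ H.Adj i j) ∧
      (∀ i : Fin n, P.Adj (Fin.last n) i.castSucc ↔ i = v) ∧ Sub P H' := by
  classical
  obtain ⟨f, hf, hadj⟩ := hsub
  -- a vertex outside of the copy
  obtain ⟨w₀, hw₀⟩ : ∃ w, w ∉ Set.range f := by
    by_contra hcon
    push Not at hcon
    have h1 := Fintype.card_le_of_surjective f (fun w => hcon w)
    simp only [Fintype.card_fin] at h1
    omega
  obtain ⟨v₀⟩ : Nonempty (Fin n) := hH.nonempty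
  -- an edge that leaves the copy
  obtain ⟨v, w, hvw, hw⟩ : ∃ (v : Fin n) (w : Fin n'), H'.Adj (f v) w ∧ w ∉ Set.range f := by
    by_contra hcon
    push Not at hcon
    have h2 : ∀ (x y : Fin n') (_ : H'.Walk x y), x ∈ Set.range f → y ∈ Set.range f := by
      intro x y p
      induction p with
      | nil => exact fun h => h
      | cons hadj' p ih =>
        intro hx
        apply ih
        obtain ⟨z, rfl⟩ := hx
        exact hcon z _ hadj'
    obtain ⟨p⟩ := hH'.preconnected (f v₀) w₀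
    exact hw₀ (h2 _ _ p ⟨v₀, rfl⟩)
  let g : Fin (n + 1) → Fin n' := Fin.lastCases w f
  have hg1 : ∀ i : Fin n, g i.castSucc = f i := fun i => Fin.lastCases_castSucc i
  have hg2 : g (Fin.last n) = w := Fin.lastCases_last
  let P : SimpleGraph (Fin (n + 1)) := SimpleGraph.fromRel (fun x y =>
    (∃ i j : Fin n, x = i.castSucc ∧ y = j.castSucc ∧ H.Adj i j) ∨
      (x = Fin.last n ∧ y = v.castSucc))
  refine ⟨v, P, ?_, ?_, g, ?_, ?_⟩
  · intro i j
    simp only [P, SimpleGraph.fromRel_adj]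
    constructor
    · rintro ⟨-, (⟨i', j', h1, h2, h3⟩ | ⟨h1, h2⟩) | (⟨i', j', h1, h2, h3⟩ | ⟨h1, h2⟩)⟩
      · rw [Fin.castSucc_injective n h1, Fin.castSucc_injective n h2]
        exact h3
      · exact absurd h1 (Fin.castSucc_ne_last i)
      · rw [Fin.castSucc_injective n h1, Fin.castSucc_injective n h2]
        exact h3.symm
      · exact absurd h1 (Fin.castSucc_ne_last j)
    · intro h
      exact ⟨fun e => h.ne (Fin.castSucc_injective n e), Or.inl (Or.inl ⟨i, j, rfl, rfl, h⟩)⟩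
  · intro i
    simp only [P, SimpleGraph.fromRel_adj]
    constructor
    · rintro ⟨-, (⟨i', j', h1, h2, h3⟩ | ⟨h1, h2⟩) | (⟨i', j', h1, h2, h3⟩ | ⟨h1, h2⟩)⟩
      · exact absurd h1.symm (Fin.castSucc_ne_last i')
      · exact Fin.castSucc_injective n h2
      · exact absurd h2.symm (Fin.castSucc_ne_last j')
      · exact absurd h1 (Fin.castSucc_ne_last i)
    · rintro rfl
      refine ⟨(Fin.castSucc_ne_last _).symm, Or.inl (Or.inr ?_)⟩
      simp
  · intro x y
    refine Fin.lastCases ?_ (fun i => ?_) x <;> refine Fin.lastCases ?_ (fun j => ?_) y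
    · exact fun _ => rfl
    · rw [hg2, hg1]
      intro e
      exact absurd ⟨j, e.symm⟩ hw
    · rw [hg2, hg1]
      intro e
      exact absurd ⟨i, e⟩ hw
    · rw [hg1, hg1]
      intro e
      rw [hf e]
  · intro x y hxy
    simp only [P, SimpleGraph.fromRel_adj] at hxy
    obtain ⟨-, (⟨i, j, rfl, rfl, h3⟩ | ⟨rfl, rfl⟩) | (⟨i, j, rfl, rfl, h3⟩ | ⟨rfl, rfl⟩)⟩ := hxy
    · rw [hg1, hg1]
      exact hadj _ _ h3
    · rw [hg2, hg1]
      exact hvw.symm
    · rw [hg1, hg1]
      exact (hadj _ _ h3).symm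
    · rw [hg2, hg1]
      exact hvw

/-- The final form: `H` may be a tree. -/
theorem all_fin (hAll : AllStatement) {n n' : ℕ} (H : SimpleGraph (Fin n))
    (H' : SimpleGraph (Fin n')) (κ : Fin n → Bool) (hH : H.Connected)
    (hκ : ∀ i j, H.Adj i j → κ i ≠ κ j) (hH' : H'.Connected) (hsub : Sub H H')
    (hlt : n < n') : ∃ (m : ℕ) (F : SimpleGraph (Fin m)), ArrowsT F H ∧ ¬ ArrowsT F H' := by
  classical
  by_cases hcyc : H.IsAcyclic
  · obtain ⟨v, P, h1, h2, g, hg, hgadj⟩ := exists_pendant H H' hH hH' hsub hlt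
    obtain ⟨m, F, h3, h4⟩ := MP3240T.trees_all H P ⟨hH, hcyc⟩ h1 v h2
    refine ⟨m, F, (arr_T F H).1 h3, fun h5 => h4 ((arr_T F P).2 ?_)⟩
    intro c hc
    obtain ⟨b, f, hf, ha⟩ := h5 c hc
    exact ⟨b, fun i => f (g i), hf.comp hg, fun i j hij => ha _ _ (hgadj i j hij)⟩
  · obtain ⟨V, hV, F, hF1, hF2⟩ := hAll n n' H H' κ hH hκ hcyc hH' hsub hlt
    obtain ⟨m, ⟨ε⟩⟩ := Finite.exists_equiv_fin V
    exact ⟨m, F.comap ε.symm, (arrowsT_equiv ε F H).2 hF1,
      fun h => hF2 ((arrowsT_equiv ε F H').1 h)⟩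

end MP3240E
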