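import Pool.Agent.Lib.MP_3240be_co.D62.Defs

/-!
# MP_3240be_co, determiners for two graphs, row FR2: sparse constraint systems
-/

set_option autoImplicit false

namespace MP3240E

open Pool.Agent.Lib.MP_3240be_co.H82 (Sparse1 Linear)
open Pool.Agent.Lib.MP_3240be_co.H36.Chrom (good Leaf)

/-- Row FR2. -/
theorem fr2_proof (re2 : Re2Statement) : Fr2Statement := by
  classical
  intro T _ ρ hne hconst g
  obtain ⟨V, M, hV, hM, δ, hδ, hmono, hsp⟩ := good (g + 2) T Bool
  have := Fintype.ofFinite M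
  -- satisfiable subfamilies
  let Sat : Finset M → Prop := fun D => ∃ s : V → Bool, ∀ m ∈ D, ρ (fun t => s (δ m t))
  have hT : Nonempty T := by
    by_contra hT
    obtain ⟨p, hp⟩ := hne
    have e : p = fun _ => true := funext fun t => absurd ⟨t⟩ hT
    rw [e] at hp
    exact hconst true hp
  have hsat0 : Sat ∅ := ⟨fun _ => true, fun m hm => absurd hm (Finset.notMem_empty _)⟩
  have hsat1 : ¬ Sat Finset.univ := by
    rintro ⟨s, hs⟩
    obtain ⟨m, hm⟩ := hmono s
    obtain ⟨t0⟩ := hT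
    apply hconst (s (δ m t0))
    have e : (fun _ : T => s (δ m t0)) = fun t => s (δ m t) := funext fun t => hm t0 t
    rw [e]
    exact hs m (Finset.mem_univ _)
  obtain ⟨D, m0, hm0, hD, hD'⟩ : ∃ (D : Finset M) (m0 : M), m0 ∉ D ∧ Sat D ∧
      ¬ Sat (insert m0 D) := by
    by_contra hcon
    push Not at hcon
    have main : ∀ D : Finset M, Sat D := by
      intro D
      induction D using Finset.induction_on with
      | empty => exact hsat0
      | insert m D hm ih => exact hcon D m hm ih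
    exact hsat1 (main _)
  -- the relation of the rest on the points of `m0`
  let R : (T → Bool) → Prop := fun p => ∃ s : V → Bool, (∀ m ∈ D, ρ (fun t => s (δ m t))) ∧
    ∀ t, s (δ m0 t) = p t
  obtain ⟨r, hrr, ⟨p0, hp0⟩, hforce⟩ := re2 T R (by
      obtain ⟨s, hs⟩ := hD
      exact ⟨_, s, hs, fun t => rfl⟩) (by
      obtain ⟨p, hp⟩ := hne
      refine ⟨p, ?_⟩
      rintro ⟨s, hs1, hs2⟩
      apply hD'
      refine ⟨s, fun m hm => ?_⟩
      rcases Finset.mem_insert.1 hm with h | h
      · rw [h]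
        have e : (fun t => s (δ m0 t)) = p := funext hs2
        rw [e]
        exact hp
      · exact hs1 m h)
  -- identification
  let q : V → V := fun x => if h : ∃ t, δ m0 t = x then δ m0 (r h.choose) else x
  have hq0 : ∀ t, q (δ m0 t) = δ m0 (r t) := by
    intro t
    have h : ∃ t', δ m0 t' = δ m0 t := ⟨t, rfl⟩
    simp only [q, dif_pos h]
    rw [hδ m0 h.choose_spec]
  have hq1 : ∀ x, (∀ t, δ m0 t ≠ x) → q x = x := by
    intro x hx
    have h : ¬ ∃ t, δ m0 t = x := by
      push Not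
      exact hx
    simp only [q, dif_neg h]
  have hqeq : ∀ x y, q x = q y → x = y ∨ ((∃ t, δ m0 t = x) ∧ ∃ t, δ m0 t = y) := by
    intro x y hxy
    by_cases hx : ∃ t, δ m0 t = x
    · by_cases hy : ∃ t, δ m0 t = y
      · exact Or.inr ⟨hx, hy⟩
      · push Not at hy
        obtain ⟨t, rfl⟩ := hx
        rw [hq0, hq1 y hy] at hxy
        exact absurd hxy (hy _)
    · by_cases hy : ∃ t, δ m0 t = y
      · push Not at hx
        obtain ⟨t, rfl⟩ := hy
        rw [hq0, hq1 x hx] at hxy
        exact absurd hxy.symm (hx _)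
      · push Not at hx hy
        rw [hq1 x hx, hq1 y hy] at hxy
        exact Or.inl hxy
  -- two old hyperedges share at most one point
  have hlin : ∀ m m', m ≠ m' → ∀ t t' s s', δ m t = δ m' t' → δ m s = δ m' s' → t = s := by
    intro m m' hmm t t' s s' h1 h2
    have hcard : ({m, m'} : Finset M).card = 2 := Finset.card_pair hmm
    obtain ⟨x, hx, y, hy, hxy, hlx, hly⟩ := hsp {m, m'} (by omega) (by omega)
    have hml : Leaf δ {m, m'} m := by
      rcases Finset.mem_insert.1 hx with h | h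
      · exact h ▸ hlx
      · rcases Finset.mem_insert.1 hy with h' | h'
        · exact h' ▸ hly
        · rw [Finset.mem_singleton] at h h'
          exact absurd (h.trans h'.symm) hxy
    exact hδ m (hml m' (by simp) m' (by simp) hmm.symm hmm.symm t t' s s' h1 h2)
  let M' : Type := {m : M // m ∈ D}
  have hne0 : ∀ m : M', m.1 ≠ m0 := fun m h => hm0 (h ▸ m.2)
  let δ' : M' → T → V := fun m t => q (δ m.1 t)
  -- shared points of the new hyperedges
  have hshare : ∀ (m m' : M'), m ≠ m' → ∀ t t', δ' m t = δ' m' t' →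
      (∃ k, (k = m'.1 ∨ k = m0) ∧ ∃ s, δ m.1 t = δ k s) := by
    intro m m' hmm t t' h
    rcases hqeq _ _ h with h1 | ⟨⟨s, hs⟩, _⟩
    · exact ⟨m'.1, Or.inl rfl, t', h1⟩
    · exact ⟨m0, Or.inr rfl, s, hs.symm⟩
  have hinj : ∀ m, Function.Injective (δ' m) := by
    intro m t s hts
    rcases hqeq _ _ hts with h1 | ⟨⟨t1, h2⟩, ⟨t2, h3⟩⟩
    · exact hδ m.1 h1
    · exact hlin m.1 m0 (hne0 m) t t1 s t2 h2.symm h3.symm
  have hleafnew : ∀ (S : Finset M') (m : M'), m ∈ S →
      Leaf δ (insert m0 (S.image Subtype.val)) m.1 → Leaf δ' S m := by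
    intro S m hm hl m' hm' m'' hm'' hne' hne'' t t' s s' e1 e2
    obtain ⟨k1, hk1, s1, hs1⟩ := hshare m m' hne'.symm t t' e1
    obtain ⟨k2, hk2, s2, hs2⟩ := hshare m m'' hne''.symm s s' e2
    have mem : ∀ (k : M) (l : M'), l ∈ S → (k = l.1 ∨ k = m0) →
        k ∈ insert m0 (S.image Subtype.val) := by
      intro k l hl hk
      rcases hk with rfl | rfl
      · exact Finset.mem_insert_of_mem (Finset.mem_image_of_mem _ hl)
      · exact Finset.mem_insert_self _ _
    have ne : ∀ (k : M) (l : M'), l ≠ m → (k = l.1 ∨ k = m0) → k ≠ m.1 := by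
      intro k l hl hk
      rcases hk with rfl | rfl
      · exact fun h => hl (Subtype.ext h)
      · exact fun h => hne0 m h.symm
    have := hl k1 (mem k1 m' hm' hk1) k2 (mem k2 m'' hm'' hk2) (ne k1 m' hne' hk1)
      (ne k2 m'' hne'' hk2) t s1 s s2 hs1 hs2
    show q (δ m.1 t) = q (δ m.1 s)
    rw [this]
  have hsp1 : Sparse1 (g + 2) δ' := by
    intro S h2 hg
    have hnotin : m0 ∉ S.image Subtype.val := by
      intro h
      obtain ⟨m, _, hm⟩ := Finset.mem_image.1 h
      exact hne0 m hm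
    have hcard : (insert m0 (S.image Subtype.val)).card = S.card + 1 := by
      rw [Finset.card_insert_of_notMem hnotin, Finset.card_image_of_injective _
        Subtype.val_injective]
    obtain ⟨x, hx, y, hy, hxy, hlx, hly⟩ := hsp (insert m0 (S.image Subtype.val)) (by omega)
      (by omega)
    have key : ∀ z, z ∈ insert m0 (S.image Subtype.val) → z ≠ m0 →
        Leaf δ (insert m0 (S.image Subtype.val)) z → ∃ m ∈ S, Leaf δ' S m := by
      intro z hz hz0 hl
      rcases Finset.mem_insert.1 hz with h | h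
      · exact absurd h hz0
      · obtain ⟨m, hm, rfl⟩ := Finset.mem_image.1 h
        exact ⟨m, hm, hleafnew S m hm hl⟩
    by_cases hx0 : x = m0
    · exact key y hy (fun h => hxy (hx0.trans h.symm)) hly
    · exact key x hx hx0 hlx
  -- new solutions give patterns and conversely
  have hdown : ∀ s : V → Bool, (∀ m, ρ (fun t => s (δ' m t))) →
      R (fun t => (fun t' => s (δ m0 t')) (r t)) := by
    intro s hs
    exact ⟨fun x => s (q x), fun m hm => hs ⟨m, hm⟩, fun t => by
      show s (q (δ m0 t)) = s (δ m0 (r t))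
      rw [hq0]⟩
  have hup : ∀ p : T → Bool, R (fun t => p (r t)) → ∃ s : V → Bool,
      (∀ m, ρ (fun t => s (δ' m t))) ∧ ∀ t, s (δ m0 t) = p (r t) := by
    rintro p ⟨s, hs1, hs2⟩
    refine ⟨s, fun m => ?_, hs2⟩
    have hsq : ∀ x, s (q x) = s x := by
      intro x
      by_cases hx : ∃ t, δ m0 t = x
      · obtain ⟨t, rfl⟩ := hx
        rw [hq0, hs2, hs2]
        simp only [hrr]
      · push Not at hx
        rw [hq1 x hx]
    have e : (fun t => s (δ' m t)) = fun t => s (δ m.1 t) := funext fun t => hsq _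
    rw [e]
    exact hs1 m.1 m.2
  refine ⟨V, M', hV, inferInstance, δ', hinj, fun S h2 hg => hsp1 S h2 (by omega), ?_, ?_, ?_⟩
  · -- linearity
    intro m m' hmm t t' s s' e1 e2
    have hcard : ({m, m'} : Finset M').card = 2 := Finset.card_pair hmm
    obtain ⟨x, hx, hl⟩ := hsp1 {m, m'} (by omega) (by omega)
    rcases Finset.mem_insert.1 hx with h | h
    · subst h
      exact hinj x (hl m' (by simp) m' (by simp) hmm.symm hmm.symm t t' s s' e1 e2)
    · rw [Finset.mem_singleton] at h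
      subst h
      have := hl m (by simp) m (by simp) hmm hmm t' t s' s e1.symm e2.symm
      exact hinj m (by rw [e1, e2, this])
  · obtain ⟨s, hs, _⟩ := hup p0 hp0
    exact ⟨s, hs⟩
  · rcases hforce with ⟨u, b, h⟩ | ⟨u, v, huv, h1, ⟨p1, hp1, h11, h12⟩, ⟨p2, hp2, h21, h22⟩⟩ |
      ⟨u, v, huv, h1, ⟨p1, hp1, h11⟩, ⟨p2, hp2, h21⟩⟩
    · refine Or.inl ⟨δ m0 (r u), b, fun s hs => ?_⟩
      exact h (fun t' => s (δ m0 t')) (hdown s hs)
    · refine Or.inr (Or.inl ⟨δ m0 (r u), δ m0 (r v), fun e => huv (hδ m0 e),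
        fun s hs => h1 (fun t' => s (δ m0 t')) (hdown s hs), ?_, ?_⟩)
      · obtain ⟨s, hs, hs'⟩ := hup p1 hp1
        refine ⟨s, hs, ?_, ?_⟩
        · rw [hs', hrr, h11]
        · rw [hs', hrr, h12]
      · obtain ⟨s, hs, hs'⟩ := hup p2 hp2
        refine ⟨s, hs, ?_, ?_⟩
        · rw [hs', hrr, h21]
        · rw [hs', hrr, h22]
    · refine Or.inr (Or.inr ⟨δ m0 (r u), δ m0 (r v), fun e => huv (hδ m0 e),
        fun s hs => h1 (fun t' => s (δ m0 t')) (hdown s hs), ?_, ?_⟩)
      · obtain ⟨s, hs, hs'⟩ := hup p1 hp1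
        exact ⟨s, hs, by rw [hs', hrr, h11]⟩
      · obtain ⟨s, hs, hs'⟩ := hup p2 hp2
        exact ⟨s, hs, by rw [hs', hrr, h21]⟩

end MP3240E
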