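import Pool.Agent.Lib.MP_3240be_co.D62.Defs
import Pool.Agent.Lib.MP_3240be_co.S62.Gdx
import Pool.Agent.Lib.MP_3240be_co.S62.Mox

/-!
# MP_3240be_co, row GA2: the whole gadget of the pair
-/

set_option autoImplicit false

namespace MP3240E

open Finset
open MP3240G (TwoCn Bi Big Tiny IsNc Mx Fam Blobbed Prs GmcStatement LrgStatement NbcStatement)
open MP3240Q (Mono Bip SG Sub)
open MP3240S (RBase BBase Star Full prs_sub prs_of mox_prs mox_star mox_full)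
open Pool.Agent.Lib.MP_3240be_co.H82 (TC)

/-- A large graph is not contained in a tiny graph. -/
theorem not_sub_tiny2 (hLrg : LrgStatement) {h : ℕ} {A x : SG} (hA : Big h A)
    (hx : Tiny h x) : ¬ Sub A.2 x.2 := by
  rintro ⟨f, hf, hadj⟩
  obtain ⟨hTwo, κ, hκ⟩ := hA
  obtain ⟨κ', h1, h2⟩ := hx
  refine hLrg A.1 h A.2 κ hTwo.conn hκ (Fin x.1) f (univ.filter (fun v => κ' v = true)) hf h2 ?_
  intro i j hij
  have h3 := h1 _ _ (hadj i j hij)
  simp only [mem_filter, mem_univ, true_and]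
  revert h3
  cases κ' (f i) <;> cases κ' (f j) <;> simp

theorem ga2_proof (hPga : PgaStatement) (hKla : KlaStatement) (hUna : UnaStatement)
    (hCaa : CaaStatement) (hGmc : GmcStatement) (hLrg : LrgStatement)
    (hNbc : NbcStatement) : Ga2Statement := by
  classical
  intro h n m N fm Tn A B h1 hfin hbig hmxA hmxB htcA htcB hdet hmin hTn htiny hn hN
  have hbA : Big h A := hbig _ hmxA.1
  have hbB : Big h B := hbig _ hmxB.1
  have hbip : ∀ x ∈ fm, Bip x.2 := by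
    intro x hx
    obtain ⟨_, κ, hκ⟩ := hbig x hx
    exact ⟨κ, hκ.prop⟩
  have hfinU : ∀ D : SG, {x : SG | x ∈ Tn ∨ (x ∈ fm ∧ ¬ Sub D.2 x.2)}.Finite := fun D =>
    (hTn.union hfin).subset (by
      rintro x (hx | hx)
      · exact Or.inl hx
      · exact Or.inr hx.1)
  have hnotU : ∀ D : SG, Big h D →
      ∀ x ∈ {x : SG | x ∈ Tn ∨ (x ∈ fm ∧ ¬ Sub D.2 x.2)}, ¬ Sub D.2 x.2 := by
    rintro D hD x (hx | hx)
    · exact not_sub_tiny2 hLrg hD (htiny x hx)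
    · exact hx.2
  obtain ⟨L, Q, hL, hQ, S, hG⟩ := hPga A.1 B.1 n m h N fm A.2 B.2
    {x | x ∈ Tn ∨ (x ∈ fm ∧ ¬ Sub A.2 x.2)} {x | x ∈ Tn ∨ (x ∈ fm ∧ ¬ Sub B.2 x.2)} htcA htcB
    hbA.1 hbB.1 hbip hmxB (hNbc B.1 fm B.2 htcB hmxB) (hfinU A) (hnotU A hbA) (hfinU B)
    (hnotU B hbB) hn hN h1 hdet
  -- the gadgets of the pairs
  let J0 : Type := {p : SG × SG // Mx fm p.1 ∧ Mx fm p.2 ∧
    ¬ ((Sub p.1.2 A.2 ∧ Sub p.2.2 B.2) ∨ (Sub p.1.2 B.2 ∧ Sub p.2.2 A.2))}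
  have hJ0 : Finite J0 := by
    have h2 : (fm ×ˢ fm).Finite := hfin.prod hfin
    have h3 := h2.to_subtype
    exact Finite.of_injective (β := (fm ×ˢ fm : Set (SG × SG)))
      (fun p : J0 => ⟨p.1, p.2.1.1, p.2.2.1.1⟩) (fun p q e => Subtype.ext (by
        have := congrArg (fun z => z.1) e
        exact this))
  have hkg : ∀ p : J0, ∃ (X : Type) (_ : Finite X) (Γ : SimpleGraph X),
      (∃ C, G2 A.2 B.2 Γ C) ∧ Arr2 p.1.1 p.1.2 Γ := fun p =>
    hKla h fm A B h1 hfin hbig hmxA hmxB htcA htcB hmin p.1.1 p.1.2 p.2.1 p.2.2.1 p.2.2.2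
  choose X hX Γ hgood hpair using hkg
  obtain ⟨X', hX', Γ', ⟨Cg, hCg, hCgn⟩, htn⟩ := hGmc h Tn fm h1 hTn hfin htiny
    (fun x hx => (hbig x hx).2)
  -- all gadgets
  let XX : J0 ⊕ Unit → Type := fun j => Sum.elim X (fun _ => X') j
  have hXX : ∀ j, Finite (XX j) := by
    rintro (j | j)
    · exact hX j
    · exact hX'
  let ΓΓ : ∀ j, SimpleGraph (XX j) := fun j => match j with
    | .inl p => Γ p
    | .inr _ => Γ'
  obtain ⟨L', hL', S', i, i', hB', htwo, hi, hi', hS, hΓ⟩ := hUna A.1 B.1 n m h A.2 B.2 hbA.1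
    hbB.1 L Q S hG.base (J0 ⊕ Unit) XX ΓΓ (by
      rintro (p | u)
      · exact hgood p
      · exact ⟨Cg, hCg, fun f => hCgn A.1 A.2 hbA.1.conn hbA.2 true f,
          fun f => hCgn B.1 B.2 hbB.1.conn hbB.2 false f⟩)
  refine ⟨L', Q, hL', hQ, S', hB', htwo, ?_⟩
  intro C hC
  have hprs : ∀ (j : J0 ⊕ Unit) (c : Bool) (x : SG) (f : Fin x.1 → XX j),
      Mono (ΓΓ j) (fun u v => C (Sum.inl (i' j u)) (Sum.inl (i' j v))) x.2 c f →
      Prs S' C c x := fun j c x f hf => prs_of (hi' j) (hΓ j) hf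
  rcases hCaa fm Tn A B (fun c x => Prs S' C c x) hfin hmxA hmxB
      (fun c x y hs hy => prs_sub S' C c x y hs hy) (by
        intro x y hx hy hxy
        rcases hpair ⟨(x, y), hx, hy, hxy⟩
            (fun u v => C (Sum.inl (i' (.inl ⟨(x, y), hx, hy, hxy⟩) u))
              (Sum.inl (i' (.inl ⟨(x, y), hx, hy, hxy⟩) v))) (fun u v => hC _ _) with
          ⟨f, hf⟩ | ⟨f, hf⟩
        · exact Or.inl (hprs (.inl ⟨(x, y), hx, hy, hxy⟩) true x f hf)
        · exact Or.inr (hprs (.inl ⟨(x, y), hx, hy, hxy⟩) false y f hf)) (by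
        intro c
        rcases htn (fun u v => C (Sum.inl (i' (.inr ()) u)) (Sum.inl (i' (.inr ()) v)))
            (fun u v => hC _ _) c with h2 | h2
        · left
          intro x hx
          obtain ⟨f, hf⟩ := h2 x hx
          exact hprs (.inr ()) c x f hf
        · right
          intro x hx
          obtain ⟨f, hf⟩ := h2 x hx
          exact hprs (.inr ()) (!c) x f hf) with h2 | ⟨-, cr, hcA, hcB⟩
  · exact Or.inl h2
  · right
    have hnA : ¬ Prs S (fun u v => C (Sum.map i id u) (Sum.map i id v)) cr ⟨A.1, A.2⟩ :=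
      fun hp => hcA (mox_prs hi hS hp)
    have hnB : ¬ Prs S (fun u v => C (Sum.map i id u) (Sum.map i id v)) (!cr) ⟨B.1, B.2⟩ :=
      fun hp => hcB (mox_prs hi hS hp)
    obtain ⟨h3, h4, h5⟩ := hG.arr (fun u v => C (Sum.map i id u) (Sum.map i id v))
      (fun u v => hC _ _) cr hnA hnB
    refine ⟨cr, fun x hx => mox_prs hi hS (h3 x hx), fun x hx => mox_prs hi hS (h4 x hx), ?_⟩
    rcases h5 with ⟨q, hq⟩ | ⟨zf, hz⟩
    · exact Or.inl ⟨q, mox_star hi hS hq⟩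
    · exact Or.inr ⟨zf, mox_full hi hS hz⟩

end MP3240E
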