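import Pool.Agent.Lib.MP_3240be_co.D62.Defs
import Pool.Agent.Lib.MP_3240be_co.S62.Gdx

/-!
# MP_3240be_co, row GD2: the whole gadget for one cross-connected graph with given killers
-/

set_option autoImplicit false

namespace MP3240E

open Finset
open MP3240G (TwoCn Bi Big Tiny IsNc Mx Fam Blobbed Prs GmcStatement LrgStatement NbcStatement)
open MP3240Q (Mono Bip SG Sub)
open MP3240S (Gdg RBase BBase PgcStatement MoxStatement UnxStatement CaxStatement prs_sub prs_of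
  not_sub_tiny)
open Pool.Agent.Lib.MP_3240be_co.H82 (TC)

theorem sub_rfl {U : Type} (A : SimpleGraph U) : Sub A A :=
  ⟨id, Function.injective_id, fun _ _ h => h⟩

theorem gd2_proof (hPgc : PgcStatement) (hMox : MoxStatement) (hUnx : UnxStatement)
    (hCax : CaxStatement) (hGmc : GmcStatement) (hLrg : LrgStatement)
    (hNbc : NbcStatement) : Gd2Statement := by
  classical
  intro h k n m m₁ N fm Tn D h1 hfin hbig hmx htc hkil hTn htiny hn hN hm
  have hmx' : Mx {x | x ∈ fm ∧ Sub x.2 D} ⟨k, D⟩ := ⟨⟨hmx.1, sub_rfl D⟩, fun y hy _ => hy.2⟩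
  have hF : Fam h {x | x ∈ fm ∧ Sub x.2 D} D :=
    ⟨h1, hfin.subset fun x hx => hx.1, fun x hx => hbig x hx.1, hmx',
      hNbc k _ D htc hmx', fun x hx hxD => absurd hx.1.2 hxD, Or.inr htc⟩
  have hbigD : Big h ⟨k, D⟩ := hbig _ hmx.1
  obtain ⟨L, Q, hL, hQ, S, hG⟩ := hPgc h k n m m₁ N _ D
    {x | x ∈ Tn ∨ (x ∈ fm ∧ ¬ Sub D x.2)} {x | x ∈ fm ∧ ¬ Sub D x.2 ∧ Sub x.2 D} hF htc
    ((hTn.union hfin).subset (by
      rintro x (hx | hx)
      · exact Or.inl hx
      · exact Or.inr hx.1)) (by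
      rintro x (hx | hx)
      · exact not_sub_tiny hLrg hF (htiny x hx)
      · exact hx.2) (hfin.subset fun x hx => hx.1) (fun x hx => hx.2.1) hn hN hm
  -- the gadgets of the pairs
  let J0 : Type := {p : SG × SG // Mx fm p.1 ∧ Mx fm p.2 ∧ ¬ (Sub p.1.2 D ∧ Sub p.2.2 D)}
  have hJ0 : Finite J0 := by
    have h2 : (fm ×ˢ fm).Finite := hfin.prod hfin
    have h3 := h2.to_subtype
    exact Finite.of_injective (β := (fm ×ˢ fm : Set (SG × SG)))
      (fun p : J0 => ⟨p.1, p.2.1.1, p.2.2.1.1⟩) (fun p q e => Subtype.ext (by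
        have := congrArg (fun z => z.1) e
        exact this))
  have hkg : ∀ p : J0, ∃ (X : Type) (_ : Finite X) (Γ : SimpleGraph X),
      (∃ C, G2 D D Γ C) ∧ Arr2 p.1.1 p.1.2 Γ := fun p =>
    hkil p.1.1 p.1.2 p.2.1 p.2.2.1 p.2.2.2
  choose X hX Γ hgood hpair using hkg
  obtain ⟨X', hX', Γ', ⟨Cg, hCg, hCgn⟩, htn⟩ := hGmc h Tn fm h1 hTn hfin htiny
    (fun x hx => (hbig x hx).2)
  -- all gadgets
  let XX : J0 ⊕ Unit → Type := fun j => Sum.elim X (fun _ => X') j
  have hXX : ∀ j, Finite (XX j) := by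
    rintro (j | j)
    · exact hX j
    · exact hX'
  let ΓΓ : ∀ j, SimpleGraph (XX j) := fun j => match j with
    | .inl p => Γ p
    | .inr _ => Γ'
  obtain ⟨L', hL', S', i, i', hB', htwo, hi, hi', hS, hΓ⟩ := hUnx k n m h m₁ D hbigD.1 L Q S
    hG.base (J0 ⊕ Unit) XX ΓΓ (by
      rintro (p | u)
      · obtain ⟨C, hC⟩ := hgood p
        refine ⟨C, hC.symm, ?_⟩
        intro c f
        cases c
        · exact hC.blue f
        · exact hC.red f
      · exact ⟨Cg, hCg, fun c f => hCgn k D hbigD.1.conn hbigD.2 c f⟩)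
  refine ⟨L', Q, hL', hQ, S', hB', htwo, ?_⟩
  intro C hC
  obtain ⟨hm1, hm2⟩ := hMox k n m h (m₁ + 1) N D {x | x ∈ Tn ∨ (x ∈ fm ∧ ¬ Sub D x.2)} L L' Q
    S S' i hi hS C
  have hprs : ∀ (j : J0 ⊕ Unit) (c : Bool) (x : SG) (f : Fin x.1 → XX j),
      Mono (ΓΓ j) (fun u v => C (Sum.inl (i' j u)) (Sum.inl (i' j v))) x.2 c f →
      Prs S' C c x := fun j c x f hf => prs_of (hi' j) (hΓ j) hf
  have hmain := hG.arr (fun u v => C (Sum.map i id u) (Sum.map i id v)) (fun u v => hC _ _)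
  rcases hCax fm Tn ⟨k, D⟩ (fun c x => Prs S' C c x) hfin hmx
      (fun c x y hs hy => prs_sub S' C c x y hs hy) (by
        intro x y hx hy hxy
        rcases hpair ⟨(x, y), hx, hy, hxy⟩
            (fun u v => C (Sum.inl (i' (.inl ⟨(x, y), hx, hy, hxy⟩) u))
              (Sum.inl (i' (.inl ⟨(x, y), hx, hy, hxy⟩) v))) (fun u v => hC _ _) with
          ⟨f, hf⟩ | ⟨f, hf⟩
        · exact Or.inl (hprs (.inl ⟨(x, y), hx, hy, hxy⟩) true x f hf)
        · exact Or.inr (hprs (.inl ⟨(x, y), hx, hy, hxy⟩) false y f hf)) (by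
        intro c
        rcases htn (fun u v => C (Sum.inl (i' (.inr ()) u)) (Sum.inl (i' (.inr ()) v)))
            (fun u v => hC _ _) c with h2 | h2
        · left
          intro x hx
          obtain ⟨f, hf⟩ := h2 x hx
          exact hprs (.inr ()) c x f hf
        · right
          intro x hx
          obtain ⟨f, hf⟩ := h2 x hx
          exact hprs (.inr ()) (!c) x f hf) (by
        rcases hmain with ⟨c, h2⟩ | ⟨-, h2⟩
        · exact Or.inl ⟨c, hm2 c _ h2⟩
        · right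
          intro c x hx hx1 hx2
          exact hm2 c x (h2 c x ⟨hx, hx1, hx2⟩)) with h2 | ⟨h2, h3⟩
  · exact Or.inl h2
  · right
    refine ⟨h3, ?_⟩
    rcases hmain with ⟨c, h4⟩ | ⟨h4, -⟩
    · exact absurd (hm2 c _ h4) (h2 c)
    · exact hm1 h4

end MP3240E
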