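import Pool.Agent.Lib.MP_3240be_co.D62.Defs
import Pool.Agent.Lib.MP_3240be_co.S62.At2

set_option autoImplicit false

/-!
# MP_3240be_co, board t3d_modules, row GLE: gluing bipartite pieces along edges (helper50)
-/

namespace MP3240E

open Pool.Agent.Lib.MP_3240be_co.H82 (TC)
open MP3240Q (Bip)

section Glue

variable {W J : Type} {U : J → Type}

open Classical in
/-- The embedding of the piece `j`: terminals go to the base, other vertices are private. -/
noncomputable def ja (T : ∀ j, U j → Prop) (t : ∀ j, U j → W) (j : J) (u : U j) :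
    W ⊕ (Σ j, U j) :=
  if T j u then Sum.inl (t j u) else Sum.inr ⟨j, u⟩

variable {T : ∀ j, U j → Prop} {t : ∀ j, U j → W}

theorem ja_pos {j : J} {u : U j} (h : T j u) : ja T t j u = Sum.inl (t j u) := if_pos h

theorem ja_neg {j : J} {u : U j} (h : ¬ T j u) : ja T t j u = Sum.inr ⟨j, u⟩ := if_neg h

theorem ja_eq_inl {j : J} {u : U j} {x : W} (h : ja T t j u = Sum.inl x) :
    T j u ∧ t j u = x := by
  by_cases hu : T j u
  · rw [ja_pos hu] at h
    exact ⟨hu, Sum.inl_injective h⟩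
  · rw [ja_neg hu] at h
    exact absurd h (by simp)

theorem ja_eq_inr {j : J} {u : U j} {q : Σ j, U j} (h : ja T t j u = Sum.inr q) :
    (⟨j, u⟩ : Σ j, U j) = q ∧ ¬ T j u := by
  by_cases hu : T j u
  · rw [ja_pos hu] at h
    exact absurd h (by simp)
  · rw [ja_neg hu] at h
    exact ⟨Sum.inr_injective h, hu⟩

theorem ja_inj (ht : ∀ j u v, T j u → T j v → t j u = t j v → u = v) (j : J) :
    Function.Injective (ja T t j) := by
  intro u v h
  by_cases hv : T j v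
  · rw [ja_pos hv] at h
    obtain ⟨h1, h2⟩ := ja_eq_inl h
    exact ht j u v h1 hv h2
  · rw [ja_neg hv] at h
    have h1 := (ja_eq_inr h).1
    exact eq_of_heq (Sigma.mk.inj_iff.1 h1).2

theorem ja_common {j j' : J} {u : U j} {u' : U j'} (hne : j ≠ j')
    (h : ja T t j u = ja T t j' u') : T j u ∧ T j' u' ∧ t j u = t j' u' := by
  by_cases hv : T j' u'
  · rw [ja_pos hv] at h
    obtain ⟨h1, h2⟩ := ja_eq_inl h
    exact ⟨h1, hv, h2⟩
  · rw [ja_neg hv] at h
    exact absurd (Sigma.mk.inj_iff.1 (ja_eq_inr h).1).1 hne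

/-- The graph obtained from `G` by attaching `S j` for every `j`. -/
def Glu (G : SimpleGraph W) (S : ∀ j, SimpleGraph (U j)) (T : ∀ j, U j → Prop)
    (t : ∀ j, U j → W) (ht : ∀ j u v, T j u → T j v → t j u = t j v → u = v) :
    SimpleGraph (W ⊕ (Σ j, U j)) where
  Adj x y := (∃ u v, G.Adj u v ∧ Sum.inl u = x ∧ Sum.inl v = y) ∨
    (∃ j u v, (S j).Adj u v ∧ ja T t j u = x ∧ ja T t j v = y)
  symm := ⟨by
    rintro _ _ (⟨u, v, h, h1, h2⟩ | ⟨j, u, v, h, h1, h2⟩)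
    · exact Or.inl ⟨v, u, h.symm, h2, h1⟩
    · exact Or.inr ⟨j, v, u, h.symm, h2, h1⟩⟩
  loopless := ⟨by
    rintro _ (⟨u, v, h, h1, h2⟩ | ⟨j, u, v, h, h1, h2⟩)
    · exact h.ne (Sum.inl_injective (h1.trans h2.symm))
    · exact h.ne (ja_inj ht j (h1.trans h2.symm))⟩

variable {G : SimpleGraph W} {S : ∀ j, SimpleGraph (U j)}
  (ht : ∀ j u v, T j u → T j v → t j u = t j v → u = v)

theorem Glu_base {u v : W} (h : G.Adj u v) : (Glu G S T t ht).Adj (Sum.inl u) (Sum.inl v) :=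
  Or.inl ⟨u, v, h, rfl, rfl⟩

theorem Glu_piece {j : J} {u v : U j} (h : (S j).Adj u v) :
    (Glu G S T t ht).Adj (ja T t j u) (ja T t j v) :=
  Or.inr ⟨j, u, v, h, rfl, rfl⟩

theorem Glu_base_ind (hG : ∀ j u v, T j u → T j v → ((S j).Adj u v ↔ G.Adj (t j u) (t j v)))
    {u v : W} (h : (Glu G S T t ht).Adj (Sum.inl u) (Sum.inl v)) : G.Adj u v := by
  rcases h with ⟨u', v', h, h1, h2⟩ | ⟨j, u', v', h, h1, h2⟩
  · rw [← Sum.inl_injective h1, ← Sum.inl_injective h2]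
    exact h
  · obtain ⟨h3, h4⟩ := ja_eq_inl h1
    obtain ⟨h5, h6⟩ := ja_eq_inl h2
    rw [← h4, ← h6]
    exact (hG j u' v' h3 h5).1 h

theorem Glu_piece_ind (hG : ∀ j u v, T j u → T j v → ((S j).Adj u v ↔ G.Adj (t j u) (t j v)))
    {j : J} {u v : U j} (h : (Glu G S T t ht).Adj (ja T t j u) (ja T t j v)) :
    (S j).Adj u v := by
  rcases h with ⟨u', v', h, h1, h2⟩ | ⟨j', u', v', h, h1, h2⟩
  · obtain ⟨h3, h4⟩ := ja_eq_inl h1.symm
    obtain ⟨h5, h6⟩ := ja_eq_inl h2.symm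
    rw [← h4, ← h6] at h
    exact (hG j u v h3 h5).2 h
  · by_cases hj : j' = j
    · subst hj
      rw [← ja_inj ht j' h1, ← ja_inj ht j' h2]
      exact h
    · obtain ⟨h3, h4, h5⟩ := ja_common hj h1
      obtain ⟨h6, h7, h8⟩ := ja_common hj h2
      have h9 := (hG j' u' v' h3 h6).1 h
      rw [h5, h8] at h9
      exact (hG j u v h4 h7).2 h9

/-- Neighbours of a private vertex. -/
theorem Glu_private {j : J} {u : U j} {y : W ⊕ (Σ j, U j)}
    (h : (Glu G S T t ht).Adj (Sum.inr ⟨j, u⟩) y) :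
    ¬ T j u ∧ ∃ v, (S j).Adj u v ∧ y = ja T t j v := by
  rcases h with ⟨u', v', h, h1, h2⟩ | ⟨j', u', v', h, h1, h2⟩
  · exact absurd h1 (by simp)
  · obtain ⟨h3, h4⟩ := ja_eq_inr h1
    cases h3
    exact ⟨h4, v', h, h2.symm⟩

theorem Glu_base_nbr {u : W} {j : J} {v : U j}
    (h : (Glu G S T t ht).Adj (Sum.inl u) (Sum.inr ⟨j, v⟩)) : ∃ w, T j w ∧ t j w = u := by
  obtain ⟨_, w, _, hw⟩ := Glu_private ht h.symm
  exact ⟨w, ja_eq_inl hw.symm⟩

/-- A proper 2-colouring of the graph with the attached pieces. -/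
theorem Glu_bip (cl₀ : W → Bool) (h0 : ∀ x y, G.Adj x y → cl₀ x ≠ cl₀ y)
    (cl₁ : ∀ j, U j → Bool) (h1 : ∀ j x y, (S j).Adj x y → cl₁ j x ≠ cl₁ j y) (s : J → Bool)
    (hs : ∀ j u, T j u → cl₀ (t j u) = xor (cl₁ j u) (s j)) :
    Bip (Glu G S T t ht) := by
  let cl : W ⊕ (Σ j, U j) → Bool := Sum.elim cl₀ (fun q => xor (cl₁ q.1 q.2) (s q.1))
  have h2 : ∀ j u, cl (ja T t j u) = xor (cl₁ j u) (s j) := by
    intro j u
    by_cases hu : T j u
    · rw [ja_pos hu]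
      exact hs j u hu
    · rw [ja_neg hu]
      rfl
  refine ⟨cl, ?_⟩
  rintro _ _ (⟨u, v, h, rfl, rfl⟩ | ⟨j, u, v, h, rfl, rfl⟩)
  · exact h0 u v h
  · rw [h2, h2]
    have h3 := h1 j u v h
    revert h3
    cases cl₁ j u <;> cases cl₁ j v <;> cases s j <;> decide

include ht in
/-- Colourings of the base and of the pieces that agree on the terminals. -/
theorem Glu_colour (c : W → W → Bool) (hc : ∀ x y, c x y = c y x)
    (d : ∀ j, U j → U j → Bool) (hd : ∀ j x y, d j x y = d j y x)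
    (hcd : ∀ j u v, T j u → T j v → (S j).Adj u v → d j u v = c (t j u) (t j v)) :
    ∃ C : W ⊕ (Σ j, U j) → W ⊕ (Σ j, U j) → Bool, (∀ x y, C x y = C y x) ∧
      (∀ u v, C (Sum.inl u) (Sum.inl v) = c u v) ∧
      ∀ j u v, (S j).Adj u v → C (ja T t j u) (ja T t j v) = d j u v := by
  classical
  let P : W ⊕ (Σ j, U j) → W ⊕ (Σ j, U j) → Bool → Prop := fun x y b =>
    (∃ u v, Sum.inl u = x ∧ Sum.inl v = y ∧ c u v = b) ∨
    (∃ j u v, (S j).Adj u v ∧ ja T t j u = x ∧ ja T t j v = y ∧ d j u v = b)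
  have hsym : ∀ x y b, P x y b → P y x b := by
    rintro x y b (⟨u, v, h1, h2, h3⟩ | ⟨j, u, v, h, h1, h2, h3⟩)
    · exact Or.inl ⟨v, u, h2, h1, by rw [hc, h3]⟩
    · exact Or.inr ⟨j, v, u, h.symm, h2, h1, by rw [hd, h3]⟩
  have hmix : ∀ u v j u' v', (S j).Adj u' v' →
      (Sum.inl u : W ⊕ (Σ j, U j)) = ja T t j u' →
      (Sum.inl v : W ⊕ (Σ j, U j)) = ja T t j v' → c u v = d j u' v' := by
    intro u v j u' v' h h1 h2
    obtain ⟨h3, h4⟩ := ja_eq_inl h1.symm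
    obtain ⟨h5, h6⟩ := ja_eq_inl h2.symm
    rw [hcd j u' v' h3 h5 h, h4, h6]
  have hfun : ∀ x y b b', P x y b → P x y b' → b = b' := by
    rintro x y b b' (⟨u, v, h1, h2, h3⟩ | ⟨j, u, v, h, h1, h2, h3⟩)
      (⟨u', v', k1, k2, k3⟩ | ⟨j', u', v', k, k1, k2, k3⟩)
    · rw [← h3, ← k3, Sum.inl_injective (h1.trans k1.symm), Sum.inl_injective (h2.trans k2.symm)]
    · rw [← h3, ← k3]
      exact hmix u v j' u' v' k (h1.trans k1.symm) (h2.trans k2.symm)
    · rw [← h3, ← k3]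
      exact (hmix u' v' j u v h (k1.trans h1.symm) (k2.trans h2.symm)).symm
    · by_cases hj : j = j'
      · subst hj
        rw [← h3, ← k3, ja_inj ht j (h1.trans k1.symm), ja_inj ht j (h2.trans k2.symm)]
      · obtain ⟨e1, e2, e3⟩ := ja_common hj (h1.trans k1.symm)
        obtain ⟨e4, e5, e6⟩ := ja_common hj (h2.trans k2.symm)
        rw [← h3, ← k3, hcd j u v e1 e4 h, hcd j' u' v' e2 e5 k, e3, e6]
  have key : ∀ x y b, P x y b → decide (P x y true) = b := by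
    intro x y b h
    cases b
    · refine decide_eq_false (fun h' => ?_)
      exact absurd (hfun x y _ _ h h') (by decide)
    · exact decide_eq_true h
  refine ⟨fun x y => decide (P x y true), fun x y => ?_, fun u v => ?_, fun j u v h => ?_⟩
  · show decide (P x y true) = decide (P y x true)
    by_cases h : P x y true
    · rw [decide_eq_true h, decide_eq_true (hsym _ _ _ h)]
    · rw [decide_eq_false h, decide_eq_false (fun h' => h (hsym _ _ _ h'))]
  · exact key _ _ _ (Or.inl ⟨u, v, rfl, rfl, rfl⟩)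
  · exact key _ _ _ (Or.inr ⟨j, u, v, h, rfl, rfl, rfl⟩)

end Glue

theorem gle_proof : GleStatement := by
  classical
  intro W J _ _ G U _ S e₁ e₂ p₁ p₂ he hS hp
  let T : ∀ j, U j → Prop := fun j u => u = e₁ j ∨ u = e₂ j
  obtain ⟨t, t1, t2⟩ : ∃ t : ∀ j, U j → W, (∀ j, t j (e₁ j) = p₁ j) ∧
      ∀ j, t j (e₂ j) = p₂ j := by
    refine ⟨fun j u => if u = e₁ j then p₁ j else p₂ j, fun j => if_pos rfl, fun j => ?_⟩
    simp only [if_neg (he j).ne.symm]
  have T1 : ∀ j, T j (e₁ j) := fun j => Or.inl rfl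
  have T2 : ∀ j, T j (e₂ j) := fun j => Or.inr rfl
  have ht : ∀ j u v, T j u → T j v → t j u = t j v → u = v := by
    intro j
    have b1 := (hp j).ne
    rintro u v (rfl | rfl) (rfl | rfl) h <;> simp only [t1, t2] at h
    · rfl
    · exact absurd h b1
    · exact absurd h.symm b1
    · rfl
  have hG : ∀ j u v, T j u → T j v → ((S j).Adj u v ↔ G.Adj (t j u) (t j v)) := by
    intro j
    have b1 := hp j
    have b2 := he j
    rintro u v (rfl | rfl) (rfl | rfl) <;> simp only [t1, t2]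
    · exact ⟨fun h => absurd rfl h.ne, fun h => absurd rfl h.ne⟩
    · exact ⟨fun _ => b1, fun _ => b2⟩
    · exact ⟨fun _ => b1.symm, fun _ => b2.symm⟩
    · exact ⟨fun h => absurd rfl h.ne, fun h => absurd rfl h.ne⟩
  choose cl hcl using hS
  refine ⟨W ⊕ (Σ j, U j), inferInstance, Glu G S T t ht, Sum.inl, ja T t, Sum.inl_injective,
    ja_inj ht, fun j => ⟨?_, ?_⟩, fun u v => ⟨Glu_base_ind ht hG, Glu_base ht⟩,
    fun j u v => ⟨Glu_piece_ind ht hG, Glu_piece ht⟩, ?_, ?_, ?_, ?_, ?_⟩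
  · rw [ja_pos (T1 j), t1]
  · rw [ja_pos (T2 j), t2]
  · rintro ⟨cl₀, h0⟩
    refine Glu_bip ht cl₀ h0 cl hcl (fun j => xor (cl j (e₁ j)) (cl₀ (p₁ j))) ?_
    rintro j u (rfl | rfl)
    · rw [t1]
      cases cl j (e₁ j) <;> cases cl₀ (p₁ j) <;> rfl
    · rw [t2]
      have h6 := h0 _ _ (hp j)
      have h8 := hcl j _ _ (he j)
      show _ = xor (cl j (e₂ j)) (xor (cl j (e₁ j)) (cl₀ (p₁ j)))
      revert h6 h8
      cases cl j (e₁ j) <;> cases cl j (e₂ j) <;> cases cl₀ (p₁ j) <;> cases cl₀ (p₂ j) <;>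
        decide
  · intro u w h
    rcases w with v | ⟨j, v⟩
    · exact Or.inl ⟨v, rfl⟩
    · obtain ⟨x, hx1, hx2⟩ := Glu_base_nbr ht h
      refine Or.inr ⟨j, ?_⟩
      rcases hx1 with rfl | rfl
      · exact Or.inl (by rw [← hx2, t1])
      · exact Or.inr (by rw [← hx2, t2])
  · intro j u w h
    obtain ⟨h1, h2⟩ := ja_eq_inl h
    rcases h1 with rfl | rfl
    · exact Or.inl (by rw [← h2, t1])
    · exact Or.inr (by rw [← h2, t2])
  · intro c d hc hd hcd
    refine Glu_colour (S := S) (T := T) (t := t) ht c hc d hd ?_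
    rintro j u v (rfl | rfl) (rfl | rfl) h <;> simp only [t1, t2]
    · exact absurd rfl h.ne
    · exact hcd j
    · rw [hd, hcd, hc]
    · exact absurd rfl h.ne
  · intro n E hE f hfi hadj
    by_cases hall : ∀ i, ∃ w, f i = Sum.inl w
    · exact Or.inl hall
    right
    push Not at hall
    obtain ⟨i0, hi0⟩ := hall
    rcases hfi0 : f i0 with w | ⟨j, u⟩
    · exact absurd hfi0 (hi0 w)
    refine ⟨j, ?_⟩
    obtain ⟨k, hik⟩ := hE.nbr i0
    have h1 := hadj i0 k hik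
    rw [hfi0] at h1
    have hTu := (Glu_private ht h1).1
    have hlow := MP3240S.sep_low hE f hfi (S j) (cl j) (hcl j) (ja T t j) (ja_inj ht j)
      (e₁ j) (e₂ j) (he j) (fun i => ∃ v, ¬ T j v ∧ f i = Sum.inr ⟨j, v⟩)
      (by
        rintro x ⟨v, hv, hx⟩
        exact ⟨v, by rw [ja_neg hv, hx], fun h => hv (h ▸ T1 j), fun h => hv (h ▸ T2 j)⟩)
      ⟨i0, u, hTu, hfi0⟩ (by
        rintro x y hxy ⟨v, hv, hx⟩
        have h3 := hadj x y hxy
        rw [hx] at h3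
        obtain ⟨_, v', hadj', hv'⟩ := Glu_private ht h3
        refine ⟨?_, v, v', by rw [ja_neg hv, hx], hv', hadj'⟩
        by_cases hT : T j v'
        · rcases hT with rfl | rfl
          · exact Or.inr (Or.inl hv')
          · exact Or.inr (Or.inr hv')
        · rw [ja_neg hT] at hv'
          exact Or.inl ⟨v', hT, hv'⟩)
    intro i
    by_cases c1 : f i = ja T t j (e₁ j)
    · exact ⟨_, c1⟩
    · by_cases c2 : f i = ja T t j (e₂ j)
      · exact ⟨_, c2⟩
      · obtain ⟨v, hv, hi⟩ := hlow i c1 c2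
        exact ⟨v, by rw [ja_neg hv, hi]⟩

end MP3240E
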