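import Pool.Agent.Lib.MP_3240be_co.D62.Defs
import Pool.Agent.Lib.MP_3240be_co.S62.At2

set_option autoImplicit false

/-!
# MP_3240be_co, board t3d_modules, row GLS: gluing long bipartite pieces (helper50)
-/

namespace MP3240E

open Pool.Agent.Lib.MP_3240be_co.H82
open MP3240Q (Bip)

theorem gls_proof : GlsStatement := by
  classical
  intro K W J U _ _ _ G S e₁ e₂ f₁ f₂ ℓ hℓ he hf hℓ1 hℓ2 hℓ3 hℓ4 hb₁ p₁ p₂ q₁ q₂ hp hq hpq hnon
  have ne1 : e₁ ≠ f₁ := fun h => by rw [← h] at hℓ3; omega
  have ne2 : e₁ ≠ f₂ := fun h => by rw [← h] at hℓ4; omega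
  have ne3 : e₂ ≠ f₁ := fun h => by rw [← h] at hℓ3; omega
  have ne4 : e₂ ≠ f₂ := fun h => by rw [← h] at hℓ4; omega
  have nn1 : ¬ S.Adj e₁ f₁ := fun h => by have := hℓ _ _ h; omega
  have nn2 : ¬ S.Adj e₁ f₂ := fun h => by have := hℓ _ _ h; omega
  have nn3 : ¬ S.Adj e₂ f₁ := fun h => by have := hℓ _ _ h; omega
  have nn4 : ¬ S.Adj e₂ f₂ := fun h => by have := hℓ _ _ h; omega
  let T : U → Prop := fun u => u = e₁ ∨ u = e₂ ∨ u = f₁ ∨ u = f₂
  obtain ⟨t, t1, t2, t3, t4⟩ : ∃ t : J → U → W, (∀ j, t j e₁ = p₁ j) ∧ (∀ j, t j e₂ = p₂ j) ∧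
      (∀ j, t j f₁ = q₁ j) ∧ ∀ j, t j f₂ = q₂ j := by
    refine ⟨fun j u => if u = e₁ then p₁ j else if u = e₂ then p₂ j else if u = f₁ then q₁ j else
      q₂ j, fun j => if_pos rfl, fun j => ?_, fun j => ?_, fun j => ?_⟩
    · simp only [if_neg he.ne.symm, if_true]
    · simp only [if_neg ne1.symm, if_neg ne3.symm, if_true]
    · simp only [if_neg ne2.symm, if_neg ne4.symm, if_neg hf.ne.symm]
  have T1 : T e₁ := Or.inl rfl
  have T2 : T e₂ := Or.inr (Or.inl rfl)
  have T3 : T f₁ := Or.inr (Or.inr (Or.inl rfl))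
  have T4 : T f₂ := Or.inr (Or.inr (Or.inr rfl))
  have ht : ∀ j u v, T u → T v → t j u = t j v → u = v := by
    intro j
    obtain ⟨a1, a2, a3, a4⟩ := hpq j
    have b1 := (hp j).ne
    have b2 := (hq j).ne
    rintro u v (rfl | rfl | rfl | rfl) (rfl | rfl | rfl | rfl) h <;>
      simp only [t1, t2, t3, t4] at h
    · rfl
    · exact absurd h b1
    · exact absurd h a1
    · exact absurd h a2
    · exact absurd h.symm b1
    · rfl
    · exact absurd h a3
    · exact absurd h a4
    · exact absurd h.symm a1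
    · exact absurd h.symm a3
    · rfl
    · exact absurd h b2
    · exact absurd h.symm a2
    · exact absurd h.symm a4
    · exact absurd h.symm b2
    · rfl
  have hG : ∀ j u v, T u → T v → (S.Adj u v ↔ G.Adj (t j u) (t j v)) := by
    intro j
    obtain ⟨a1, a2, a3, a4⟩ := hnon j
    have b1 := hp j
    have b2 := hq j
    rintro u v (rfl | rfl | rfl | rfl) (rfl | rfl | rfl | rfl) <;>
      simp only [t1, t2, t3, t4]
    · exact ⟨fun h => absurd rfl h.ne, fun h => absurd rfl h.ne⟩
    · exact ⟨fun _ => b1, fun _ => he⟩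
    · exact ⟨fun h => absurd h nn1, fun h => absurd h a1⟩
    · exact ⟨fun h => absurd h nn2, fun h => absurd h a2⟩
    · exact ⟨fun _ => b1.symm, fun _ => he.symm⟩
    · exact ⟨fun h => absurd rfl h.ne, fun h => absurd rfl h.ne⟩
    · exact ⟨fun h => absurd h nn3, fun h => absurd h a3⟩
    · exact ⟨fun h => absurd h nn4, fun h => absurd h a4⟩
    · exact ⟨fun h => absurd h.symm nn1, fun h => absurd h.symm a1⟩
    · exact ⟨fun h => absurd h.symm nn3, fun h => absurd h.symm a3⟩
    · exact ⟨fun h => absurd rfl h.ne, fun h => absurd rfl h.ne⟩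
    · exact ⟨fun _ => b2, fun _ => hf⟩
    · exact ⟨fun h => absurd h.symm nn2, fun h => absurd h.symm a2⟩
    · exact ⟨fun h => absurd h.symm nn4, fun h => absurd h.symm a4⟩
    · exact ⟨fun _ => b2.symm, fun _ => hf.symm⟩
    · exact ⟨fun h => absurd rfl h.ne, fun h => absurd rfl h.ne⟩
  obtain ⟨cl₁, hcl₁, hcl₂⟩ := hb₁
  refine ⟨W ⊕ (J × U), inferInstance, Att G S T t ht, Sum.inl, ia T t, Sum.inl_injective,
    ia_inj ht, fun j => ⟨?_, ?_, ?_, ?_⟩, fun u v => ⟨Att_base_ind ht hG, Att_base ht⟩,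
    fun j u v => ⟨Att_piece_ind ht hG, Att_piece ht⟩, ?_, ?_, ?_⟩
  · rw [ia_pos T1, t1]
  · rw [ia_pos T2, t2]
  · rw [ia_pos T3, t3]
  · rw [ia_pos T4, t4]
  · rintro ⟨cl₀, h1, h2⟩
    obtain ⟨cl, h5, _⟩ := Att_bip (G := G) (S := S) (T := T) (t := t) ht cl₀ h1 cl₁ hcl₁
      (fun j => xor (cl₁ e₁) (cl₀ (p₁ j))) (by
        intro j u hu
        have h6 := h1 _ _ (hp j)
        have h7 := h1 _ _ (hq j)
        have h8 := hcl₁ _ _ he
        have h9 := hcl₁ _ _ hf
        have h10 := h2 j
        show _ = xor (cl₁ u) (xor (cl₁ e₁) (cl₀ (p₁ j)))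
        rcases hu with rfl | rfl | rfl | rfl
        · rw [t1]
          cases cl₁ u <;> cases cl₀ (p₁ j) <;> rfl
        · rw [t2]
          revert h6 h8
          cases cl₁ e₁ <;> cases cl₁ u <;> cases cl₀ (p₁ j) <;> cases cl₀ (p₂ j) <;> decide
        · rw [t3, ← h10]
          revert hcl₂
          cases cl₁ e₁ <;> cases cl₁ u <;> cases cl₀ (p₁ j) <;> decide
        · rw [t4]
          rw [← h10] at h7
          revert hcl₂ h7 h9
          cases cl₁ e₁ <;> cases cl₁ f₁ <;> cases cl₁ u <;> cases cl₀ (p₁ j) <;>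
            cases cl₀ (q₂ j) <;> decide)
    exact ⟨cl, h5⟩
  · intro c d hc hd hcd hcd'
    refine Att_colour (S := S) (T := T) (t := t) ht c hc d hd ?_
    rintro j u v (rfl | rfl | rfl | rfl) (rfl | rfl | rfl | rfl) h <;>
      simp only [t1, t2, t3, t4]
    · exact absurd rfl h.ne
    · exact hcd j
    · exact absurd h nn1
    · exact absurd h nn2
    · rw [hd, hcd, hc]
    · exact absurd rfl h.ne
    · exact absurd h nn3
    · exact absurd h nn4
    · exact absurd h.symm nn1
    · exact absurd h.symm nn3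
    · exact absurd rfl h.ne
    · exact hcd' j
    · exact absurd h.symm nn2
    · exact absurd h.symm nn4
    · rw [hd, hcd', hc]
    · exact absurd rfl h.ne
  · intro n E hE hnK f hfi hadj
    by_cases hall : ∀ i, ∃ w, f i = Sum.inl w
    · exact Or.inl hall
    right
    push Not at hall
    obtain ⟨i0, hi0⟩ := hall
    rcases hfi0 : f i0 with w | ⟨j, u⟩
    · exact absurd hfi0 (hi0 w)
    refine ⟨j, ?_⟩
    obtain ⟨k, hik⟩ := hE.nbr i0
    have h1 := hadj i0 k hik
    rw [hfi0] at h1
    have hTu := Att_private_not ht h1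
    -- an unoccupied level
    obtain ⟨s, hs1, hs2, hs⟩ : ∃ s, 1 ≤ s ∧ s ≤ n + 1 ∧
        ∀ i v, f i = Sum.inr (j, v) → ℓ v ≠ s := by
      by_contra hcon
      push Not at hcon
      have : Nonempty (Fin n) := ⟨i0⟩
      choose! g hg using hcon
      let φ : Fin (n + 1) → Fin n := fun s => g (s.1 + 1)
      have hφ : Function.Injective φ := by
        intro s s' hss
        obtain ⟨v, hv1, hv2⟩ := hg (s.1 + 1) (by omega) (by omega)
        obtain ⟨v', hv1', hv2'⟩ := hg (s'.1 + 1) (by omega) (by omega)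
        have e1 : g (s.1 + 1) = g (s'.1 + 1) := hss
        rw [e1, hv1'] at hv1
        have e2 := (Prod.ext_iff.1 (Sum.inr_injective hv1)).2
        simp only at e2
        rw [← e2, hv2'] at hv2
        exact Fin.ext (by omega)
      have := Fintype.card_le_of_injective φ hφ
      simp at this
    have hℓu := hs i0 u hfi0
    rcases lt_or_gt_of_ne hℓu with hlt | hgt
    · -- the low part
      have hlow := MP3240S.sep_low hE f hfi S cl₁ hcl₁ (ia T t j) (ia_inj ht j) e₁ e₂ he
        (fun i => ∃ v, ¬ T v ∧ f i = Sum.inr (j, v) ∧ ℓ v < s)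
        (by
          rintro x ⟨v, hv, hx, -⟩
          exact ⟨v, by rw [ia_neg hv, hx], fun h => hv (h ▸ T1), fun h => hv (h ▸ T2)⟩)
        ⟨i0, u, hTu, hfi0, hlt⟩ (by
          rintro x y hxy ⟨v, hv, hx, hlv⟩
          have h3 := hadj x y hxy
          rw [hx] at h3
          obtain ⟨v', hadj', hv'⟩ := Att_private ht h3
          have h4 := hℓ _ _ hadj'
          refine ⟨?_, v, v', by rw [ia_neg hv, hx], hv', hadj'⟩
          by_cases hT : T v'
          · rcases hT with rfl | rfl | rfl | rfl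
            · exact Or.inr (Or.inl hv')
            · exact Or.inr (Or.inr hv')
            · exfalso
              omega
            · exfalso
              omega
          · rw [ia_neg hT] at hv'
            have h5 := hs y v' hv'
            exact Or.inl ⟨v', hT, hv', by omega⟩)
      intro i
      by_cases c1 : f i = ia T t j e₁
      · exact ⟨_, c1⟩
      · by_cases c2 : f i = ia T t j e₂
        · exact ⟨_, c2⟩
        · obtain ⟨v, hv, hi, _⟩ := hlow i c1 c2
          exact ⟨v, by rw [ia_neg hv, hi]⟩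
    · -- the high part
      have hlow := MP3240S.sep_low hE f hfi S cl₁ hcl₁ (ia T t j) (ia_inj ht j) f₁ f₂ hf
        (fun i => ∃ v, ¬ T v ∧ f i = Sum.inr (j, v) ∧ s < ℓ v)
        (by
          rintro x ⟨v, hv, hx, -⟩
          exact ⟨v, by rw [ia_neg hv, hx], fun h => hv (h ▸ T3), fun h => hv (h ▸ T4)⟩)
        ⟨i0, u, hTu, hfi0, hgt⟩ (by
          rintro x y hxy ⟨v, hv, hx, hlv⟩
          have h3 := hadj x y hxy
          rw [hx] at h3
          obtain ⟨v', hadj', hv'⟩ := Att_private ht h3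
          have h4 := hℓ _ _ hadj'.symm
          refine ⟨?_, v, v', by rw [ia_neg hv, hx], hv', hadj'⟩
          by_cases hT : T v'
          · rcases hT with rfl | rfl | rfl | rfl
            · exfalso
              omega
            · exfalso
              omega
            · exact Or.inr (Or.inl hv')
            · exact Or.inr (Or.inr hv')
          · rw [ia_neg hT] at hv'
            have h5 := hs y v' hv'
            exact Or.inl ⟨v', hT, hv', by omega⟩)
      intro i
      by_cases c1 : f i = ia T t j f₁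
      · exact ⟨_, c1⟩
      · by_cases c2 : f i = ia T t j f₂
        · exact ⟨_, c2⟩
        · obtain ⟨v, hv, hi, _⟩ := hlow i c1 c2
          exact ⟨v, by rw [ia_neg hv, hi]⟩

end MP3240E
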