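import Pool.Agent.Lib.MP_3240be_co.D62.Defs
import Pool.Agent.Lib.MP_3240be_co.H62.Kgd

set_option autoImplicit false

/-!
# MP_3240be_co, row KG2 of the board t3d_modules: killers for two graphs (adaptation of
`H62/Kgd.lean`)
-/

namespace MP3240E

open MP3240G
open MP3240Q (Mono Cop Bip SG Sub XS Nb TypStatement LinStatement Lin)
open Pool.Agent.Lib.MP_3240be_co.H36.Chrom (Sparse)

/-- Row KG2. -/
theorem kg2_proof (htyp : TypStatement) (hlin : LinStatement) (hwga : WgaStatement)
    (hwgr : WgrStatement) (hwgb : WgbStatement) (hgab : GabStatement) (hblb : BlbStatement) :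
    Kg2Statement := by
  classical
  intro h k k' fam A A' U B h1 hfam hAfam hAfam' hnob hnob' hU hNc hB hAB hAB'
  -- the colourings
  have hex : ∀ c, ∃ κ : Fin (U c).1 → Bool, Bi (U c).2 κ h ∧
      (IsNc h (U c) → Nonempty (Nc (U c).2 κ)) := by
    intro c
    by_cases hc : IsNc h (U c)
    · obtain ⟨κ, h2, h3⟩ := hc
      exact ⟨κ, h2, fun _ => h3⟩
    · obtain ⟨κ, h2⟩ := (hfam _ (hU c)).2
      exact ⟨κ, h2, fun h3 => absurd h3 hc⟩
  choose κ hκ hκN using hex
  have hed : ∀ c, ∃ p : Fin (U c).1 × Fin (U c).1, (U c).2.Adj p.1 p.2 := by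
    intro c
    have h3 := (hfam _ (hU c)).1
    have h4 := h3.three
    have hne : (⟨0, by omega⟩ : Fin (U c).1) ≠ ⟨1, by omega⟩ := by
      intro e
      exact absurd (Fin.mk.inj e) (by omega)
    obtain ⟨w, -, -, hw⟩ := pgd_nbr h3 hne
    exact ⟨(_, w), hw⟩
  choose p hp using hed
  let a : ∀ l : Bool, Fin (U l).1 := fun l => (p l).1
  let b : ∀ l : Bool, Fin (U l).1 := fun l => (p l).2
  let K : ℕ := (U true).1 + (U false).1
  let N2 : ℕ := 1 + 2 * K
  let Nw : ℕ := K * 2 ^ h
  let R : Type := RB U B.1 N2 B.1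
  let Ga : SimpleGraph (R ⊕ Fin B.1) := GB U a b B.2 B.2
  have hKle : ∀ c, (U c).1 ≤ K := by
    intro c
    cases c
    · exact Nat.le_add_left _ _
    · exact Nat.le_add_right _ _
  have hK3 : 3 ≤ K := le_trans (hfam _ (hU true)).1.three (hKle true)
  have hNw : 2 ≤ Nw := by
    have h2 : 1 ≤ 2 ^ h := Nat.one_le_two_pow
    have h3 : K * 1 ≤ K * 2 ^ h := Nat.mul_le_mul_left K h2
    show 2 ≤ K * 2 ^ h
    omega
  let l0 : Fin Nw ⊕ R := Sum.inl ⟨0, by omega⟩
  let l1 : Fin Nw ⊕ R := Sum.inl ⟨1, by omega⟩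
  have hl01 : l0 ≠ l1 := by
    intro e
    have := Fin.mk.inj (Sum.inl_injective e)
    omega
  have hfR : Finite R := by
    show Finite ((Σ l : Bool, Fin B.1 × Fin B.1 × Fin N2 × Fin (U l).1) ⊕ Fin B.1)
    infer_instance
  obtain ⟨I, M, hfI, hfM, δ, hδi, hδs, hδt⟩ := htyp (max (max (k * k) (k' * k')) 2) (K + 2) 1 (Fin Nw ⊕ R)
    (WS h Nw R (Fin B.1) → WS h Nw R (Fin B.1) → Bool) l0 l1 hl01
  have hδs' : Sparse (k * k) δ := by
    intro S hS1 hS2
    exact hδs S hS1 (le_trans hS2 (le_trans (le_max_left _ _) (le_max_left _ _)))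
  have hδs'' : Sparse (k' * k') δ := by
    intro S hS1 hS2
    exact hδs S hS1 (le_trans hS2 (le_trans (le_max_right _ _) (le_max_left _ _)))
  have hδl : Lin δ := hlin _ _ _ δ (max (max (k * k) (k' * k')) 2) (le_max_right _ _) hδs
  have hmain : ∀ (k : ℕ) (D : SimpleGraph (Fin k)), (⟨k, D⟩ : SG) ∈ fam → ¬ Blobbed fam D →
      ¬ Sub D B.2 → Sparse (k * k) δ → ∀ (c : Bool)
      (f : Fin k → WP h I M ⊕ (M × Fin B.1)), ¬ Mono (WG Ga δ) cG D c f := by
    intro k D hDfam hnob hDB hδs c f hf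
    have hbig : Big h ⟨k, D⟩ := hfam _ hDfam
    have htwo : TwoCn D := hbig.1
    obtain ⟨κD, hκD⟩ := hbig.2
    cases c
    · obtain ⟨g, hg1, hg2⟩ := hwgb k h Nw D κD htwo hκD I M R (Fin B.1) Ga δ hδi hδs f hf
      refine hgab Bool B.1 N2 B.1 k U a b B.2 B.2 fam D htwo ?_ hB hDB hnob g hg1 hg2
      intro l
      exact ⟨hU l, hp l, ⟨κ l, (hκ l).prop⟩⟩
    · obtain ⟨m, hm⟩ := hwgr k h Nw D κD htwo hκD I M R (Fin B.1) Ga δ f hf
      choose ζ hζ using hm
      apply hDB
      refine ⟨ζ, ?_, ?_⟩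
      · intro v v' hvv
        apply hf.1
        rw [hζ, hζ, hvv]
      · intro x y hxy
        have h2 := (hf.2 x y hxy).1
        rw [hζ, hζ, pgd_zz] at h2
        exact (pgd_base U a b B.2 B.2 _ _).1 h2.2
  refine ⟨WP h I M ⊕ (M × Fin B.1), inferInstance, WG Ga δ, ⟨cG, pgd_symm,
    hmain k A hAfam hnob hAB hδs', hmain k' A' hAfam' hnob' hAB' hδs''⟩, ?_⟩
  · intro C hC
    obtain ⟨φ, x, hx⟩ := hδt (fun m s s' => C (ws δ m s) (ws δ m s'))
    have hNc' : ∃ c, Nonempty (Nc (U c).2 (κ c)) := by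
      obtain ⟨c, hc⟩ := hNc
      exact ⟨c, hκN c hc⟩
    have key := hwga h K Nw U κ h1 (fun c => ⟨hκ c, hKle c⟩) hNc' le_rfl I M R (Fin B.1) Ga δ
      hδi hδl C hC
      (fun m => (fun s s' => C (ws δ m s) (ws δ m s')) = φ) φ
      (fun m hm s s' => congrFun (congrFun hm s) s') x hx
    rcases key with ⟨c, f, hf⟩ | ⟨col, m, -, hroles, hz⟩
    · left
      exact ⟨c, _, hf⟩
    · by_cases hex : ∃ ζ, ∃ g : Fin K → R, Function.Injective g ∧
          ∀ j, Ga.Adj (Sum.inr ζ) (Sum.inl (g j)) ∧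
            C (Sum.inr (m, ζ)) (Sum.inl (.low (δ m (Sum.inr (g j))))) = col
      · obtain ⟨ζ, hg⟩ := hex
        obtain ⟨α, hα⟩ : ∃ α, κ col α = true := by
          have h3 := (hκ col).cardA
          have h4 : (Finset.univ.filter (fun v => κ col v = true)).Nonempty := by
            rw [← Finset.card_pos]
            omega
          obtain ⟨α, hα⟩ := h4
          exact ⟨α, (Finset.mem_filter.1 hα).2⟩
        obtain ⟨f, hf1, -⟩ := hz ζ hg α hα
        left
        exact ⟨col, f, hf1⟩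
      · push Not at hex
        have hex' : ∀ ζ, ¬ ∃ g : Fin K → R, Function.Injective g ∧
          ∀ j, Ga.Adj (Sum.inr ζ) (Sum.inl (g j)) ∧
            C (Sum.inr (m, ζ)) (Sum.inl (.low (δ m (Sum.inr (g j))))) = col := by
          rintro ζ ⟨g, hg1, hg2⟩
          obtain ⟨j, hj⟩ := hex ζ g hg1
          exact hj (hg2 j).1 (hg2 j).2
        by_cases hmono : ∀ q q', B.2.Adj q q' → C (Sum.inr (m, q)) (Sum.inr (m, q')) = col
        · right
          have hbase : Mono (WG Ga δ) C B.2 col (fun q => Sum.inr (m, q)) := by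
            refine ⟨?_, ?_⟩
            · intro q q' e
              exact (Prod.mk.inj (Sum.inr_injective e)).2
            · intro q q' hqq
              refine ⟨?_, hmono q q' hqq⟩
              rw [pgd_zz]
              exact ⟨rfl, (pgd_base U a b B.2 B.2 q q').2 hqq⟩
          have hlow : Mono (WG Ga δ) C B.2 (!col)
              (fun q => Sum.inl (.low (δ m (Sum.inr (Sum.inr q))))) := by
            refine ⟨?_, ?_⟩
            · intro q q' e
              exact Sum.inr_injective (Sum.inr_injective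
                (hδi m (WP.low.inj (Sum.inl_injective e))))
            · intro q q' hqq
              have h2 : Ga.Adj (Sum.inl (Sum.inr q)) (Sum.inl (Sum.inr q')) :=
                kgd_sep U a b B.2 B.2 q q' hqq
              exact ⟨kgd_ll Ga δ hδi m _ _ h2, hroles _ _ h2⟩
          intro c
          by_cases hc : c = col
          · subst hc
            exact ⟨_, hbase⟩
          · have hc' : c = !col := Bool.eq_not_of_ne hc
            subst hc'
            exact ⟨_, hlow⟩
        · push Not at hmono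
          obtain ⟨x, y, hxy, hcxy⟩ := hmono
          have hcxy' : C (Sum.inr (m, x)) (Sum.inr (m, y)) = !col := by
            revert hcxy
            generalize C (Sum.inr (m, x)) (Sum.inr (m, y)) = c'
            intro h5
            exact Bool.eq_not_of_ne h5
          have hBl := hblb Bool B.1 N2 B.1 h Nw K 1 U a b B.2 B.2 I M δ C m col hC le_rfl
            (fun l => hp l) hδi hroles hex' x y hxy hcxy' (!col)
          obtain ⟨ν, -, hν2⟩ := hBl
          left
          exact ⟨!col, _, hν2 0⟩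

end MP3240E
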