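import Pool.Agent.Lib.MP_3240be_co.D62.Defs

/-!
# MP_3240be_co, row KLA: killers for all pairs except the chosen one (helper9)
-/

set_option autoImplicit false

namespace MP3240E

open MP3240G (TwoCn Big Mx Blobbed IsNc)
open MP3240Q (Mono Bip SG Sub)
open Pool.Agent.Lib.MP_3240be_co.H82 (TC)

namespace Kla

/-- Graphs that contain each other are isomorphic. -/
theorem sub_equiv {a e : ℕ} {A : SimpleGraph (Fin a)} {E : SimpleGraph (Fin e)} (h1 : Sub A E)
    (h2 : Sub E A) : ∃ φ : Fin a ≃ Fin e, ∀ x y, A.Adj x y ↔ E.Adj (φ x) (φ y) := by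
  classical
  obtain ⟨f, hf, hfE⟩ := h1
  obtain ⟨g, hg, hgE⟩ := h2
  have hae : a = e := le_antisymm (by simpa using Fintype.card_le_of_injective f hf)
    (by simpa using Fintype.card_le_of_injective g hg)
  have hfb : Function.Bijective f :=
    (Fintype.bijective_iff_injective_and_card f).2 ⟨hf, by simp [hae]⟩
  refine ⟨Equiv.ofBijective f hfb, fun x y => ⟨hfE x y, fun hxy => ?_⟩⟩
  let F : E.edgeSet → E.edgeSet := fun ε => ⟨ε.1.map (f ∘ g), by
    obtain ⟨ε, he⟩ := ε
    induction ε using Sym2.ind with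
    | _ u v => exact hfE _ _ (hgE u v he)⟩
  have hFinj : Function.Injective F := fun ε ε' h =>
    Subtype.ext (Sym2.map.injective (hf.comp hg) (congrArg Subtype.val h))
  obtain ⟨⟨ε, he⟩, h1⟩ := (Finite.injective_iff_surjective.1 hFinj) ⟨s(f x, f y), hxy⟩
  have h2 : ε.map (f ∘ g) = s(f x, f y) := congrArg Subtype.val h1
  induction ε using Sym2.ind with
  | _ u v =>
    have h3 : s(f (g u), f (g v)) = s(f x, f y) := h2
    have h4 : A.Adj (g u) (g v) := hgE u v he
    rcases Sym2.eq_iff.1 h3 with ⟨h5, h6⟩ | ⟨h5, h6⟩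
    · rw [← hf h5, ← hf h6]
      exact h4
    · rw [← hf h5, ← hf h6]
      exact h4.symm

theorem tc_iso {p : Prop} {U V : Type} {A : SimpleGraph U} {E : SimpleGraph V} (φ : U ≃ V)
    (hφ : ∀ x y, A.Adj x y ↔ E.Adj (φ x) (φ y)) (h : TC p A) : TC p E where
  ne := h.ne.map φ
  third x y := by
    obtain ⟨z, h1, h2⟩ := h.third (φ.symm x) (φ.symm y)
    exact ⟨φ z, fun h3 => h1 (by rw [← h3, φ.symm_apply_apply]),
      fun h3 => h2 (by rw [← h3, φ.symm_apply_apply])⟩
  bip hp := by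
    obtain ⟨κ, hκ⟩ := h.bip hp
    exact ⟨fun v => κ (φ.symm v), fun x y hxy => hκ _ _ ((hφ _ _).2 (by
      rw [φ.apply_symm_apply, φ.apply_symm_apply]
      exact hxy))⟩
  sep I J hI hJ hκ S hS hcl y hyI hyJ := by
    have h1 := h.sep (fun x => I (φ x)) (fun x => J (φ x))
      (fun x y h1 h2 => φ.injective (hI _ _ h1 h2)) (fun x y h1 h2 => φ.injective (hJ _ _ h1 h2))
      (fun hp => by
        obtain ⟨κ, h1, h2⟩ := hκ hp
        exact ⟨fun x => κ (φ x), fun x y hxy => h1 _ _ ((hφ _ _).1 hxy),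
          fun x y h3 h4 => h2 _ _ h3 h4⟩)
      (fun x => S (φ x))
      (by
        obtain ⟨x, h1, h2, h3⟩ := hS
        refine ⟨φ.symm x, ?_, ?_, ?_⟩
        · show ¬ I (φ (φ.symm x))
          rw [φ.apply_symm_apply]
          exact h1
        · show ¬ J (φ (φ.symm x))
          rw [φ.apply_symm_apply]
          exact h2
        · show S (φ (φ.symm x))
          rw [φ.apply_symm_apply]
          exact h3)
      (fun x y h1 h2 h3 h4 h5 h6 => hcl _ _ h1 h2 h3 h4 ((hφ _ _).1 h5) h6)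
      (φ.symm y)
      (by
        show ¬ I (φ (φ.symm y))
        rw [φ.apply_symm_apply]
        exact hyI)
      (by
        show ¬ J (φ (φ.symm y))
        rw [φ.apply_symm_apply]
        exact hyJ)
    have h2 : S (φ (φ.symm y)) := h1
    rwa [φ.apply_symm_apply] at h2

theorem tc_sub {a e : ℕ} {A : SimpleGraph (Fin a)} {E : SimpleGraph (Fin e)} (h1 : Sub A E)
    (h2 : Sub E A) (h : TC True A) : TC True E := by
  obtain ⟨φ, hφ⟩ := sub_equiv h1 h2
  exact tc_iso φ hφ h

end Kla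

open Kla in
/-- Row KLA. -/
theorem kla_proof (hKg : Kg2Statement) (hNcd : MP3240G.NcdStatement)
    (hNbc : MP3240G.NbcStatement) : KlaStatement := by
  intro h fm A B hh _ hbig hMA hMB hA hB hsel U V hU hV hne
  by_cases hTC : TC True U.2 ∧ TC True V.2
  · have h1 : ¬ Le2 U V A B := fun h2 => hne (hsel U V hU hTC.1 hV hTC.2 h2)
    unfold Le2 at h1
    push Not at h1
    obtain ⟨X, hX, Γ, h2, h3⟩ := h1
    unfold Arr2 at h3
    push Not at h3
    obtain ⟨C, hC, h4, h5⟩ := h3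
    exact ⟨X, hX, Γ, ⟨C, hC, h4, h5⟩, h2⟩
  · have key : ∀ (c0 : Bool) (E : SG), (bif c0 then U else V) = E → Mx fm E →
        ¬ TC True E.2 → ∃ (X : Type) (_ : Finite X) (Γ : SimpleGraph X),
          (∃ C, G2 A.2 B.2 Γ C) ∧ Arr2 U V Γ := by
      intro c0 E hEc hE hnT
      have hsub : ∀ D : SG, Mx fm D → TC True D.2 → ¬ Sub D.2 E.2 := fun D hD hT hs =>
        hnT (tc_sub hs (hD.2 E hE.1 hs) hT)
      have hnc : IsNc h E := by
        obtain ⟨h1, h2⟩ := hNcd h E (hbig E hE.1)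
        exact h1 fun h3 => hnT (h2 h3)
      have hbip : Bip E.2 := by
        obtain ⟨_, κ, hκ⟩ := hbig E hE.1
        exact ⟨κ, hκ.prop⟩
      obtain ⟨X, hX, Γ, ⟨C, hC, hCA, hCB⟩, harr⟩ := hKg h A.1 B.1 fm A.2 B.2
        (fun c => bif c then U else V) E hh hbig hMA.1 hMB.1 (hNbc A.1 fm A.2 hA hMA)
        (hNbc B.1 fm B.2 hB hMB) (by
          intro c
          cases c
          · exact hV.1
          · exact hU.1)
        ⟨c0, by
          show IsNc h (bif c0 then U else V)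
          rw [hEc]
          exact hnc⟩ hbip (hsub A hMA hA) (hsub B hMB hB)
      refine ⟨X, hX, Γ, ⟨C, hC, hCA true, hCB false⟩, fun C' hC' => ?_⟩
      rcases harr C' hC' with ⟨c, f, hf⟩ | h1
      · cases c
        · exact Or.inr ⟨f, hf⟩
        · exact Or.inl ⟨f, hf⟩
      · obtain ⟨f, hf⟩ := h1 c0
        subst hEc
        cases c0
        · exact Or.inr ⟨f, hf⟩
        · exact Or.inl ⟨f, hf⟩
    by_cases hUT : TC True U.2
    · exact key false V rfl hV fun hVT => hTC ⟨hUT, hVT⟩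
    · exact key true U rfl hU hUT

end MP3240E
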