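import Pool.Agent.Lib.MP_3240be_co.D62.Defs
import Pool.Agent.Lib.MP_3240be_co.S62.Noh
import Pool.Agent.Lib.MP_3240be_co.S62.Ars
import Pool.Agent.Lib.MP_3240be_co.S62.Num
import Pool.Agent.Lib.MP_3240be_co.S62.Asm

/-!
# MP_3240be_co, board t3d_modules, row MA2: the theorem for a pair of cross-connected graphs
-/

set_option autoImplicit false

namespace MP3240E

open Finset
open MP3240L (Two MxTwo Cl Branch gr fam)
open MP3240G (TwoCn Bi Big Tiny Nc IsNc Mx Fam Blobbed Prs)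
open MP3240Q (Mono Bip SG Sub em Gl Lin Hang XS TypStatement LinStatement)
open MP3240S (DB SB Gr GSt Mdl Dt RR Num Star Full RBase BBase NumStatement GraStatement
  GrsStatement GrfStatement EmxStatement GlcStatement LocStatement RdnStatement BdnStatement)
open Pool.Agent.Lib.MP_3240be_co.H82 (TC Sparse1 Linear)
open Pool.Agent.Lib.MP_3240be_co.H36.Chrom (Sparse ArrowsT)

/-- The arrow for one gadget of the pair. -/
theorem ma2_arr (hgra : GraStatement) (hgrs : GrsStatement) (hgrf : GrfStatement)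
    {h n m₁ m r : ℕ} {H : SimpleGraph (Fin n)} {κ : Fin n → Bool} {Tn fm : Set SG} {A B : SG}
    {X : Set (Fin n)} {y₀ y₁ : Fin n} (hAf : A ∈ fm) (hDA : Dt h H κ A.2) (hDB : Dt h H κ B.2)
    (hA : ∀ T : Set (Fin n), SB H A.2 T →
      ∃ x : SG, (x ∈ Tn ∨ (x ∈ fm ∧ ¬ Sub A.2 x.2)) ∧ Mdl H T x)
    (hB : ∀ T : Set (Fin n), SB H B.2 T →
      ∃ x : SG, (x ∈ Tn ∨ (x ∈ fm ∧ ¬ Sub B.2 x.2)) ∧ Mdl H T x)
    (hNum : Num h H κ B.2 m₁ m r X y₀ y₁) {L Q : Type} {S : SimpleGraph (L ⊕ Q)}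
    {C : L ⊕ Q → L ⊕ Q → Bool} {N : ℕ} (hC : ∀ x y, C x y = C y x)
    (hN : (n + 1) * (n + 1) ≤ N)
    (hcase : (∃ c, ∀ x ∈ Tn ∪ fm, Prs S C c x) ∨
      ∃ cr, (∀ x, (x ∈ Tn ∨ (x ∈ fm ∧ ¬ Sub A.2 x.2)) → Prs S C cr x) ∧
        (∀ x, (x ∈ Tn ∨ (x ∈ fm ∧ ¬ Sub B.2 x.2)) → Prs S C (!cr) x) ∧
        ((∃ q, Star A.2 {x | x ∈ Tn ∨ (x ∈ fm ∧ ¬ Sub A.2 x.2)} N S C cr q) ∨
          ∃ zf : Fin n × Fin (m + 1) → Q,
            Full B.2 {x | x ∈ Tn ∨ (x ∈ fm ∧ ¬ Sub B.2 x.2)} N S C (!cr) zf)) :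
    (∃ c, Gr H (GSt H S C c) Set.univ) ∨ ∃ c f, Mono S C H c f := by
  have hN1 : n + 1 ≤ N := le_trans (Nat.le_mul_of_pos_left (n + 1) (Nat.succ_pos n)) hN
  rcases hcase with ⟨c, hc⟩ | ⟨cr, h1, h2, h3⟩
  · left
    refine ⟨c, hgra n H L Q S C c hDA.conn ?_⟩
    intro T hT
    by_cases hs : Sub A.2 (H.induce T)
    · exact ⟨⟨A.1, A.2⟩, hDA.iso T ⟨hT, hs⟩, hc _ (Or.inr hAf)⟩
    · obtain ⟨x, hx, hm⟩ := hA T ⟨hT, hs⟩
      refine ⟨x, hm, hc x ?_⟩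
      rcases hx with hx | hx
      · exact Or.inl hx
      · exact Or.inr hx.1
  · rcases h3 with ⟨q, hst⟩ | ⟨zf, hfull⟩
    · left
      refine ⟨cr, hgrs h n A.1 H κ A.2 hDA
        {x | x ∈ Tn ∨ (x ∈ fm ∧ ¬ Sub A.2 x.2)} (fun T hT => hA T hT) L Q S C cr q hC
        (fun x hx => h1 x hx) ?_⟩
      exact ⟨fun w => MP3240S.ArsH.hang_mono hN1 (hst.1 w),
        fun x hx w => MP3240S.ArsH.hang_mono hN1 (hst.2 x hx w)⟩
    · rcases hgrf h n B.1 m₁ m r H κ B.2 X y₀ y₁ hDB hNum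
        {x | x ∈ Tn ∨ (x ∈ fm ∧ ¬ Sub B.2 x.2)} (fun T hT => hB T hT) L Q S C (!cr) zf N hC hN
        (fun x hx => h2 x hx) hfull with h4 | ⟨f, hf⟩
      · exact Or.inl ⟨!cr, h4⟩
      · exact Or.inr ⟨!(!cr), f, hf⟩

/-- The host does not arrow the larger graph. -/
theorem ma2_noh (hglc : GlcStatement) (hloc : LocStatement) (hrdn : RdnStatement)
    (hbdn : BdnStatement) {h n n' m₁ m r m₂ m' r' : ℕ} {H : SimpleGraph (Fin n)}
    {H' : SimpleGraph (Fin n')} {κ : Fin n → Bool} {A B : SG} {X X' : Set (Fin n)}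
    {y₀ y₁ y₀' y₁' : Fin n} (hDA : Dt h H κ A.2) (hDB : Dt h H κ B.2)
    (hNA : Num h H κ A.2 m₂ m' r' X' y₀' y₁') (hNB : Num h H κ B.2 m₁ m r X y₀ y₁)
    (hH' : H'.Connected) (hsub : Sub H H') (hn : n < n') {L Q I M Wt : Type}
    {S : SimpleGraph (L ⊕ Q)} {C₀ : L ⊕ Q → L ⊕ Q → Bool} {wd : Q → Wt} {δ : M → L → I}
    (hR : RBase n h h A.2 S C₀ ∅ ∅) (hB : BBase (m + 1) B.2 S C₀ wd)
    (hδ : ∀ m, Function.Injective (δ m)) (hlin : Lin δ) (hsp : Sparse (n' * n' + 2) δ) :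
    ¬ ArrowsT (Gl S δ) H' := by
  intro harr
  obtain ⟨C₁, hsym, hC₁⟩ := hglc L Q I M S C₀ δ hR.symm hδ hlin
  obtain ⟨c, f', hf', hadj'⟩ := harr C₁ hsym
  have hmono' : Mono (Gl S δ) C₁ H' c f' := ⟨hf', hadj'⟩
  obtain ⟨φ, hφ, hφ'⟩ := hsub
  have hmono : Mono (Gl S δ) C₁ H c (fun i => f' (φ i)) :=
    ⟨hf'.comp hφ, fun i j hij => hadj' _ _ (hφ' i j hij)⟩
  have hsp' : Sparse (n * n + 2) δ := by
    refine MP3240S.noh_sparse ?_ hsp
    have : n * n ≤ n' * n' := Nat.mul_le_mul hn.le hn.le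
    omega
  have hl := hloc n H L Q I M S C₀ δ C₁ hδ hlin hsp' hC₁ c _ hmono
  cases c with
  | true =>
    refine hNA.red (MP3240S.Gr.mono (fun W y hs => MP3240S.RR.mono hNA.le hs)
      (hrdn h h n A.1 n H κ A.2 hDA L Q I M S C₀ ∅ ∅ δ _ hR hδ hlin hmono.1 hl ?_))
    intro i m' q hi
    exact MP3240S.noh_pas hH' hn hR hC₁ hmono' (φ i) m' q hi
  | false =>
    exact hNB.blue (hbdn h (m + 1) n B.1 H κ B.2 hDB (Nat.succ_le_succ (Nat.zero_le m)) L Q I M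
      Wt S C₀ wd δ _ hB hδ hmono.1 hl)

/-- Row MA2. -/
theorem ma2_proof (hGa2 : Ga2Statement) (hNum : NumStatement) (hgra : GraStatement)
    (hgrs : GrsStatement) (hgrf : GrfStatement) (hEmb : EmxStatement) (hglc : GlcStatement)
    (hloc : LocStatement) (hrdn : RdnStatement) (hbdn : BdnStatement) (hTyp : TypStatement)
    (hLin : LinStatement) : Ma2Statement := by
  classical
  intro h n n' H H' κ Tn A B h1 hfin hbig hTn hTiny hmA hmB hTA hTB hdet hsel hDA hDB hsm hH'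
    hsub hlt
  obtain ⟨m₁, m, r, X, y₀, y₁, hNB⟩ := hNum h n B.1 H κ B.2 hDB
  obtain ⟨m₂, m', r', X', y₀', y₁', hNA⟩ := hNum h n A.1 H κ A.2 hDA
  have hn1 : 1 ≤ n := by
    have : Nonempty (Fin n) := hDA.conn.nonempty
    exact Fin.pos_iff_nonempty.2 this
  obtain ⟨L, Q, hL, hQ, S, ⟨C₀, Wt, wd, hR, hB⟩, ⟨l0, l1, hl⟩, harr⟩ :=
    hGa2 h n m ((n + 1) * (n + 1)) (fam H κ h) Tn A B h1 hfin hbig hmA hmB hTA hTB hdet hsel hTn
      hTiny hn1 (Nat.le_mul_of_pos_left _ (by omega) |>.trans' (by omega))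
  obtain ⟨I, M, hI, hM, δ, hδ, hsp, hty⟩ :=
    hTyp (n' * n' + 2) (n + 1) (n + 1) L (L ⊕ Q → L ⊕ Q → Bool) l0 l1 hl
  have hlin : Lin δ := hLin L I M δ (n' * n' + 2) (by omega) hsp
  refine ⟨I ⊕ (M × Q), inferInstance, Gl S δ, ?_, ?_⟩
  · intro C hC
    obtain ⟨φ, x, hx⟩ := hty (fun m s s' => C (em δ m s) (em δ m s'))
    -- one hyperedge of this type
    obtain ⟨g0, hg0, hg1⟩ := hx l0
    obtain ⟨hm, -, -⟩ := hg1 0
    have hφs : ∀ s s', φ s s' = φ s' s := by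
      intro s s'
      have h1 : C (em δ (g0 0) s) (em δ (g0 0) s') = φ s s' := congrFun (congrFun hm s) s'
      have h2 : C (em δ (g0 0) s') (em δ (g0 0) s) = φ s' s := congrFun (congrFun hm s') s
      rw [← h1, ← h2, hC]
    have hcase : (∃ c, Gr H (GSt H S φ c) Set.univ) ∨ ∃ c f, Mono S φ H c f :=
      ma2_arr hgra hgrs hgrf (Tn := Tn) (fm := fam H κ h) hmA.1 hDA hDB
        (fun T hT => hsm A T hmA.1 hT) (fun T hT => hsm B T hmB.1 hT) hNB hφs le_rfl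
        (harr φ hφs)
    rcases hcase with ⟨c, hc⟩ | ⟨c, f, hf⟩
    · obtain ⟨f, hf⟩ := hEmb n H L Q I M S δ C
        (fun m => (fun s s' => C (em δ m s) (em δ m s')) = φ) φ c hδ hlin hC
        (fun m hm s s' => congrFun (congrFun hm s) s') hc x hx
      exact ⟨c, f, hf.1, fun x y hxy => hf.2 x y hxy⟩
    · have hinj := MP3240S.em_injective (Q := Q) hδ (g0 0)
      refine ⟨c, fun q => em δ (g0 0) (f q), hinj.comp hf.1, ?_⟩
      intro q q' hqq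
      obtain ⟨h1, h2⟩ := hf.2 q q' hqq
      refine ⟨⟨fun h3 => h1.ne (hinj h3), g0 0, f q, f q', h1, rfl, rfl⟩, ?_⟩
      rw [← h2, ← hm]
  · exact ma2_noh hglc hloc hrdn hbdn hDA hDB hNA hNB hH' hsub hlt hR hB hδ hlin hsp

end MP3240E
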