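import Pool.Agent.Lib.MP_3240be_co.D62.Defs
import Pool.Agent.Lib.MP_3240be_co.S62.Asm

/-!
# MP_3240be_co, row MD2: the theorem for one cross-connected graph with given killers
-/

set_option autoImplicit false

namespace MP3240E

open Finset
open MP3240L (Two MxTwo Cl Branch gr fam)
open MP3240G (TwoCn Bi Big Tiny Mx Prs)
open MP3240Q (Mono Bip SG Sub em Gl Lin XS TypStatement LinStatement)
open MP3240S (DB SB Gr GSt Mdl Dt RR Num Star Full RBase BBase NumStatement ArsStatement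
  EmxStatement NohStatement em_injective)
open Pool.Agent.Lib.MP_3240be_co.H82 (TC)
open Pool.Agent.Lib.MP_3240be_co.H36.Chrom (Sparse ArrowsT)

theorem md2_proof (hNum : NumStatement) (hArs : ArsStatement) (hEmb : EmxStatement)
    (hNoh : NohStatement) (hGd2 : Gd2Statement) (hTyp : TypStatement)
    (hLin : LinStatement) : Md2Statement := by
  classical
  intro h n n' H H' κ Tn D h1 hfin hbig hTn hTiny hmx htc hkil hDt hsm hH' hsub hlt
  obtain ⟨m₁, m, r, X, y₀, y₁, hN⟩ := hNum h n D.1 H κ D.2 hDt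
  have hn1 : 1 ≤ n := by
    have : Nonempty (Fin n) := hDt.conn.nonempty
    exact Fin.pos_iff_nonempty.2 this
  obtain ⟨L, Q, hL, hQ, S, ⟨C₀, Hb, Lw, Wt, wd, hR, hB⟩, ⟨l0, l1, hl⟩, harr⟩ :=
    hGd2 h D.1 n m m₁ ((n + 1) * (n + 1)) (fam H κ h) Tn D.2 h1 hfin hbig hmx htc hkil hTn
      hTiny hn1 (Nat.le_mul_of_pos_left _ (by omega) |>.trans' (by omega)) hN.le
  obtain ⟨I, M, hI, hM, δ, hδ, hsp, hty⟩ :=
    hTyp (n' * n' + 2) (n + 1) (n + 1) L (L ⊕ Q → L ⊕ Q → Bool) l0 l1 hl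
  have hlin : Lin δ := hLin L I M δ (n' * n' + 2) (by omega) hsp
  refine ⟨I ⊕ (M × Q), inferInstance, Gl S δ, ?_, ?_⟩
  · intro C hC
    obtain ⟨φ, x, hx⟩ := hty (fun m s s' => C (em δ m s) (em δ m s'))
    -- one hyperedge of this type
    obtain ⟨g0, hg0, hg1⟩ := hx l0
    obtain ⟨hm, -, -⟩ := hg1 0
    have hφs : ∀ s s', φ s s' = φ s' s := by
      intro s s'
      have h1 : C (em δ (g0 0) s) (em δ (g0 0) s') = φ s s' := congrFun (congrFun hm s) s'
      have h2 : C (em δ (g0 0) s') (em δ (g0 0) s) = φ s' s := congrFun (congrFun hm s') s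
      rw [← h1, ← h2, hC]
    have hcase : (∃ c, Gr H (GSt H S φ c) Set.univ) ∨ ∃ c f, Mono S φ H c f := by
      refine hArs h n D.1 m₁ m r H κ D.2 X y₀ y₁ hDt hN
        {x | x ∈ Tn ∨ (x ∈ fam H κ h ∧ ¬ Sub D.2 x.2)} (fun T hT => hsm T hT) L Q S φ
        ((n + 1) * (n + 1)) hφs le_rfl ?_
      rcases harr φ hφs with ⟨c, hc⟩ | h1
      · refine Or.inl ⟨c, hc _ (Or.inr hmx.1), ?_⟩
        rintro x (hx | hx)
        · exact hc x (Or.inl hx)
        · exact hc x (Or.inr hx.1)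
      · exact Or.inr ⟨fun c x hx => h1.1 c x hx, h1.2⟩
    rcases hcase with ⟨c, hc⟩ | ⟨c, f, hf⟩
    · obtain ⟨f, hf⟩ := hEmb n H L Q I M S δ C
        (fun m => (fun s s' => C (em δ m s) (em δ m s')) = φ) φ c hδ hlin hC
        (fun m hm s s' => congrFun (congrFun hm s) s') hc x hx
      exact ⟨c, f, hf.1, fun x y hxy => hf.2 x y hxy⟩
    · have hinj := em_injective (Q := Q) hδ (g0 0)
      refine ⟨c, fun q => em δ (g0 0) (f q), hinj.comp hf.1, ?_⟩
      intro q q' hqq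
      obtain ⟨h1, h2⟩ := hf.2 q q' hqq
      refine ⟨⟨fun h3 => h1.ne (hinj h3), g0 0, f q, f q', h1, rfl, rfl⟩, ?_⟩
      rw [← h2, ← hm]
  · exact hNoh h n D.1 n' m₁ m r H κ D.2 X y₀ y₁ H' hDt hN hH' hsub hlt L Q I M Wt S C₀ Hb Lw wd
      δ hR hB hδ hlin hsp

end MP3240E
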