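import Pool.Agent.Lib.MP_3240be_co.D62.Defs
import Pool.Agent.Lib.MP_3240be_co.S62.Ctx
import Pool.Agent.Lib.MP_3240be_co.S62.Pgc

/-!
# MP_3240be_co, row PGA: the gadget of a pair of cross-connected graphs (helper9)
-/

set_option autoImplicit false

namespace MP3240E

open MP3240G (TwoCn Mx Blobbed Prs)
open MP3240Q (Mono Bip SG Sub Hang)
open MP3240S (Star Full RBase BBase)
open MP3240Q.Pa3 (psi psi_inj NP cS cS_symm side)
open MP3240S.Ctx (emb emb_adj emb_inj psi_emb)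
open MP3240G.Pps (mono_map map_inj prs_map)
open Pool.Agent.Lib.MP_3240be_co.H82 (TC)

namespace Pga

/-- The disjoint union of the members of a family. -/
def GU (𝓛 : Set SG) : SimpleGraph (Σ x : 𝓛, Fin x.1.1) where
  Adj s t := ∃ (x : 𝓛) (i j : Fin x.1.1), x.1.2.Adj i j ∧ s = ⟨x, i⟩ ∧ t = ⟨x, j⟩
  symm := ⟨fun _ _ ⟨x, i, j, h, h1, h2⟩ => ⟨x, j, i, h.symm, h2, h1⟩⟩
  loopless := ⟨fun _ ⟨x, i, j, h, h1, h2⟩ => by
    have h3 := Sigma.mk.inj (h1.symm.trans h2)
    exact h.ne (eq_of_heq h3.2)⟩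

theorem no_copy {p : Prop} {k : ℕ} {D : SimpleGraph (Fin k)} (hD : TC p D) {𝓛 : Set SG}
    (h𝓛 : ∀ x ∈ 𝓛, ¬ Sub D x.2) (f : Fin k → Σ x : 𝓛, Fin x.1.1)
    (hf : Function.Injective f) (hE : ∀ i j, D.Adj i j → (GU 𝓛).Adj (f i) (f j)) : False := by
  obtain ⟨i₀⟩ := hD.ne
  obtain ⟨x, i, h0⟩ : ∃ (x : 𝓛) (i : Fin x.1.1), f i₀ = ⟨x, i⟩ := ⟨(f i₀).1, (f i₀).2, rfl⟩
  have hall : ∀ u, ∃ v : Fin x.1.1, f u = ⟨x, v⟩ := by
    refine hD.conn (fun u => ∃ v : Fin x.1.1, f u = ⟨x, v⟩) ⟨i₀, i, h0⟩ ?_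
    rintro y z hyz ⟨v, hv⟩
    obtain ⟨x', i', j', _, h1, h2⟩ := hE y z hyz
    rw [hv] at h1
    obtain ⟨h4, _⟩ := Sigma.mk.inj h1
    subst h4
    exact ⟨j', h2⟩
  choose g hg using hall
  refine h𝓛 x.1 x.2 ⟨g, fun u v huv => hf (by rw [hg, hg, huv]), ?_⟩
  intro u v huv
  obtain ⟨x', i', j', h, h1, h2⟩ := hE u v huv
  rw [hg] at h1 h2
  have h3 := Sigma.mk.inj h1
  have h4 := Sigma.mk.inj h2
  obtain ⟨h5, h6⟩ := h3
  subst h5
  rw [eq_of_heq h6, eq_of_heq h4.2]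
  exact h

/-- A monochromatic copy of a connected graph in a disjoint union. -/
theorem mono_sum {p : Prop} {U A B : Type} {D : SimpleGraph U} (hD : TC p D)
    {P : SimpleGraph A} {G : SimpleGraph B} {c₁ : A → A → Bool} {c₂ : B → B → Bool} {c : Bool}
    {f : U → A ⊕ B} (hf : Mono (P ⊕g G) (cS c₁ c₂) D c f) :
    (∃ g : U → A, Mono P c₁ D c g ∧ ∀ i, f i = Sum.inl (g i)) ∨
      ∃ g : U → B, Mono G c₂ D c g ∧ ∀ i, f i = Sum.inr (g i) := by
  obtain ⟨hinj, hE⟩ := hf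
  rcases side hD P G f (fun i j hij => (hE i j hij).1) with h | h
  · left
    choose g hg using h
    refine ⟨g, ⟨fun i j hij => hinj (by rw [hg, hg, hij]), fun i j hij => ?_⟩, hg⟩
    obtain ⟨h1, h2⟩ := hE i j hij
    rw [hg, hg] at h1 h2
    exact ⟨by simpa using h1, h2⟩
  · right
    choose g hg using h
    refine ⟨g, ⟨fun i j hij => hinj (by rw [hg, hg, hij]), fun i j hij => ?_⟩, hg⟩
    obtain ⟨h1, h2⟩ := hE i j hij
    rw [hg, hg] at h1 h2
    exact ⟨by simpa using h1, h2⟩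

/-- The colours of the controlled graph: red copies of the members of `𝓡`, blue copies of the
members of `𝓛`. -/
def cU (𝓡 𝓛 : Set SG) : (Σ x : 𝓡, Fin x.1.1) ⊕ (Σ x : 𝓛, Fin x.1.1) →
    (Σ x : 𝓡, Fin x.1.1) ⊕ (Σ x : 𝓛, Fin x.1.1) → Bool :=
  cS (fun _ _ => true) (fun _ _ => false)

theorem cU_symm (𝓡 𝓛 : Set SG) : ∀ x y, cU 𝓡 𝓛 x y = cU 𝓡 𝓛 y x :=
  cS_symm _ _ (fun _ _ => rfl) (fun _ _ => rfl)

theorem no_red {p : Prop} {k : ℕ} {A : SimpleGraph (Fin k)} (hA : TC p A) {𝓡 𝓛 : Set SG}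
    (h𝓡 : ∀ x ∈ 𝓡, ¬ Sub A x.2) (f : Fin k → (Σ x : 𝓡, Fin x.1.1) ⊕ (Σ x : 𝓛, Fin x.1.1))
    (hf : Mono (GU 𝓡 ⊕g GU 𝓛) (cU 𝓡 𝓛) A true f) : False := by
  rcases mono_sum hA hf with ⟨g, hg, _⟩ | ⟨g, hg, _⟩
  · exact no_copy hA h𝓡 g hg.1 fun i j hij => (hg.2 i j hij).1
  · obtain ⟨i⟩ := hA.ne
    obtain ⟨j, hij⟩ := hA.nbr i
    exact Bool.false_ne_true (hg.2 i j hij).2

theorem no_blue {p : Prop} {k : ℕ} {B : SimpleGraph (Fin k)} (hB : TC p B) {𝓡 𝓛 : Set SG}
    (h𝓛 : ∀ x ∈ 𝓛, ¬ Sub B x.2) (f : Fin k → (Σ x : 𝓡, Fin x.1.1) ⊕ (Σ x : 𝓛, Fin x.1.1))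
    (hf : Mono (GU 𝓡 ⊕g GU 𝓛) (cU 𝓡 𝓛) B false f) : False := by
  rcases mono_sum hB hf with ⟨g, hg, _⟩ | ⟨g, hg, _⟩
  · obtain ⟨i⟩ := hB.ne
    obtain ⟨j, hij⟩ := hB.nbr i
    exact Bool.false_ne_true (hg.2 i j hij).2.symm
  · exact no_copy hB h𝓛 g hg.1 fun i j hij => (hg.2 i j hij).1

/-- A monochromatic copy lies in the old pattern. -/
theorem old {p : Prop} {k : ℕ} {D : SimpleGraph (Fin k)} (hD : TC p D) {Y X Q : Type}
    {P : SimpleGraph (Y ⊕ Q)} {G : SimpleGraph X} {c₁ : Y ⊕ Q → Y ⊕ Q → Bool}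
    {cX : X → X → Bool} {c : Bool} (hX : ∀ f : Fin k → X, ¬ Mono G cX D c f)
    {f : Fin k → (Y ⊕ X) ⊕ Q}
    (hf : Mono (NP P G) (fun s t => cS c₁ cX (psi s) (psi t)) D c f) :
    ∃ g : Fin k → Y ⊕ Q, Mono P c₁ D c g ∧ ∀ i, f i = emb Y X Q (g i) := by
  have h1 : Mono (P ⊕g G) (cS c₁ cX) D c (fun i => psi (f i)) :=
    ⟨psi_inj.comp hf.1, fun i j hij => hf.2 i j hij⟩
  rcases mono_sum hD h1 with ⟨g, hg, hfg⟩ | ⟨g, hg, _⟩
  · exact ⟨g, hg, fun i => psi_inj (by rw [psi_emb]; exact hfg i)⟩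
  · exact absurd hg (hX g)

end Pga

open Pga in
/-- Row PGA. -/
theorem pga_proof (hPta : PtaStatement) (hAtd : AtdStatement) : PgaStatement := by
  classical
  intro k k' n m h N fm A B 𝓡 𝓛 hA hB _ hB2 hbip hMx hnob hRf hR hLf hL hn hN _ hdet
  obtain ⟨Y, hY, P, c₁, hsymm, hpas, hred, hblue, harr⟩ :=
    hPta k k' n m N fm A B 𝓡 𝓛 hA hB hB2 hbip hMx hnob hRf hR hLf hL hn hN
  have hRf' : Finite 𝓡 := hRf
  have hLf' : Finite 𝓛 := hLf
  let X := (Σ x : 𝓡, Fin x.1.1) ⊕ (Σ x : 𝓛, Fin x.1.1)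
  let GX : SimpleGraph X := GU 𝓡 ⊕g GU 𝓛
  let G : SimpleGraph ((Y ⊕ X) ⊕ (Fin n × Fin (m + 1))) := NP P GX
  let c' : (Y ⊕ X) ⊕ (Fin n × Fin (m + 1)) → (Y ⊕ X) ⊕ (Fin n × Fin (m + 1)) → Bool :=
    fun s t => cS c₁ (cU 𝓡 𝓛) (psi s) (psi t)
  have hc' : ∀ x y, c' x y = c' y x := fun x y =>
    cS_symm _ _ hsymm (cU_symm 𝓡 𝓛) _ _
  let J := {q : (Y ⊕ X) × (Y ⊕ X) // G.Adj (Sum.inl q.1) (Sum.inl q.2)}
  obtain ⟨V, hV, F, ι, hι, hind, hforce, hext, hloc⟩ := hAtd k k' A B hA hB hdet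
    ((Y ⊕ X) ⊕ (Fin n × Fin (m + 1))) J G (fun w => ∃ q, w = Sum.inr q)
    (fun j => Sum.inl j.1.1) (fun j => Sum.inl j.1.2)
    (fun j => c' (Sum.inl j.1.1) (Sum.inl j.1.2)) (fun j => j.2)
    (fun j => ⟨by rintro ⟨q, hq⟩; exact absurd hq Sum.inl_ne_inr,
      by rintro ⟨q, hq⟩; exact absurd hq Sum.inl_ne_inr⟩)
  obtain ⟨Cs, hCs1, hCs2, hCs3, hCs4⟩ := hext c' hc' (fun _ => rfl)
  -- the vertices of the gadget
  let pas : Fin n × Fin (m + 1) → V := fun q => ι (Sum.inr q)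
  have hpasi : Function.Injective pas := fun q q' h => Sum.inr_injective (hι h)
  let L := {v : V // ∀ q, v ≠ pas q}
  let τ : L ⊕ (Fin n × Fin (m + 1)) → V := Sum.elim Subtype.val pas
  have hτi : Function.Injective τ := by
    rintro (l | q) (l' | q') h
    · exact congrArg Sum.inl (Subtype.ext h)
    · exact absurd h (l.2 q')
    · exact absurd h.symm (l'.2 q)
    · exact congrArg Sum.inr (hpasi h)
  have hτs : Function.Surjective τ := by
    intro v
    by_cases hv : ∃ q, v = pas q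
    · obtain ⟨q, hq⟩ := hv
      exact ⟨Sum.inr q, hq.symm⟩
    · push Not at hv
      exact ⟨Sum.inl ⟨v, hv⟩, rfl⟩
  have hYL : ∀ d : Y ⊕ X, ∀ q, ι (Sum.inl d) ≠ pas q := by
    intro d q h
    exact absurd (hι h) Sum.inl_ne_inr
  let yl : Y ⊕ X → L := fun d => ⟨ι (Sum.inl d), hYL d⟩
  have hyl : Function.Injective yl := fun d d' h =>
    Sum.inl_injective (hι (congrArg Subtype.val h))
  let σ : (Y ⊕ X) ⊕ (Fin n × Fin (m + 1)) → L ⊕ (Fin n × Fin (m + 1)) := Sum.map yl id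
  have hσ : ∀ s, τ (σ s) = ι s := by
    rintro (d | q)
    · rfl
    · rfl
  let S : SimpleGraph (L ⊕ (Fin n × Fin (m + 1))) := F.comap τ
  have hS : ∀ x y, S.Adj x y ↔ F.Adj (τ x) (τ y) := fun _ _ => Iff.rfl
  have hSσ : ∀ s t, S.Adj (σ s) (σ t) ↔ G.Adj s t := by
    intro s t
    rw [hS, hσ, hσ, hind]
  -- monochromatic copies of the intended colouring
  have hmono : ∀ (c : Bool) (r : ℕ) (D : SimpleGraph (Fin r)), TC True D →
      (∀ f : Fin r → X, ¬ Mono GX (cU 𝓡 𝓛) D c f) →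
      (∀ f : Fin r → V, Mono F Cs D c f → ∀ i, ∃ w, f i = ι w) →
      ∀ f : Fin r → L ⊕ (Fin n × Fin (m + 1)), Mono S (fun x y => Cs (τ x) (τ y)) D c f →
      ∃ g : Fin r → Y ⊕ (Fin n × Fin (m + 1)), (∀ v, f v = σ (emb Y X _ (g v))) ∧
        Mono P c₁ D c g := by
    intro c r D hD hX hin f hf
    have h1 : Mono F Cs D c (fun v => τ (f v)) := ⟨hτi.comp hf.1, hf.2⟩
    choose g hg using hin _ h1
    have h2 : Mono G c' D c g := by
      refine ⟨?_, ?_⟩
      · intro x y hxy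
        exact h1.1 (by
          show τ (f x) = τ (f y)
          rw [hg, hg, hxy])
      · intro i j hij
        obtain ⟨h3, h4⟩ := h1.2 i j hij
        simp only at h3 h4
        rw [hg, hg] at h3 h4
        exact ⟨(hind _ _).1 h3, (hCs2 _ _).symm.trans h4⟩
    obtain ⟨g', hm', hg'⟩ := old hD hX h2
    refine ⟨g', fun v => hτi ?_, hm'⟩
    rw [hg, hg', hσ]
  -- private vertices
  have hprv : ∀ (q : Fin n × Fin (m + 1)) (y : L ⊕ (Fin n × Fin (m + 1))),
      S.Adj (Sum.inr q) y → Cs (τ (Sum.inr q)) (τ y) = true →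
      q.2 = 0 ∧ ∃ z : Fin n, y = Sum.inr (z, 0) := by
    intro q y hadj hr
    rcases hloc (Sum.inr q) (τ y) hadj with ⟨v, hv⟩ | ⟨j, hj⟩
    · have h1 : F.Adj (ι (Sum.inr q)) (ι v) := by
        rw [← hv]
        exact hadj
      have h2 : (P ⊕g GX).Adj (psi (Sum.inr q)) (psi v) := (hind _ _).1 h1
      have h5 : Cs (ι (Sum.inr q)) (ι v) = true := by
        rw [← hv]
        exact hr
      have h6 : cS c₁ (cU 𝓡 𝓛) (psi (Sum.inr q)) (psi v) = true :=
        (hCs2 (Sum.inr q) v).symm.trans h5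
      rcases v with (y' | x) | q'
      · have h3 : P.Adj (Sum.inr q) (Sum.inl y') := by simpa [psi] using h2
        obtain ⟨_, z, h4⟩ := hpas q (Sum.inl y') h3 h6
        exact absurd h4 Sum.inl_ne_inr
      · simp [psi] at h2
      · have h3 : P.Adj (Sum.inr q) (Sum.inr q') := by simpa [psi] using h2
        obtain ⟨h7, z, h4⟩ := hpas q (Sum.inr q') h3 h6
        refine ⟨h7, z, hτi ?_⟩
        rw [hv, Sum.inr_injective h4]
        rfl
    · exfalso
      rcases hj with hj | hj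
      · exact absurd hj Sum.inr_ne_inl
      · exact absurd hj Sum.inr_ne_inl
  have hLfin : Finite L := inferInstance
  refine ⟨L, Fin n × Fin (m + 1), hLfin, inferInstance, S, ?_⟩
  refine { base := ?_, arr := ?_ }
  · refine ⟨fun x y => Cs (τ x) (τ y), Fin n, Prod.fst, ?_, ?_⟩
    · refine
      { symm := fun x y => hCs1 _ _
        pas := ?_
        fin := Set.finite_empty
        card := by simp
        pub := by simp
        low := fun x hx => absurd hx (Set.notMem_empty x)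
        dis := fun x hx => absurd hx (Set.notMem_empty x)
        hub := fun x hx => absurd hx (Set.notMem_empty x)
        lw := fun x hx => absurd hx (Set.notMem_empty x)
        dd := ?_ }
      · intro q
        right
        by_cases hq : q.2 = 0
        · refine ⟨Set.range (fun z : Fin n => (z, (0 : Fin (m + 1)))), Set.finite_range _, ?_,
            ⟨q.1, Prod.ext rfl hq.symm⟩, ?_⟩
          · rw [← Set.image_univ]
            refine (Set.ncard_image_le Set.finite_univ).trans ?_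
            rw [Set.ncard_univ, Nat.card_fin]
          · rintro _ ⟨z, rfl⟩ y hy hr
            obtain ⟨-, z', rfl⟩ := hprv _ y hy hr
            exact ⟨(z', 0), ⟨z', rfl⟩, rfl⟩
        · refine ⟨{q}, Set.finite_singleton q, ?_, rfl, ?_⟩
          · rw [Set.ncard_singleton]
            exact hn
          · rintro q' hq' y hy hr
            rw [Set.mem_singleton_iff] at hq'
            subst hq'
            exact absurd (hprv _ y hy hr).1 hq
      · intro f hf
        obtain ⟨g, hg, hm'⟩ := hmono true k A hA (no_red hA hR) hCs3 f hf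
        obtain ⟨i, q, hq⟩ := hred g hm'
        exact ⟨i, Or.inr (Or.inr ⟨q, by rw [hg, hq]; rfl⟩)⟩
    · refine
      { symm := fun x y => hCs1 _ _
        fin := fun w => Set.toFinite _
        card := ?_
        dd := ?_ }
      · intro w
        have h1 : {q : Fin n × Fin (m + 1) | q.1 = w} =
            (fun j : Fin (m + 1) => (w, j)) '' Set.univ := by
          ext ⟨a, b⟩
          rw [Set.mem_ofPred_eq, Set.image_univ, Set.mem_range]
          simp only [Prod.mk.injEq]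
          constructor
          · rintro rfl
            exact ⟨b, rfl, rfl⟩
          · rintro ⟨j, h1, h2⟩
            exact h1.symm
        rw [h1]
        refine (Set.ncard_image_le Set.finite_univ).trans ?_
        rw [Set.ncard_univ, Nat.card_fin]
      · intro f hf
        obtain ⟨g, hg, hm'⟩ := hmono false k' B hB (no_blue hB hL) hCs4 f hf
        have key : ∀ v q, f v = Sum.inr q ↔ g v = Sum.inr q := by
          intro v q
          rw [hg]
          constructor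
          · intro h1
            rcases hgv : g v with y | q'
            · rw [hgv] at h1
              have h5 : (Sum.inl (yl (Sum.inl y)) : L ⊕ (Fin n × Fin (m + 1))) =
                Sum.inr q := h1
              exact absurd h5 Sum.inl_ne_inr
            · rw [hgv] at h1
              have h5 : (Sum.inr q' : L ⊕ (Fin n × Fin (m + 1))) = Sum.inr q := h1
              rw [Sum.inr_injective h5]
          · intro h1
            rw [h1]
            rfl
        obtain ⟨⟨z, hz⟩, h2⟩ := hblue g hm'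
        refine ⟨⟨z, fun i q hq => hz i q ((key i q).1 hq)⟩, fun i j hij => ?_⟩
        have h3 := h2 i j hij
        have e1 : (∃ q, f i = Sum.inr q) ↔ ∃ q, g i = Sum.inr q :=
          exists_congr fun q => key i q
        have e2 : (∃ q, f j = Sum.inr q) ↔ ∃ q, g j = Sum.inr q :=
          exists_congr fun q => key j q
        rw [e1, e2]
        exact h3
  · intro C hC cr hnA hnB
    let e : L ⊕ (Fin n × Fin (m + 1)) ≃ V := Equiv.ofBijective τ ⟨hτi, hτs⟩
    let C' : V → V → Bool := fun x y => (C (e.symm x) (e.symm y) == cr)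
    have hC' : ∀ x y, C' (τ x) (τ y) = (C x y == cr) := by
      intro x y
      show (C (e.symm (e x)) (e.symm (e y)) == cr) = (C x y == cr)
      rw [Equiv.symm_apply_apply, Equiv.symm_apply_apply]
    -- copies that avoid the private vertices
    have hav : ∀ (b : Bool) (r : ℕ) (D : SimpleGraph (Fin r)),
        ¬ Prs S C (b == cr) ⟨r, D⟩ → ∀ f : Fin r → V, Mono F C' D b f →
        ∃ i z, (∃ q, z = Sum.inr q) ∧ f i = ι z := by
      intro b r D hn' f hf
      by_contra hcon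
      push Not at hcon
      have h1 : ∀ i, ∃ l : L, f i = τ (Sum.inl l) := by
        intro i
        refine ⟨⟨f i, fun q hq => ?_⟩, rfl⟩
        exact hcon i _ ⟨q, rfl⟩ hq
      choose g hg using h1
      refine hn' ⟨g, ?_, ?_⟩
      · intro i j hij
        apply hf.1
        rw [hg, hg]
        exact congrArg τ hij
      · intro i j hij
        obtain ⟨h2, h3⟩ := hf.2 i j hij
        rw [hg i, hg j] at h2 h3
        refine ⟨(hS _ _).2 h2, ?_⟩
        rw [hC'] at h3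
        show C (Sum.inl (g i)) (Sum.inl (g j)) = (b == cr)
        revert h3
        cases C (Sum.inl (g i)) (Sum.inl (g j)) <;> cases b <;> cases cr <;> decide
    have hbt : (true == cr) = cr := by cases cr <;> rfl
    have hbf : (false == cr) = !cr := by cases cr <;> rfl
    -- the determiners work
    have hfc := hforce C' (by
      intro x y
      show (C (e.symm x) (e.symm y) == cr) = (C (e.symm y) (e.symm x) == cr)
      rw [hC])
      (hav true k A (by rw [hbt]; exact hnA)) (hav false k' B (by rw [hbf]; exact hnB))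
    have hφ : ∀ d d' : Y ⊕ X, G.Adj (Sum.inl d) (Sum.inl d') →
        C (σ (Sum.inl d)) (σ (Sum.inl d')) = (c' (Sum.inl d) (Sum.inl d') == cr) := by
      intro d d' h
      have h1 : C' (ι (Sum.inl d)) (ι (Sum.inl d')) = c' (Sum.inl d) (Sum.inl d') :=
        hfc ⟨(d, d'), h⟩
      rw [← hσ, ← hσ, hC'] at h1
      rw [← h1]
      cases C (σ (Sum.inl d)) (σ (Sum.inl d')) <;> cases cr <;> rfl
    have hadj : ∀ u v, G.Adj u v → S.Adj (Sum.map yl id u) (Sum.map yl id v) :=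
      fun u v huv => (hSσ u v).2 huv
    refine ⟨?_, ?_, ?_⟩
    · -- the red copies
      intro x hx
      refine ⟨fun v => yl (Sum.inr (Sum.inl ⟨⟨x, hx⟩, v⟩)), ?_, ?_⟩
      · intro v v' h
        have h1 := Sum.inl_injective (Sum.inr_injective (hyl (Sum.inl_injective h)))
        exact eq_of_heq (Sigma.mk.inj h1).2
      · intro i j hij
        have h1 : G.Adj (Sum.inl (Sum.inr (Sum.inl ⟨⟨x, hx⟩, i⟩)))
            (Sum.inl (Sum.inr (Sum.inl ⟨⟨x, hx⟩, j⟩))) := by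
          have h2 : (GU 𝓡).Adj ⟨⟨x, hx⟩, i⟩ ⟨⟨x, hx⟩, j⟩ := ⟨⟨x, hx⟩, i, j, hij, rfl, rfl⟩
          show (P ⊕g (GU 𝓡 ⊕g GU 𝓛)).Adj (Sum.inr (Sum.inl _)) (Sum.inr (Sum.inl _))
          simpa using h2
        refine ⟨(hSσ _ _).2 h1, ?_⟩
        have h2 := hφ _ _ h1
        have h3 : c' (Sum.inl (Sum.inr (Sum.inl ⟨⟨x, hx⟩, i⟩)))
            (Sum.inl (Sum.inr (Sum.inl ⟨⟨x, hx⟩, j⟩))) = true := rfl
        rw [h3, hbt] at h2
        exact h2
    · -- the blue copies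
      intro x hx
      refine ⟨fun v => yl (Sum.inr (Sum.inr ⟨⟨x, hx⟩, v⟩)), ?_, ?_⟩
      · intro v v' h
        have h1 := Sum.inr_injective (Sum.inr_injective (hyl (Sum.inl_injective h)))
        exact eq_of_heq (Sigma.mk.inj h1).2
      · intro i j hij
        have h1 : G.Adj (Sum.inl (Sum.inr (Sum.inr ⟨⟨x, hx⟩, i⟩)))
            (Sum.inl (Sum.inr (Sum.inr ⟨⟨x, hx⟩, j⟩))) := by
          have h2 : (GU 𝓛).Adj ⟨⟨x, hx⟩, i⟩ ⟨⟨x, hx⟩, j⟩ := ⟨⟨x, hx⟩, i, j, hij, rfl, rfl⟩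
          show (P ⊕g (GU 𝓡 ⊕g GU 𝓛)).Adj (Sum.inr (Sum.inr _)) (Sum.inr (Sum.inr _))
          simpa using h2
        refine ⟨(hSσ _ _).2 h1, ?_⟩
        have h2 := hφ _ _ h1
        have h3 : c' (Sum.inl (Sum.inr (Sum.inr ⟨⟨x, hx⟩, i⟩)))
            (Sum.inl (Sum.inr (Sum.inr ⟨⟨x, hx⟩, j⟩))) = false := rfl
        rw [h3, hbf] at h2
        exact h2
    · rcases harr (fun s t => C (σ (emb Y X _ s)) (σ (emb Y X _ t))) (fun b => (b == cr))
        (fun s t => hC _ _) (by cases cr <;> decide) (by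
          intro d d' h
          exact hφ (Sum.inl d) (Sum.inl d') (emb_adj (X := X) (G := GX) h)) with
        ⟨q, hq⟩ | ⟨zf, hz⟩
      · left
        simp only [hbt] at hq
        have h1 := MP3240S.Ctx.star (G := GX) (C := fun u v => C (σ u) (σ v)) hq
        exact ⟨q, fun w => MP3240S.Pgc.hang_map yl hyl hadj (h1.1 w),
          fun x hx w => MP3240S.Pgc.hang_map yl hyl hadj (h1.2 x hx w)⟩
      · right
        simp only [hbf] at hz
        have h1 := MP3240S.Ctx.full (G := GX) (C := fun u v => C (σ u) (σ v)) hz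
        exact ⟨zf, MP3240S.Pgc.full_map yl hyl hadj h1⟩

end MP3240E
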