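import Pool.Agent.Lib.MP_3240be_co.D62.Defs
import Pool.Agent.Lib.MP_3240be_co.H82.Rel

/-!
# Row RE2: the relation lemma without complements
-/

set_option autoImplicit false

namespace MP3240E

open Pool.Agent.Lib.MP_3240be_co.H82 (exists_flip)

theorem re2_proof : Re2Statement := by
  classical
  intro T _ R hR1 hR2
  obtain ⟨c, i, hc, hn⟩ := exists_flip R hR1 hR2
  -- representative of the coordinates that agree with `i`
  obtain ⟨a, ha⟩ : ∃ a : T, ((∃ t, t ≠ i ∧ c t = c i) → a ≠ i ∧ c a = c i) ∧
      ((¬ ∃ t, t ≠ i ∧ c t = c i) → a = i) := by
    by_cases h : ∃ t, t ≠ i ∧ c t = c i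
    · obtain ⟨t, ht⟩ := h
      exact ⟨t, fun _ => ht, fun h' => absurd ⟨t, ht⟩ h'⟩
    · exact ⟨i, fun h' => absurd h' h, fun _ => rfl⟩
  let r1 : T → T := fun t => if t ≠ i ∧ c t = c i then a else i
  have r1i : r1 i = i := by simp [r1]
  have r1a : r1 a = a := by
    by_cases h : ∃ t, t ≠ i ∧ c t = c i
    · have := ha.1 h
      simp only [r1, if_pos this]
    · rw [ha.2 h]
      exact r1i
  have r1r : ∀ t, r1 (r1 t) = r1 t := by
    intro t
    by_cases h : t ≠ i ∧ c t = c i
    · have : r1 t = a := by simp only [r1, if_pos h]
      rw [this, r1a]
    · have : r1 t = i := by simp only [r1, if_neg h]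
      rw [this, r1i]
  by_cases hI : ∃ p : T → Bool, R (fun t => p (r1 t))
  · refine ⟨r1, r1r, hI, ?_⟩
    by_cases h : ∃ t, t ≠ i ∧ c t = c i
    · obtain ⟨hai, hca⟩ := ha.1 h
      -- the pattern `(c i, !c i)` is excluded
      have hex : ∀ p : T → Bool, R (fun t => p (r1 t)) → p a = c i → p i = c i := by
        intro p hp hpa
        by_contra hpi
        apply hn
        have e : (fun t => open Classical in if t = i then !c t else c t) =
            fun t => p (r1 t) := by
          funext t
          by_cases hti : t = i
          · subst hti
            simp only [if_true, r1i]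
            revert hpi
            cases p t <;> cases c t <;> simp
          · by_cases hct : c t = c i
            · have : r1 t = a := by simp only [r1, if_pos (⟨hti, hct⟩ : t ≠ i ∧ c t = c i)]
              simp only [if_neg hti, this, hpa, hct]
            · have : r1 t = i := by
                simp only [r1]
                rw [if_neg]
                exact fun h => hct h.2
              simp only [if_neg hti, this]
              revert hpi hct
              cases p i <;> cases c t <;> cases c i <;> simp
        rw [e]
        exact hp
      by_cases h1 : ∀ p : T → Bool, R (fun t => p (r1 t)) → p i = c i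
      · exact Or.inl ⟨i, c i, fun p hp => by rw [r1i]; exact h1 p hp⟩
      · push Not at h1
        obtain ⟨p1, hp1, hp1i⟩ := h1
        have hp1a : p1 a ≠ c i := fun h => hp1i (hex p1 hp1 h)
        by_cases h2 : ∀ p : T → Bool, R (fun t => p (r1 t)) → p a ≠ c i
        · refine Or.inl ⟨a, !c i, fun p hp => ?_⟩
          rw [r1a]
          have := h2 p hp
          revert this
          cases p a <;> cases c i <;> simp
        · push Not at h2
          obtain ⟨p2, hp2, hp2a⟩ := h2
          have hp2i := hex p2 hp2 hp2a
          right
          left
          rcases hb : c i with _ | _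
          · refine ⟨i, a, by rw [r1i, r1a]; exact hai.symm, ?_, ⟨p1, hp1, ?_, ?_⟩,
              ⟨p2, hp2, ?_, ?_⟩⟩
            · intro p hp hpi
              rw [r1i] at hpi
              rw [r1a]
              have := hex p hp
              rw [hb, hpi] at this
              revert this
              cases p a <;> simp
            · rw [r1i]
              rw [hb] at hp1i
              revert hp1i
              cases p1 i <;> simp
            · rw [r1a]
              rw [hb] at hp1a
              revert hp1a
              cases p1 a <;> simp
            · rw [r1i, hp2i, hb]
            · rw [r1a, hp2a, hb]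
          · refine ⟨a, i, by rw [r1i, r1a]; exact hai, ?_, ⟨p2, hp2, ?_, ?_⟩,
              ⟨p1, hp1, ?_, ?_⟩⟩
            · intro p hp hpa
              rw [r1a] at hpa
              rw [r1i, hex p hp (by rw [hpa, hb]), hb]
            · rw [r1a, hp2a, hb]
            · rw [r1i, hp2i, hb]
            · rw [r1a]
              rw [hb] at hp1a
              revert hp1a
              cases p1 a <;> simp
            · rw [r1i]
              rw [hb] at hp1i
              revert hp1i
              cases p1 i <;> simp
    · -- all coordinates different from `i` have the other value
      refine Or.inl ⟨i, c i, fun p hp => ?_⟩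
      rw [r1i]
      by_contra hpi
      apply hn
      have e : (fun t => open Classical in if t = i then !c t else c t) =
          fun t => p (r1 t) := by
        funext t
        have ht1 : r1 t = i := by
          simp only [r1]
          rw [if_neg]
          exact fun h' => h ⟨t, h'⟩
        rw [ht1]
        by_cases hti : t = i
        · subst hti
          simp only [if_true]
          revert hpi
          cases p t <;> cases c t <;> simp
        · have hct : c t ≠ c i := fun h' => h ⟨t, hti, h'⟩
          simp only [if_neg hti]
          revert hpi hct
          cases p i <;> cases c t <;> cases c i <;> simp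
      rw [e]
      exact hp
  · -- no solution after the identification
    obtain ⟨v, hvi, hcv⟩ : ∃ v, v ≠ i ∧ c v ≠ c i := by
      by_contra hcon
      push Not at hcon
      apply hI
      refine ⟨c, ?_⟩
      have e : (fun t => c (r1 t)) = c := by
        funext t
        by_cases hti : t = i
        · subst hti
          rw [r1i]
        · have hct := hcon t hti
          have h1 : r1 t = a := by simp only [r1, if_pos (⟨hti, hct⟩ : t ≠ i ∧ c t = c i)]
          rw [h1, hct, (ha.1 ⟨t, hti, hct⟩).2]
      rw [e]
      exact hc
    let r2 : T → T := fun t => if t = i then i else if c t = c i then a else v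
    have r2i : r2 i = i := by simp [r2]
    have r2v : r2 v = v := by simp [r2, hvi, hcv]
    have r2a : r2 a = a := by
      by_cases h : ∃ t, t ≠ i ∧ c t = c i
      · have := ha.1 h
        simp only [r2, if_neg this.1, if_pos this.2]
      · rw [ha.2 h]
        exact r2i
    have r2r : ∀ t, r2 (r2 t) = r2 t := by
      intro t
      by_cases hti : t = i
      · rw [hti, r2i, r2i]
      · by_cases hct : c t = c i
        · have : r2 t = a := by simp [r2, hti, hct]
          rw [this, r2a]
        · have : r2 t = v := by simp [r2, hti, hct]
          rw [this, r2v]
    have hcr : (fun t => c (r2 t)) = c := by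
      funext t
      by_cases hti : t = i
      · subst hti
        rw [r2i]
      · by_cases hct : c t = c i
        · have h1 : r2 t = a := by simp [r2, hti, hct]
          rw [h1, hct, (ha.1 ⟨t, hti, hct⟩).2]
        · have h1 : r2 t = v := by simp [r2, hti, hct]
          rw [h1]
          revert hct hcv
          cases c v <;> cases c t <;> cases c i <;> simp
    have hc2 : R (fun t => c (r2 t)) := by rw [hcr]; exact hc
    refine ⟨r2, r2r, ⟨c, hc2⟩, ?_⟩
    have hdiff : ∀ p : T → Bool, R (fun t => p (r2 t)) → p i ≠ p v := by
      intro p hp hpv
      apply hI
      refine ⟨p, ?_⟩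
      have e : (fun t => p (r1 t)) = fun t => p (r2 t) := by
        funext t
        by_cases hti : t = i
        · subst hti
          rw [r1i, r2i]
        · by_cases hct : c t = c i
          · have h1 : r2 t = a := by simp [r2, hti, hct]
            have h2 : r1 t = a := by simp only [r1, if_pos (⟨hti, hct⟩ : t ≠ i ∧ c t = c i)]
            rw [h1, h2]
          · have h1 : r2 t = v := by simp [r2, hti, hct]
            have h2 : r1 t = i := by
              simp only [r1]
              rw [if_neg]
              exact fun h => hct h.2
            rw [h1, h2, hpv]
      rw [e]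
      exact hp
    by_cases h : ∃ p : T → Bool, R (fun t => p (r2 t)) ∧ p i ≠ c i
    · obtain ⟨p, hp, hpi⟩ := h
      right
      right
      refine ⟨i, v, by rw [r2i, r2v]; exact hvi.symm, fun p hp => by
        rw [r2i, r2v]; exact hdiff p hp, ?_, ?_⟩
      · rcases hb : c i with _ | _
        · refine ⟨p, hp, ?_⟩
          rw [r2i]
          rw [hb] at hpi
          revert hpi
          cases p i <;> simp
        · exact ⟨c, hc2, by rw [r2i, hb]⟩
      · rcases hb : c i with _ | _
        · exact ⟨c, hc2, by rw [r2i, hb]⟩
        · refine ⟨p, hp, ?_⟩
          rw [r2i]
          rw [hb] at hpi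
          revert hpi
          cases p i <;> simp
    · push Not at h
      exact Or.inl ⟨i, c i, fun p hp => by rw [r2i]; exact h p hp⟩

end MP3240E
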