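import Pool.Agent.Lib.MP_3240be_co.D62.Defs

/-!
# MP_3240be_co, determiners for two graphs, row SR2: the star relation
-/

set_option autoImplicit false

namespace MP3240E

open MP3240Q (Mono)
open Pool.Agent.Lib.MP_3240be_co.H82 (TC par CG SG_none SG_none_some SG_some_some bip_good Good)

/-- The ends of the star. -/
def TkS (N k : ℕ) (i : Fin N) : Prop := i.1 < k ∧ par i.1 ≠ par N

theorem sr2_find (P : ℕ → Prop) (h0 : P 0) (N : ℕ) (hN : ¬ P N) :
    ∃ k, k < N ∧ P k ∧ ¬ P (k + 1) := by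
  induction N with
  | zero => exact absurd h0 hN
  | succ N ih =>
    by_cases h : P N
    · exact ⟨N, Nat.lt_succ_self N, h, hN⟩
    · obtain ⟨k, h1, h2, h3⟩ := ih h
      exact ⟨k, h1.trans (Nat.lt_succ_self N), h2, h3⟩

/-- Large complete bipartite graphs have no good colouring. -/
theorem sr2_ramsey {a b : ℕ} (A : SimpleGraph (Fin a)) (B : SimpleGraph (Fin b))
    (hA : TC True A) (hB : TC True B) : ∃ m, ∀ c, ¬ G2 A B (CG True m) c := by
  classical
  obtain ⟨κ, hκ⟩ := hA.bip trivial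
  obtain ⟨κ', hκ'⟩ := hB.bip trivial
  let ε : Fin a ⊕ Fin b ≃ Fin (a + b) := finSumFinEquiv
  let H : SimpleGraph (Fin (a + b)) := {
    Adj := fun x y => (∃ i j, ε.symm x = Sum.inl i ∧ ε.symm y = Sum.inl j ∧ A.Adj i j) ∨
      ∃ i j, ε.symm x = Sum.inr i ∧ ε.symm y = Sum.inr j ∧ B.Adj i j
    symm := ⟨by
      rintro x y (⟨i, j, h1, h2, h3⟩ | ⟨i, j, h1, h2, h3⟩)
      · exact Or.inl ⟨j, i, h2, h1, h3.symm⟩
      · exact Or.inr ⟨j, i, h2, h1, h3.symm⟩⟩
    loopless := ⟨by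
      rintro x (⟨i, j, h1, h2, h3⟩ | ⟨i, j, h1, h2, h3⟩)
      · rw [h1] at h2
        exact h3.ne (Sum.inl_injective h2)
      · rw [h1] at h2
        exact h3.ne (Sum.inr_injective h2)⟩ }
  have hHA : ∀ i j, A.Adj i j → H.Adj (ε (Sum.inl i)) (ε (Sum.inl j)) := fun i j h =>
    Or.inl ⟨i, j, ε.symm_apply_apply _, ε.symm_apply_apply _, h⟩
  have hHB : ∀ i j, B.Adj i j → H.Adj (ε (Sum.inr i)) (ε (Sum.inr j)) := fun i j h =>
    Or.inr ⟨i, j, ε.symm_apply_apply _, ε.symm_apply_apply _, h⟩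
  obtain ⟨m, hm⟩ := bip_good H (fun x => Sum.elim κ κ' (ε.symm x)) (by
    rintro x y (⟨i, j, h1, h2, h3⟩ | ⟨i, j, h1, h2, h3⟩)
    · simp only [h1, h2, Sum.elim_inl]
      exact hκ i j h3
    · simp only [h1, h2, Sum.elim_inr]
      exact hκ' i j h3)
  refine ⟨m, fun c hc => hm c hc.symm ?_⟩
  intro β f hf hmono
  cases β with
  | true =>
    refine hc.red (fun i => f (ε (Sum.inl i))) ⟨?_, fun i j hij => hmono _ _ (hHA i j hij)⟩
    exact hf.comp (ε.injective.comp Sum.inl_injective)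
  | false =>
    refine hc.blue (fun i => f (ε (Sum.inr i))) ⟨?_, fun i j hij => hmono _ _ (hHB i j hij)⟩
    exact hf.comp (ε.injective.comp Sum.inr_injective)

/-- A copy which uses no edge at the apex. -/
theorem sr2_apex {n : ℕ} {H : SimpleGraph (Fin n)} (hH : TC True H) {N : ℕ}
    {c : Fin N → Fin N → Bool} {c' : Option (Fin N) → Option (Fin N) → Bool}
    (hc' : ∀ i j, c' (some i) (some j) = c i j) {τ : Bool} {f : Fin n → Option (Fin N)}
    (hf : Mono (Pool.Agent.Lib.MP_3240be_co.H82.SG (CG True N) (TkS N 0)) c' H τ f) :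
    ∃ g, Mono (CG True N) c H τ g := by
  have h1 : ∀ i, ∃ u, f i = some u := by
    intro i
    rcases hfi : f i with _ | u
    · obtain ⟨j, hj⟩ := hH.nbr i
      have := (hf.2 i j hj).1
      rw [hfi] at this
      obtain ⟨i', hi', _⟩ := SG_none this
      exact absurd hi'.1 (Nat.not_lt_zero _)
    · exact ⟨u, rfl⟩
  choose g hg using h1
  refine ⟨g, fun i j hij => hf.1 (by rw [hg, hg, hij]), fun i j hij => ?_⟩
  obtain ⟨h1, h2⟩ := hf.2 i j hij
  rw [hg, hg] at h1 h2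
  exact ⟨SG_some_some.1 h1, by rw [← h2, hc']⟩

/-- The colouring with one more edge at the apex. -/
def addE {N : ℕ} (c : Option (Fin N) → Option (Fin N) → Bool) (kk : Fin N) (τ : Bool)
    (x y : Option (Fin N)) : Bool :=
  if (x = none ∧ y = some kk) ∨ (x = some kk ∧ y = none) then τ else c x y

/-- The new edge is not used by a monochromatic copy. -/
theorem sr2_new {n : ℕ} {H : SimpleGraph (Fin n)} (hH : TC True H) {N k : ℕ} (hkN : k < N)
    {c : Option (Fin N) → Option (Fin N) → Bool} {σ : Bool}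
    (ht : ∀ i, TkS N k i → c none (some i) = σ) {τ : Bool} {f : Fin n → Option (Fin N)}
    (hf : Mono (Pool.Agent.Lib.MP_3240be_co.H82.SG (CG True N) (TkS N (k + 1)))
      (addE c ⟨k, hkN⟩ (!σ)) H τ f) :
    Mono (Pool.Agent.Lib.MP_3240be_co.H82.SG (CG True N) (TkS N k)) c H τ f := by
  set kk : Fin N := ⟨k, hkN⟩ with hkk
  have key : ∀ i j, H.Adj i j → f i = none → f j ≠ some kk := by
    intro i j hij hi hj
    obtain ⟨j', hj', hne⟩ := hH.nbr2 i j
    have h1 := (hf.2 i j hij).2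
    have h2 := hf.2 i j' hj'
    rw [hi] at h2
    obtain ⟨l, hl, hfl⟩ := SG_none h2.1
    have hlk : l ≠ kk := by
      intro h
      apply hne
      apply hf.1
      rw [hfl, hj, h]
    have hlk' : TkS N k l := by
      have h3 : l.1 ≠ k := fun h => hlk (Fin.ext h)
      have h4 := hl.1
      exact ⟨by omega, hl.2⟩
    have e1 : addE c kk (!σ) (f i) (f j) = !σ := by
      unfold addE
      exact if_pos (Or.inl ⟨hi, hj⟩)
    have e2 : addE c kk (!σ) none (f j') = σ := by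
      unfold addE
      rw [if_neg]
      · rw [hfl]
        exact ht l hlk'
      · rintro (⟨_, h⟩ | ⟨h, _⟩)
        · rw [hfl] at h
          exact hlk (Option.some_injective _ h)
        · exact absurd h (by simp)
    rw [e1] at h1
    rw [e2] at h2
    have h5 := h1.trans h2.2.symm
    revert h5
    cases σ <;> decide
  refine ⟨hf.1, fun i j hij => ?_⟩
  obtain ⟨h1, h2⟩ := hf.2 i j hij
  have hEn : ¬ ((f i = none ∧ f j = some kk) ∨ (f i = some kk ∧ f j = none)) := by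
    rintro (⟨h3, h4⟩ | ⟨h3, h4⟩)
    · exact key i j hij h3 h4
    · exact key j i hij.symm h4 h3
  have e : addE c kk (!σ) (f i) (f j) = c (f i) (f j) := by
    unfold addE
    exact if_neg hEn
  rw [e] at h2
  refine ⟨?_, h2⟩
  rcases h1 with h1 | ⟨l, hl, h1⟩
  · exact Or.inl h1
  · refine Or.inr ⟨l, ?_, h1⟩
    have h3 : l.1 ≠ k := by
      intro h
      have hl' : l = kk := Fin.ext h
      rw [hl'] at h1
      exact hEn h1
    have h4 := hl.1
    exact ⟨by omega, hl.2⟩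

/-- Row SR2. -/
theorem sr2_proof : Sr2Statement := by
  classical
  intro a b A B hA hB
  have hex := sr2_ramsey A B hA hB
  obtain ⟨m, hm⟩ := hex
  obtain ⟨x0⟩ := hA.ne
  obtain ⟨y0⟩ := hB.ne
  obtain ⟨N, _, ⟨c0, hc0⟩, hN'⟩ := sr2_find (fun m => ∃ c, G2 A B (CG True m) c)
    ⟨fun _ _ => true, fun _ _ => rfl, fun f _ => (f x0).elim0, fun f _ => (f y0).elim0⟩ m
    (fun ⟨c, hc⟩ => hm c hc)
  -- constant stars
  let Q : Bool → ℕ → Prop := fun σ k => ∃ c,
    G2 A B (Pool.Agent.Lib.MP_3240be_co.H82.SG (CG True N) (TkS N k)) c ∧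
      ∀ i, TkS N k i → c none (some i) = σ
  have hQ0 : ∀ σ, Q σ 0 := by
    intro σ
    let c' : Option (Fin N) → Option (Fin N) → Bool := fun x y => match x, y with
      | some i, some j => c0 i j
      | _, _ => false
    refine ⟨c', ⟨?_, ?_, ?_⟩, fun i hi => absurd hi.1 (Nat.not_lt_zero _)⟩
    · rintro (_ | i) (_ | j)
      · rfl
      · rfl
      · rfl
      · exact hc0.symm i j
    · intro f hf
      obtain ⟨g, hg⟩ := sr2_apex hA (c := c0) (fun _ _ => rfl) hf
      exact hc0.red g hg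
    · intro f hf
      obtain ⟨g, hg⟩ := sr2_apex hB (c := c0) (fun _ _ => rfl) hf
      exact hc0.blue g hg
  have hQN : ∀ σ, ¬ Q σ N := by
    rintro σ ⟨c, hc, _⟩
    apply hN'
    let ε : Fin (N + 1) ≃ Option (Fin N) := finSuccEquivLast
    have ε1 : ∀ u : Fin (N + 1), (u = Fin.last N ∧ ε u = none) ∨
        ∃ i : Fin N, u.1 = i.1 ∧ ε u = some i := by
      intro u
      refine Fin.lastCases ?_ (fun i => ?_) u
      · exact Or.inl ⟨rfl, finSuccEquivLast_last⟩
      · exact Or.inr ⟨i, rfl, finSuccEquivLast_castSucc i⟩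
    have hadj : ∀ u v, (CG True (N + 1)).Adj u v →
        (Pool.Agent.Lib.MP_3240be_co.H82.SG (CG True N) (TkS N N)).Adj (ε u) (ε v) := by
      intro u v huv
      obtain ⟨hne, hpar⟩ := huv
      have hpar' := hpar trivial
      rcases ε1 u with ⟨h1, h2⟩ | ⟨i, h1, h2⟩ <;> rcases ε1 v with ⟨h3, h4⟩ | ⟨j, h3, h4⟩
      · exact absurd (h1.trans h3.symm) hne
      · rw [h2, h4]
        refine SG_none_some.2 ⟨j.2, ?_⟩
        rw [h1, h3] at hpar'
        exact fun h => hpar' h.symm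
      · rw [h2, h4]
        refine (SG_none_some.2 ⟨i.2, ?_⟩).symm
        rw [h1, h3] at hpar'
        exact hpar'
      · rw [h2, h4]
        refine SG_some_some.2 ⟨fun h => hne (Fin.ext (by rw [h1, h3, h])), fun _ => ?_⟩
        rw [h1, h3] at hpar'
        exact hpar'
    refine ⟨fun u v => c (ε u) (ε v), fun u v => hc.symm _ _, ?_, ?_⟩
    · intro f hf
      exact hc.red (fun i => ε (f i)) ⟨ε.injective.comp hf.1, fun i j hij =>
        ⟨hadj _ _ (hf.2 i j hij).1, (hf.2 i j hij).2⟩⟩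
    · intro f hf
      exact hc.blue (fun i => ε (f i)) ⟨ε.injective.comp hf.1, fun i j hij =>
        ⟨hadj _ _ (hf.2 i j hij).1, (hf.2 i j hij).2⟩⟩
  have hQm : ∀ σ k k', k ≤ k' → Q σ k' → Q σ k := by
    rintro σ k k' hk ⟨c, hc, ht⟩
    have hT : ∀ i, TkS N k i → TkS N k' i := fun i hi => ⟨lt_of_lt_of_le hi.1 hk, hi.2⟩
    have hadj : ∀ u v, (Pool.Agent.Lib.MP_3240be_co.H82.SG (CG True N) (TkS N k)).Adj u v →
        (Pool.Agent.Lib.MP_3240be_co.H82.SG (CG True N) (TkS N k')).Adj u v := by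
      rintro u v (h | ⟨i, hi, h⟩)
      · exact Or.inl h
      · exact Or.inr ⟨i, hT i hi, h⟩
    refine ⟨c, ⟨hc.symm, ?_, ?_⟩, fun i hi => ht i (hT i hi)⟩
    · intro f hf
      exact hc.red f ⟨hf.1, fun i j hij => ⟨hadj _ _ (hf.2 i j hij).1, (hf.2 i j hij).2⟩⟩
    · intro f hf
      exact hc.blue f ⟨hf.1, fun i j hij => ⟨hadj _ _ (hf.2 i j hij).1, (hf.2 i j hij).2⟩⟩
  obtain ⟨k1, hk1, hq1, hq1'⟩ := sr2_find (Q true) (hQ0 true) N (hQN true)
  obtain ⟨k2, hk2, hq2, hq2'⟩ := sr2_find (Q false) (hQ0 false) N (hQN false)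
  -- the larger number
  obtain ⟨k, σ, hkN, hk, hall⟩ : ∃ k σ, k < N ∧ Q σ k ∧ ∀ τ, ¬ Q τ (k + 1) := by
    rcases le_total k1 k2 with h | h
    · refine ⟨k2, false, hk2, hq2, fun τ => ?_⟩
      cases τ
      · exact hq2'
      · exact fun h' => hq1' (hQm _ _ _ (by omega) h')
    · refine ⟨k1, true, hk1, hq1, fun τ => ?_⟩
      cases τ
      · exact fun h' => hq2' (hQm _ _ _ (by omega) h')
      · exact hq1'
  refine ⟨N, CG True N, TkS N (k + 1), ?_, ?_, ?_⟩
  · refine ⟨fun i => decide (par i.1 ≠ par N), ?_, fun i hi => decide_eq_true hi.2⟩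
    intro i j hij
    have h1 := hij.2 trivial
    show decide (par i.1 ≠ par N) ≠ decide (par j.1 ≠ par N)
    revert h1
    cases par i.1 <;> cases par j.1 <;> cases par N <;> decide
  · obtain ⟨c, hc, ht⟩ := hk
    refine ⟨fun t => addE c ⟨k, hkN⟩ (!σ) none (some t.1), addE c ⟨k, hkN⟩ (!σ),
      ⟨?_, ?_, ?_⟩, fun t => rfl⟩
    · intro x y
      unfold addE
      by_cases h : (x = none ∧ y = some (⟨k, hkN⟩ : Fin N)) ∨ (x = some ⟨k, hkN⟩ ∧ y = none)
      · have h' : (y = none ∧ x = some (⟨k, hkN⟩ : Fin N)) ∨ (y = some ⟨k, hkN⟩ ∧ x = none) := by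
          tauto
        rw [if_pos h, if_pos h']
      · have h' : ¬ ((y = none ∧ x = some (⟨k, hkN⟩ : Fin N)) ∨
            (y = some ⟨k, hkN⟩ ∧ x = none)) := by
          tauto
        rw [if_neg h, if_neg h', hc.symm]
    · intro f hf
      exact hc.red f (sr2_new hA hkN ht hf)
    · intro f hf
      exact hc.blue f (sr2_new hB hkN ht hf)
  · rintro τ ⟨c, hc, ht⟩
    exact hall τ ⟨c, hc, fun i hi => ht ⟨i, hi⟩⟩

end MP3240E
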