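import Pool.Agent.Lib.MP_3240be_co.D62.Defs
import Pool.Agent.Lib.MP_3240be_co.H82.Adj

/-!
# MP_3240be_co, board t3d_modules, row ST2 (helper98)

A determiner, an implication or an inequality between two edges at a common vertex.
-/

set_option autoImplicit false

namespace MP3240E

open MP3240Q (Mono Bip)
open Pool.Agent.Lib.MP_3240be_co.H82 (TC Sparse1 Linear StarG emb emb_none emb_pos emb_inj
  emb_common star_ind star_bip one_piece exists_colouring SG_none_some)

/-- A monochromatic copy inside one piece. -/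
theorem st2_piece {n : ℕ} {E : SimpleGraph (Fin n)} {U W : Type} {S : SimpleGraph U}
    {G : SimpleGraph W} {ι : U → W} {c : U → U → Bool} {C : W → W → Bool} {β : Bool}
    (hind : ∀ u v, G.Adj (ι u) (ι v) → S.Adj u v)
    (hC : ∀ u v, S.Adj u v → C (ι u) (ι v) = c u v)
    (hgood : ∀ f : Fin n → U, ¬ Mono S c E β f) (f : Fin n → W)
    (hin : ∀ i, ∃ u, ι u = f i) (hf : Mono G C E β f) : False := by
  choose g hg using hin
  refine hgood g ⟨fun i j hij => hf.1 (by rw [← hg, ← hg, hij]), fun i j hij => ?_⟩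
  obtain ⟨h1, h2⟩ := hf.2 i j hij
  rw [← hg, ← hg] at h1 h2
  have h3 := hind _ _ h1
  exact ⟨h3, by rw [← hC _ _ h3, h2]⟩

/-- Row ST2. -/
theorem st2_proof (fr2 : Fr2Statement) (sr2 : Sr2Statement) : St2Statement := by
  classical
  intro a b A B hA hB
  obtain ⟨N, Bs, Tp, ⟨cl, hcl1, hcl2⟩, hne, hconst⟩ := sr2 a b A B hA hB
  obtain ⟨V, M, hV, hM, δ, hδ, hsp, hlin, ⟨s₀, hs₀⟩, hcase⟩ :=
    fr2 {i : Fin N // Tp i} (srho2 A B Bs Tp) hne hconst (max (a * a) (b * b))
  have hspA : Sparse1 (a * a) δ := fun S h1 h2 => hsp S h1 (h2.trans (le_max_left _ _))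
  have hspB : Sparse1 (b * b) δ := fun S h1 h2 => hsp S h1 (h2.trans (le_max_right _ _))
  -- realization
  have real : ∀ s : V → Bool, (∀ m, srho2 A B Bs Tp (fun t => s (δ m t))) →
      ∃ C, G2 A B (StarG δ Bs hδ) C ∧
        ∀ m t, C (Sum.inl none) (Sum.inl (some (δ m t))) = s (δ m t) := by
    intro s hs
    choose c hc ht using hs
    obtain ⟨C, hC1, hC2⟩ := exists_colouring (J := M) (U := fun _ => Option (Fin N))
      (fun _ => Pool.Agent.Lib.MP_3240be_co.H82.SG Bs Tp) (emb δ) c
      (fun j => (hc j).symm) (by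
        intro m m' u v u' v' h1 h2 h3 h4
        by_cases hmm : m = m'
        · subst hmm
          rw [emb_inj δ hδ m h3, emb_inj δ hδ m h4]
        · rcases emb_common δ hmm h3 with ⟨e1, e2⟩ | ⟨t, t', e1, e2, e3⟩
          · rcases emb_common δ hmm h4 with ⟨e4, e5⟩ | ⟨r, r', e4, e5, e6⟩
            · rw [e1, e4] at h1
              exact absurd rfl h1.ne
            · rw [e1, e2, e4, e5, ht, ht]
              show s (δ m r) = s (δ m' r')
              rw [e6]
          · rcases emb_common δ hmm h4 with ⟨e4, e5⟩ | ⟨r, r', e4, e5, e6⟩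
            · rw [e1, e2, e4, e5, (hc m).symm, (hc m').symm, ht, ht]
              show s (δ m t) = s (δ m' t')
              rw [e3]
            · exfalso
              have := hlin m m' hmm t t' r r' e3 e6
              rw [e1, e4, this] at h1
              exact absurd rfl h1.ne)
    refine ⟨C, ⟨hC1, ?_, ?_⟩, ?_⟩
    · intro f hf
      obtain ⟨m, hm⟩ := one_piece δ hδ hA (fun _ => ⟨cl, hcl1, hcl2⟩) hspA f hf.1
        (fun i j hij => (hf.2 i j hij).1)
      exact st2_piece (star_ind δ hδ hlin m) (fun u v h => hC2 m u v h) (hc m).red f hm hf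
    · intro f hf
      obtain ⟨m, hm⟩ := one_piece δ hδ hB (fun _ => ⟨cl, hcl1, hcl2⟩) hspB f hf.1
        (fun i j hij => (hf.2 i j hij).1)
      exact st2_piece (star_ind δ hδ hlin m) (fun u v h => hC2 m u v h) (hc m).blue f hm hf
    · intro m t
      have h1 := hC2 m none (some t.1) (SG_none_some.2 t.2)
      rw [emb_none, emb_pos, ht] at h1
      exact h1
  -- force
  have force : ∀ C, G2 A B (StarG δ Bs hδ) C →
      ∀ m, srho2 A B Bs Tp (fun t => C (Sum.inl none) (Sum.inl (some (δ m t)))) := by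
    intro C hC m
    refine ⟨fun x y => C (emb δ m x) (emb δ m y), ⟨fun x y => hC.symm _ _, ?_, ?_⟩, fun t => ?_⟩
    · intro f hf
      exact hC.red (fun i => emb δ m (f i)) ⟨(emb_inj δ hδ m).comp hf.1, fun i j hij =>
        ⟨⟨m, f i, f j, (hf.2 i j hij).1, rfl, rfl⟩, (hf.2 i j hij).2⟩⟩
    · intro f hf
      exact hC.blue (fun i => emb δ m (f i)) ⟨(emb_inj δ hδ m).comp hf.1, fun i j hij =>
        ⟨⟨m, f i, f j, (hf.2 i j hij).1, rfl, rfl⟩, (hf.2 i j hij).2⟩⟩
    · simp only [emb_none, emb_pos]
  -- changing a value outside the hyperedges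
  have change : ∀ (s : V → Bool) (y : V), (∀ m t, δ m t ≠ y) →
      (∀ m, srho2 A B Bs Tp (fun t => s (δ m t))) → ∀ β : Bool,
      ∀ m, srho2 A B Bs Tp (fun t => Function.update s y β (δ m t)) := by
    intro s y hy hs β m
    have e : (fun t => Function.update s y β (δ m t)) = fun t => s (δ m t) := by
      funext t
      exact Function.update_of_ne (hy m t) _ _
    rw [e]
    exact hs m
  have hbip : Bip (StarG δ Bs hδ) := by
    obtain ⟨CL, hC1, _⟩ := star_bip δ hδ cl hcl1 hcl2
    exact ⟨CL, hC1⟩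
  have hadj : ∀ y, (∃ m t, δ m t = y) →
      (StarG δ Bs hδ).Adj (Sum.inl none) (Sum.inl (some y)) := by
    rintro y ⟨m, t, rfl⟩
    exact ⟨m, none, some t.1, SG_none_some.2 t.2, rfl, by rw [emb_pos]⟩
  rcases hcase with ⟨y, β, hy⟩ | ⟨y, z, hyz, himp, ⟨s₁, hs₁, h1y, h1z⟩, ⟨s₂, hs₂, h2y, h2z⟩⟩ |
      ⟨y, z, hyz, hneq, ⟨s₁, hs₁, h1y⟩, ⟨s₂, hs₂, h2y⟩⟩
  · -- a determiner
    left
    have hcov : ∃ m t, δ m t = y := by
      by_contra hcon
      have hcon' : ∀ m t, δ m t ≠ y := fun m t h => hcon ⟨m, t, h⟩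
      have h1 := hy _ (change s₀ y hcon' hs₀ (!β))
      rw [Function.update_self] at h1
      cases β <;> simp at h1
    refine ⟨β, Option V ⊕ (M × Fin N), inferInstance, StarG δ Bs hδ, Sum.inl none,
      Sum.inl (some y), hadj y hcov, hbip, ?_, ?_⟩
    · obtain ⟨C, hC, _⟩ := real s₀ hs₀
      exact ⟨C, hC⟩
    · intro C hC
      exact hy (fun v => C (Sum.inl none) (Sum.inl (some v))) (force C hC)
  · -- an implication
    right; left
    have hcy : ∃ m t, δ m t = y := by
      by_contra hcon
      have hcon' : ∀ m t, δ m t ≠ y := fun m t h => hcon ⟨m, t, h⟩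
      have h1 := himp _ (change s₂ y hcon' hs₂ true) (Function.update_self _ _ _)
      rw [Function.update_of_ne (Ne.symm hyz), h2z] at h1
      exact absurd h1 (by simp)
    have hcz : ∃ m t, δ m t = z := by
      by_contra hcon
      have hcon' : ∀ m t, δ m t ≠ z := fun m t h => hcon ⟨m, t, h⟩
      have h1 := himp _ (change s₁ z hcon' hs₁ false) (by
        rw [Function.update_of_ne hyz, h1y])
      rw [Function.update_self] at h1
      exact absurd h1 (by simp)
    obtain ⟨my, ty, hmy⟩ := hcy
    obtain ⟨mz, tz, hmz⟩ := hcz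
    refine ⟨Option V ⊕ (M × Fin N), inferInstance, StarG δ Bs hδ, Sum.inl none,
      Sum.inl (some y), Sum.inl (some z), ?_, hadj y ⟨my, ty, hmy⟩, hadj z ⟨mz, tz, hmz⟩, hbip,
      ?_, ?_⟩
    · intro h
      exact hyz (Option.some_injective _ (Sum.inl_injective h))
    · intro C hC
      exact himp (fun v => C (Sum.inl none) (Sum.inl (some v))) (force C hC)
    · intro α β hαβ
      have hαβ' : α = β := hαβ
      subst hαβ'
      cases α with
      | true =>
        obtain ⟨C, hC, hval⟩ := real s₁ hs₁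
        refine ⟨C, hC, ?_, ?_⟩
        · rw [← hmy, hval, hmy, h1y]
        · rw [← hmz, hval, hmz, h1z]
      | false =>
        obtain ⟨C, hC, hval⟩ := real s₂ hs₂
        refine ⟨C, hC, ?_, ?_⟩
        · rw [← hmy, hval, hmy, h2y]
        · rw [← hmz, hval, hmz, h2z]
  · -- an inequality
    right; right
    have hcy : ∃ m t, δ m t = y := by
      by_contra hcon
      have hcon' : ∀ m t, δ m t ≠ y := fun m t h => hcon ⟨m, t, h⟩
      have h1 := hneq _ (change s₁ y hcon' hs₁ (s₁ z))
      rw [Function.update_self, Function.update_of_ne (Ne.symm hyz)] at h1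
      exact h1 rfl
    have hcz : ∃ m t, δ m t = z := by
      by_contra hcon
      have hcon' : ∀ m t, δ m t ≠ z := fun m t h => hcon ⟨m, t, h⟩
      have h1 := hneq _ (change s₁ z hcon' hs₁ (s₁ y))
      rw [Function.update_self, Function.update_of_ne hyz] at h1
      exact h1 rfl
    obtain ⟨my, ty, hmy⟩ := hcy
    obtain ⟨mz, tz, hmz⟩ := hcz
    refine ⟨Option V ⊕ (M × Fin N), inferInstance, StarG δ Bs hδ, Sum.inl none,
      Sum.inl (some y), Sum.inl (some z), ?_, hadj y ⟨my, ty, hmy⟩, hadj z ⟨mz, tz, hmz⟩, hbip,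
      ?_, ?_⟩
    · intro h
      exact hyz (Option.some_injective _ (Sum.inl_injective h))
    · intro C hC
      exact hneq (fun v => C (Sum.inl none) (Sum.inl (some v))) (force C hC)
    · intro α β hαβ
      have hαβ' : α ≠ β := hαβ
      cases α with
      | true =>
        obtain ⟨C, hC, hval⟩ := real s₁ hs₁
        refine ⟨C, hC, ?_, ?_⟩
        · rw [← hmy, hval, hmy, h1y]
        · rw [← hmz, hval, hmz]
          have h1 := hneq s₁ hs₁
          rw [h1y] at h1
          cases β with
          | true => exact absurd rfl hαβ'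
          | false =>
            cases hz : s₁ z with
            | true => exact absurd hz.symm h1
            | false => rfl
      | false =>
        obtain ⟨C, hC, hval⟩ := real s₂ hs₂
        refine ⟨C, hC, ?_, ?_⟩
        · rw [← hmy, hval, hmy, h2y]
        · rw [← hmz, hval, hmz]
          have h1 := hneq s₂ hs₂
          rw [h2y] at h1
          cases β with
          | false => exact absurd rfl hαβ'
          | true =>
            cases hz : s₂ z with
            | false => exact absurd hz.symm h1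
            | true => rfl

end MP3240E
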