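import Pool.Agent.Lib.MP_3240be_co.D62.Defs
import Pool.Agent.Lib.MP_3240be_co.S62.Unx

/-!
# MP_3240be_co, row UNA: disjoint union of gadgets for a pair (compare S62/Unx.lean)
-/

set_option autoImplicit false

namespace MP3240E

open MP3240G (TwoCn UL ue uf ue_inj uf_inj ue_ne_uf upt ugr ugr_e ugr_f ugr_pt upt_none upt_some
  ucol ucol_e ucol_f ucol_symm)
open MP3240Q (Mono SG)
open MP3240S (RBase BBase unx_nb ue_eq_inr)

section Unx

variable {L Q J : Type} {X : J → Type}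

/-- A monochromatic copy of `D` in the union lies in the first gadget. -/
theorem una_split {k : ℕ} {D : SimpleGraph (Fin k)} (hD : TwoCn D) (S : SimpleGraph (L ⊕ Q))
    (C₀ : L ⊕ Q → L ⊕ Q → Bool) (Γ : ∀ j, SimpleGraph (X j)) (C : ∀ j, X j → X j → Bool)
    (c : Bool) (hC : ∀ j f, ¬ Mono (Γ j) (C j) D c f) (f : Fin k → UL L X ⊕ Q)
    (hf : Mono (ugr S Γ) (ucol C₀ C) D c f) :
    ∃ g : Fin k → L ⊕ Q, (∀ v, f v = ue L X (g v)) ∧ Mono S C₀ D c g := by
  have hk : 3 ≤ k := hD.three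
  have v0 : Fin k := ⟨0, by omega⟩
  have hall : ∀ v, upt (f v) = upt (f v0) := by
    intro v
    obtain ⟨w⟩ := hD.conn.preconnected v v0
    induction w with
    | nil => rfl
    | cons h _ ih => exact (ugr_pt S Γ (hf.2 _ _ h).1).1.trans ih
  have hne : upt (f v0) ≠ none := by
    have : Nontrivial (Fin k) := Fin.nontrivial_iff_two_le.2 (by omega)
    obtain ⟨w, hw⟩ := exists_ne v0
    obtain ⟨p⟩ := hD.conn.preconnected v0 w
    cases p with
    | nil => exact absurd rfl hw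
    | cons h _ => exact (ugr_pt S Γ (hf.2 _ _ h).1).2
  rcases hc : upt (f v0) with _ | (_ | j)
  · exact absurd hc hne
  · have h1 : ∀ v, ∃ u, f v = ue L X u := fun v => upt_none ((hall v).trans hc)
    choose g hg using h1
    refine ⟨g, hg, ?_, ?_⟩
    · intro u v huv
      apply hf.1
      rw [hg u, hg v, huv]
    · intro u v huv
      have h2 := hf.2 u v huv
      rw [hg u, hg v] at h2
      refine ⟨?_, ?_⟩
      · obtain ⟨v', hv', h'⟩ := ugr_e S Γ h2.1
        have : g v = v' := ue_inj hv'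
        rw [this]
        exact h'
      · rw [← ucol_e C₀ C (L := L) (X := X)]
        exact h2.2
  · have h1 : ∀ v, ∃ x, f v = uf L X _ j x := fun v => upt_some ((hall v).trans hc)
    choose g hg using h1
    refine absurd ?_ (hC j g)
    refine ⟨?_, ?_⟩
    · intro u v huv
      apply hf.1
      rw [hg u, hg v, huv]
    · intro u v huv
      have h2 := hf.2 u v huv
      rw [hg u, hg v] at h2
      exact ⟨ugr_f S Γ h2.1, by rw [← ucol_f C₀ C (L := L) (Q := Q)]; exact h2.2⟩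

theorem una_red {k n h m₁ : ℕ} {D : SimpleGraph (Fin k)} (hD : TwoCn D) [Finite L]
    (S : SimpleGraph (L ⊕ Q)) (C₀ : L ⊕ Q → L ⊕ Q → Bool) (Γ : ∀ j, SimpleGraph (X j))
    (C : ∀ j, X j → X j → Bool) (hCs : ∀ j x y, C j x y = C j y x)
    (hC : ∀ j f, ¬ Mono (Γ j) (C j) D true f) {Hb Lw : Set (L ⊕ Q)}
    (hR : RBase n h m₁ D S C₀ Hb Lw) :
    RBase n h m₁ D (ugr S Γ) (ucol C₀ C) (ue L X '' Hb) (ue L X '' Lw) where
  symm := ucol_symm C₀ C hR.symm hCs
  pas := by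
    intro q
    rcases hR.pas q with h1 | ⟨A, hA, hn, hq, h1⟩
    · exact Or.inl ⟨_, h1, rfl⟩
    · refine Or.inr ⟨A, hA, hn, hq, ?_⟩
      intro q' hq' y hy hc
      obtain ⟨v, rfl, hv, hcv⟩ := unx_nb S C₀ Γ C (u := Sum.inr q') hy hc
      obtain ⟨q'', hq'', rfl⟩ := h1 q' hq' v hv hcv
      exact ⟨q'', hq'', rfl⟩
  fin := hR.fin.image _
  card := (Set.ncard_image_le hR.fin).trans hR.card
  pub := by
    have hs : {l : UL L X | Sum.inl l ∈ ue L X (Q := Q) '' Hb} ⊆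
        (fun l : L => (Sum.inl (Sum.inl l) : UL L X)) '' {l : L | Sum.inl l ∈ Hb} := by
      rintro l ⟨u, hu, e⟩
      rcases u with u | q
      · refine ⟨u, hu, ?_⟩
        have e' : (Sum.inl (Sum.inl (Sum.inl u)) : UL L X ⊕ Q) = Sum.inl l := e
        exact Sum.inl_injective e'
      · have e' : (Sum.inr q : UL L X ⊕ Q) = Sum.inl l := e
        exact absurd e' (by simp)
    have hfin : {l : L | Sum.inl l ∈ Hb}.Finite := Set.toFinite _
    exact (Set.ncard_le_ncard hs (hfin.image _)).trans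
      ((Set.ncard_image_le hfin).trans hR.pub)
  low := by
    rintro _ ⟨u, hu, rfl⟩
    obtain ⟨l, rfl⟩ := hR.low u hu
    exact ⟨Sum.inl (Sum.inl l), rfl⟩
  dis := by
    rintro _ ⟨u, hu, rfl⟩ ⟨v, hv, e⟩
    have : v = u := ue_inj e
    subst this
    exact hR.dis v hu hv
  hub := by
    rintro _ ⟨u, hu, rfl⟩ y hy hc
    obtain ⟨v, rfl, hv, hcv⟩ := unx_nb S C₀ Γ C hy hc
    exact ⟨v, hR.hub u hu v hv hcv, rfl⟩
  lw := by
    rintro _ ⟨u, hu, rfl⟩ y hy hc
    obtain ⟨v, rfl, hv, hcv⟩ := unx_nb S C₀ Γ C hy hc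
    exact ⟨v, hR.lw u hu v hv hcv, rfl⟩
  dd := by
    intro f hf
    obtain ⟨g, hg, hm⟩ := una_split hD S C₀ Γ C true hC f hf
    obtain ⟨i, hi⟩ := hR.dd g hm
    refine ⟨i, ?_⟩
    rcases hi with hi | hi | ⟨q, hq⟩
    · exact Or.inl ⟨_, hi, (hg i).symm⟩
    · exact Or.inr (Or.inl ⟨_, hi, (hg i).symm⟩)
    · exact Or.inr (Or.inr ⟨q, by rw [hg i, hq]; rfl⟩)

theorem una_blue {k M : ℕ} {D : SimpleGraph (Fin k)} (hD : TwoCn D)
    (S : SimpleGraph (L ⊕ Q)) (C₀ : L ⊕ Q → L ⊕ Q → Bool) (Γ : ∀ j, SimpleGraph (X j))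
    (C : ∀ j, X j → X j → Bool) (hCs : ∀ j x y, C j x y = C j y x)
    (hC : ∀ j f, ¬ Mono (Γ j) (C j) D false f) {Wt : Type} {wd : Q → Wt}
    (hB : BBase M D S C₀ wd) :
    BBase M D (ugr S Γ) (ucol C₀ C) wd where
  symm := ucol_symm C₀ C hB.symm hCs
  fin := hB.fin
  card := hB.card
  dd := by
    intro f hf
    obtain ⟨g, hg, hm⟩ := una_split hD S C₀ Γ C false hC f hf
    have key : ∀ i q, f i = Sum.inr q ↔ g i = Sum.inr q := by
      intro i q
      rw [hg i]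
      constructor
      · exact ue_eq_inr
      · intro e
        rw [e]
        rfl
    obtain ⟨⟨w, hw⟩, h2⟩ := hB.dd g hm
    refine ⟨⟨w, fun i q e => hw i q ((key i q).1 e)⟩, ?_⟩
    intro i j hij
    have := h2 i j hij
    simp only [key]
    exact this

end Unx

theorem una_proof : UnaStatement := by
  classical
  intro k k' n m h A B hA hB L Q _ S hbase J _ X _ Γ hΓ
  obtain ⟨C₀, Wt, wd, hR, hBl⟩ := hbase
  choose C hC using hΓ
  have hCs : ∀ j x y, C j x y = C j y x := fun j => (hC j).symm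
  have hred := una_red (Q := Q) hA S C₀ Γ C hCs (fun j => (hC j).red) hR
  rw [Set.image_empty] at hred
  refine ⟨UL L X, inferInstance, ugr S Γ, fun l => Sum.inl (Sum.inl l),
    fun j x => Sum.inl (Sum.inr ⟨j, x⟩), ⟨ucol C₀ C, Wt, wd, hred,
      una_blue hB S C₀ Γ C hCs (fun j => (hC j).blue) hBl⟩,
    ⟨Sum.inr true, Sum.inr false, by simp⟩, ?_, ?_, ?_, ?_⟩
  · intro u v e
    simpa using e
  · intro j u v e
    have h' : (⟨j, u⟩ : Σ j, X j) = ⟨j, v⟩ := by simpa using e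
    exact eq_of_heq (Sigma.mk.inj h').2
  · intro u v huv
    exact Or.inl ⟨u, v, huv, rfl, rfl⟩
  · intro j u v huv
    exact Or.inr ⟨j, u, v, huv, rfl, rfl⟩

end MP3240E
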