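import Pool.Agent.Lib.MP_3240be_co.S62.Main
import Pool.Agent.Lib.MP_3240be_co.D62.All
import Pool.Agent.Lib.MP_3240be_co.D62.Atd
import Pool.Agent.Lib.MP_3240be_co.D62.Brg
import Pool.Agent.Lib.MP_3240be_co.D62.Caa
import Pool.Agent.Lib.MP_3240be_co.D62.Ch2
import Pool.Agent.Lib.MP_3240be_co.D62.Da2
import Pool.Agent.Lib.MP_3240be_co.D62.Det
import Pool.Agent.Lib.MP_3240be_co.D62.Dt1
import Pool.Agent.Lib.MP_3240be_co.D62.Dt2
import Pool.Agent.Lib.MP_3240be_co.D62.Eq1
import Pool.Agent.Lib.MP_3240be_co.D62.Eq2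
import Pool.Agent.Lib.MP_3240be_co.D62.Fr2
import Pool.Agent.Lib.MP_3240be_co.D62.Ga2
import Pool.Agent.Lib.MP_3240be_co.D62.Gd2
import Pool.Agent.Lib.MP_3240be_co.D62.Gle
import Pool.Agent.Lib.MP_3240be_co.D62.Gls
import Pool.Agent.Lib.MP_3240be_co.D62.Kg2
import Pool.Agent.Lib.MP_3240be_co.D62.Kla
import Pool.Agent.Lib.MP_3240be_co.D62.Ma2
import Pool.Agent.Lib.MP_3240be_co.D62.Md2
import Pool.Agent.Lib.MP_3240be_co.D62.Pga
import Pool.Agent.Lib.MP_3240be_co.D62.Re2
import Pool.Agent.Lib.MP_3240be_co.D62.Sel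
import Pool.Agent.Lib.MP_3240be_co.D62.Sr2
import Pool.Agent.Lib.MP_3240be_co.D62.St2
import Pool.Agent.Lib.MP_3240be_co.D62.Una

/-!
# MP_3240be_co: all connected bipartite graphs (unconditional)

For a connected bipartite graph `H` with a cycle and every connected graph `H'` with more vertices
than `H` that contains `H`, some graph arrows `H` but not `H'`.
-/

set_option autoImplicit false

namespace MP3240E

theorem fr2_all : Fr2Statement := fr2_proof re2_proof

theorem st2_all : St2Statement := st2_proof fr2_all sr2_proof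

theorem dt1_all : Dt1Statement := dt1_proof gls_proof

theorem dt2_all : Dt2Statement := dt2_proof gle_proof

theorem det_all : DetStatement := det_proof st2_all ch2_proof dt1_all dt2_all

theorem atd_all : AtdStatement := atd_proof gle_proof

theorem nbc_all : MP3240G.NbcStatement := MP3240G.nbc_proof MP3240G.spc_proof

theorem sel_all : SelStatement := sel_proof det_all (eq1_proof gle_proof) (eq2_proof gls_proof)

theorem kg2_all : Kg2Statement :=
  kg2_proof MP3240G.typ_all MP3240Q.lin_proof MP3240G.wga_all MP3240G.wgr_all MP3240G.wgb_all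
    MP3240G.gab_proof MP3240G.blb_proof

theorem kla_all : KlaStatement := kla_proof kg2_all MP3240G.ncd_proof nbc_all

theorem pta_all : PtaStatement := MP3240S.pta_all

theorem pga_all : PgaStatement := pga_proof pta_all atd_all

theorem ga2_all : Ga2Statement :=
  ga2_proof pga_all kla_all una_proof caa_proof MP3240G.gmc_proof MP3240G.lrg_proof nbc_all

theorem gd2_all : Gd2Statement :=
  gd2_proof MP3240S.pgc_all MP3240S.mox_proof MP3240S.unx_proof MP3240S.cax_proof
    MP3240G.gmc_proof MP3240G.lrg_proof nbc_all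

theorem ma2_all : Ma2Statement :=
  ma2_proof ga2_all MP3240S.num_proof MP3240S.gra_all MP3240S.grs_all MP3240S.grf_all
    MP3240S.emb_all MP3240S.glc_proof MP3240S.loc_proof (MP3240S.rdn_proof MP3240S.gri_proof)
    MP3240S.bdn MP3240G.typ_all MP3240Q.lin_proof

theorem md2_all : Md2Statement :=
  md2_proof MP3240S.num_proof MP3240S.ars_all MP3240S.emb_all MP3240S.noh_all gd2_all
    MP3240G.typ_all MP3240Q.lin_proof

/-- All connected bipartite graphs with a cycle. -/
theorem main : AllStatement :=
  all_proof MP3240S.main da2_proof sel_all kla_all ma2_all md2_all brg_proof MP3240G.ncd_proof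

end MP3240E
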