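import Pool.Agent.Lib.MP_3240be_co.D62.Defs

/-!
# MP_3240be_co: row SEL of the board t3d_modules

The pair of maximal cross-connected members whose set of Ramsey graphs is minimal.
-/

set_option autoImplicit false

namespace MP3240E

open MP3240G (Big Mx)
open MP3240Q (Mono Bip SG Sub)
open Pool.Agent.Lib.MP_3240be_co.H82 (TC)

theorem sel_mono {U V W : Type} {S : SimpleGraph V} {C : V → V → Bool} {A : SimpleGraph U}
    {B : SimpleGraph W} {c : Bool} {f : U → V} (hf : Mono S C A c f) (hs : Sub B A) :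
    ∃ g, Mono S C B c g := by
  obtain ⟨g, hg, hg'⟩ := hs
  exact ⟨fun i => f (g i), hf.1.comp hg, fun i j hij => hf.2 _ _ (hg' i j hij)⟩

theorem Le2.rfl' (U V : SG) : Le2 U V U V := fun _ _ _ h => h

theorem Le2.tr {U V U' V' U'' V'' : SG} (h : Le2 U V U' V') (h' : Le2 U' V' U'' V'') :
    Le2 U V U'' V'' := fun X hX Γ hΓ => h' X hX Γ (h X hX Γ hΓ)

theorem le2_sub {U V U' V' : SG} (h : Sub U'.2 U.2) (h' : Sub V'.2 V.2) : Le2 U V U' V' := by
  intro X hX Γ hΓ C hC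
  rcases hΓ C hC with ⟨f, hf⟩ | ⟨f, hf⟩
  · exact Or.inl (sel_mono hf h)
  · exact Or.inr (sel_mono hf h')

theorem sel_sub_refl (U : SG) : Sub U.2 U.2 := ⟨id, Function.injective_id, fun _ _ h => h⟩

theorem sel_sub_trans {U V W : SG} (h : Sub U.2 V.2) (h' : Sub V.2 W.2) : Sub U.2 W.2 := by
  obtain ⟨f, hf, hf'⟩ := h
  obtain ⟨g, hg, hg'⟩ := h'
  exact ⟨fun i => g (f i), hg.comp hf, fun x y hxy => hg' _ _ (hf' _ _ hxy)⟩

theorem sel_proof (det : DetStatement) (eq1 : Eq1Statement) (eq2 : Eq2Statement) :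
    SelStatement := by
  classical
  intro h fm hh hfin hbig hex
  obtain ⟨x₀, hx₀, hT₀⟩ := hex
  let P : Set (SG × SG) := {p | Mx fm p.1 ∧ TC True p.1.2 ∧ Mx fm p.2 ∧ TC True p.2.2}
  have hP : P.Finite := (hfin.prod hfin).subset (fun p hp => ⟨hp.1.1, hp.2.2.1.1⟩)
  have hPne : P.Nonempty := ⟨(x₀, x₀), hx₀, hT₀, hx₀, hT₀⟩
  obtain ⟨p, hp, hmin⟩ : ∃ p ∈ P, ∀ q ∈ P, Le2 q.1 q.2 p.1 p.2 → Le2 p.1 p.2 q.1 q.2 := by
    let inst : Preorder (SG × SG) :=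
      { le := fun p q => Le2 p.1 p.2 q.1 q.2
        lt := fun p q => Le2 p.1 p.2 q.1 q.2 ∧ ¬ Le2 q.1 q.2 p.1 p.2
        le_refl := fun p => Le2.rfl' _ _
        le_trans := fun p q r h1 h2 => h1.tr h2
        lt_iff_le_not_ge := fun _ _ => Iff.rfl }
    obtain ⟨p₀, hp₀⟩ := hPne
    obtain ⟨p, -, hp⟩ := @Set.Finite.exists_le_minimal (SG × SG) inst P p₀ hP hp₀
    exact ⟨p, hp.1, fun q hq hqp => hp.2 hq hqp⟩
  obtain ⟨A, B⟩ := p
  obtain ⟨hA, hTA, hB, hTB⟩ := hp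
  simp only at hA hTA hB hTB hmin
  by_cases hAB : Sub A.2 B.2 ∨ Sub B.2 A.2
  · have h1 : Sub A.2 B.2 := by
      rcases hAB with h | h
      · exact h
      · exact hB.2 A hA.1 h
    have h2 : Sub B.2 A.2 := hA.2 B hB.1 h1
    refine ⟨A, A, hA, hTA, hA, hTA, Or.inl ⟨rfl, fun U V hU hTU hV hTV hle => ?_⟩⟩
    have h3 : Le2 U V A B := hle.tr (le2_sub (sel_sub_refl A) h2)
    have h4 : Le2 A B U V := hmin (U, V) ⟨hU, hTU, hV, hTV⟩ h3
    have h5 : Le2 A A U V := (le2_sub (sel_sub_refl A) h2).tr h4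
    by_cases hUV : Sub U.2 V.2 ∨ Sub V.2 U.2
    · have g1 : Sub U.2 V.2 := by
        rcases hUV with h | h
        · exact h
        · exact hV.2 U hU.1 h
      have g2 : Sub V.2 U.2 := hU.2 V hV.1 g1
      have g3 : Le2 U U A A := (le2_sub (sel_sub_refl U) g2).tr hle
      have g4 : Le2 A A U U := h5.tr (le2_sub (sel_sub_refl U) g1)
      have g5 : Sub U.2 A.2 := eq2 A U hTA hTU g3 g4
      exact ⟨g5, sel_sub_trans g2 g5⟩
    · push Not at hUV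
      have g1 := eq1 U V A A hTU hTV hTA hTA
        (det U.1 V.1 U.2 V.2 hTU hTV hUV.2) h5 hle
      have g2 : Sub A.2 U.2 ∧ Sub A.2 V.2 := by
        rcases g1 with g | g
        · exact g
        · exact ⟨g.2, g.1⟩
      exact ⟨hA.2 U hU.1 g2.1, hA.2 V hV.1 g2.2⟩
  · push Not at hAB
    have hd := det A.1 B.1 A.2 B.2 hTA hTB hAB.2
    exact ⟨A, B, hA, hTA, hB, hTB, Or.inr ⟨hAB.1, hAB.2, hd,
      fun U V hU hTU hV hTV hle => eq1 A B U V hTA hTB hTU hTV hd hle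
        (hmin (U, V) ⟨hU, hTU, hV, hTV⟩ hle)⟩⟩

end MP3240E
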